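import Pool.Agent.Lib.MP_1ef7cf_nt_p.PD


/-!
# Differences of functions: basic properties
-/

namespace Pool.Agent.STp

section

variable {G : Type*} [CommGroup G] {N : AddSubgroup (G → ℝ)}

/-- `Fl N j` is translation invariant.
Proof: induction on `j`; `dl b (fun x => f (x * a)) = fun x => (dl b f) (x * a)` by `mul_right_comm`
(use `mem_Fl_succ`). -/
theorem trInv_Fl (hN : TrInv N) : ∀ j, TrInv (Fl N j) := by
  intro j
  induction j with
  | zero => exact hN
  | succ j ih =>
    intro a f hf
    rw [mem_Fl_succ] at hf ⊢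
    intro b
    have h1 := ih a _ (hf b)
    have h2 : dl b (fun x => f (x * a)) = fun x => dl b f (x * a) := by
      funext x
      simp only [dl_apply]
      rw [mul_right_comm]
    rw [h2]
    exact h1

/-- Proof: `dl a f = f - (fun x => f (x * a))`, both in the group `Fl N j` by
`trInv_Fl`. -/
theorem dl_mem_Fl (hN : TrInv N) (a : G) {j : ℕ} {f : G → ℝ} (hf : f ∈ Fl N j) :
    dl a f ∈ Fl N j := by
  have h1 : dl a f = f - fun x => f (x * a) := rfl
  rw [h1]
  exact sub_mem hf (trInv_Fl hN j a f hf)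

/-- Proof: `Fl N j ≤ Fl N (j + 1)` by `mem_Fl_succ` and `dl_mem_Fl`; then
`monotone_nat_of_le_succ`. -/
theorem Fl_mono (hN : TrInv N) {i j : ℕ} (h : i ≤ j) : Fl N i ≤ Fl N j := by
  exact monotone_nat_of_le_succ (fun n f hf => mem_Fl_succ.2 fun a => dl_mem_Fl hN a hf) h

end

end Pool.Agent.STp
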