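import Pool.Agent.Lib.MP_1ef7cf_nt_p.PD


/-!
# Differences of functions: basic properties
-/

namespace Pool.Agent.STp

section

variable {G : Type*} [CommGroup G] {N : AddSubgroup (G → ℝ)}

/-- Proof: the sum over `∅.powerset = {∅}`. -/
theorem ap_empty {ι : Type*} (φ : ι → G) (f : G → ℝ) : ap φ ∅ f = f := by
  funext x
  unfold ap
  rw [Finset.powerset_empty, Finset.sum_singleton, Finset.card_empty, pow_zero, one_mul,
    Finset.prod_empty, mul_one]

/-- Proof: `Finset.sum_powerset_insert hq`; for `t ∈ r.powerset` we have `q ∉ t`, so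
`(insert q t).card = t.card + 1` and `∏ i ∈ insert q t, φ i = φ q * ∏ i ∈ t, φ i`; compare with
`dl_apply` (`x * φ q * ∏ = x * (φ q * ∏)`) and use `Finset.sum_sub_distrib` or
`← Finset.sum_add_distrib`. -/
theorem ap_insert {ι : Type*} [DecidableEq ι] (φ : ι → G) {q : ι} {r : Finset ι} (hq : q ∉ r)
    (f : G → ℝ) : ap φ (insert q r) f = dl (φ q) (ap φ r f) := by
  funext x
  rw [dl_apply]
  unfold ap
  rw [Finset.sum_powerset_insert hq, sub_eq_add_neg, ← Finset.sum_neg_distrib]
  congr 1
  refine Finset.sum_congr rfl fun t ht => ?_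
  have hqt : q ∉ t := fun h => hq (Finset.mem_powerset.1 ht h)
  rw [Finset.card_insert_of_notMem hqt, Finset.prod_insert hqt, pow_succ, mul_assoc x]
  ring

/-- Proof: `ap φ r (dl a f) = dl a (ap φ r f)` by unfolding (both are
`∑ t, (-1) ^ t.card * (f (x * ∏) - f (x * ∏ * a))`, use `mul_right_comm`), then `ap_insert`. -/
theorem ap_dl {ι : Type*} (φ : ι → G) (r : Finset ι) (a : G)
    (f : G → ℝ) : ap φ r (dl a f) = dl a (ap φ r f) := by
  funext x
  rw [dl_apply]
  unfold ap
  rw [← Finset.sum_sub_distrib]
  refine Finset.sum_congr rfl fun t _ => ?_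
  rw [dl_apply, mul_right_comm x a]
  ring

/-- Proof: the set of the `z` with `ap φ r z ∈ N` is an additive subgroup (`ap φ r` is
additive: unfold, `Finset.sum_add_distrib`, `mul_add`; zero and neg similarly), and it contains the
translates of `f`: `ap φ r (fun x => f (x * a)) = fun x => ap φ r f (x * a)` (by
`mul_right_comm`), which is in `N` by `hN`. Use `AddSubgroup.closure_le` (or
`AddSubgroup.closure_induction`). -/
theorem ap_mem_of_Sp {ι : Type*} (hN : TrInv N) (φ : ι → G) (r : Finset ι) {f z : G → ℝ}
    (hz : z ∈ Sp f) (h : ap φ r f ∈ N) : ap φ r z ∈ N := by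
  have hadd : ∀ f g : G → ℝ, ap φ r (f + g) = ap φ r f + ap φ r g := by
    intro f g
    funext x
    rw [Pi.add_apply]
    unfold ap
    rw [← Finset.sum_add_distrib]
    refine Finset.sum_congr rfl fun t _ => ?_
    rw [Pi.add_apply, mul_add]
  have hneg : ∀ f : G → ℝ, ap φ r (-f) = -ap φ r f := by
    intro f
    funext x
    rw [Pi.neg_apply]
    unfold ap
    rw [← Finset.sum_neg_distrib]
    refine Finset.sum_congr rfl fun t _ => ?_
    rw [Pi.neg_apply, mul_neg]
  have hzero : ap φ r (0 : G → ℝ) = 0 := by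
    funext x
    unfold ap
    rw [Pi.zero_apply]
    refine Finset.sum_eq_zero fun t _ => ?_
    rw [Pi.zero_apply, mul_zero]
  unfold Sp at hz
  induction hz using AddSubgroup.closure_induction with
  | mem z hz =>
    obtain ⟨a, rfl⟩ := hz
    have h1 : ap φ r (fun x => f (x * a)) = fun x => ap φ r f (x * a) := by
      funext x
      unfold ap
      refine Finset.sum_congr rfl fun t _ => ?_
      rw [mul_right_comm x a]
    rw [h1]
    exact hN a _ h
  | zero => rw [hzero]; exact N.zero_mem
  | add x y _ _ hx hy => rw [hadd]; exact N.add_mem hx hy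
  | neg x _ hx => rw [hneg]; exact N.neg_mem hx

/-- Proof: `AddSubgroup.subset_closure ⟨1, _⟩` with `mul_one`. -/
theorem self_mem_Sp (f : G → ℝ) : f ∈ Sp f := by
  refine AddSubgroup.subset_closure ⟨1, ?_⟩
  funext x
  simp only [mul_one]

/-- Proof: first the translate `fun x => z (x * a)` is in `Sp f` (closure induction: the
set of the `z` such that `fun x => z (x * a)` is in `Sp f` is an additive subgroup containing the
generators, `x * a * b = x * (a * b)`); then `dl a z = z - fun x => z (x * a)`. -/
theorem dl_mem_Sp {f z : G → ℝ} (a : G) (hz : z ∈ Sp f) : dl a z ∈ Sp f := by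
  have htr : (fun x => z (x * a)) ∈ Sp f := by
    unfold Sp at hz ⊢
    induction hz using AddSubgroup.closure_induction with
    | mem z hz =>
      obtain ⟨b, rfl⟩ := hz
      refine AddSubgroup.subset_closure ⟨a * b, ?_⟩
      funext x
      simp only [mul_assoc]
    | zero => exact AddSubgroup.zero_mem _
    | add x y _ _ hx hy => exact AddSubgroup.add_mem _ hx hy
    | neg x _ hx => exact AddSubgroup.neg_mem _ hx
  have h1 : dl a z = z - fun x => z (x * a) := rfl
  rw [h1]
  exact sub_mem hz htr

end

end Pool.Agent.STp
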