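import Pool.Agent.Lib.MP_1ef7cf_nt_p.PA1


/-!
# The norm lowers the order of a function
-/

namespace Pool.Agent.STp

section

variable {G : Type*} [CommGroup G] {N : AddSubgroup (G → ℝ)}

/-- The sum over the translates by the elements of the subgroup `P`. -/
noncomputable def nu (P : Subgroup G) (f : G → ℝ) : G → ℝ := fun x => ∑ᶠ p : P, f (x * (p : G))

/-- If the finite subgroup `P` contains the subgroup `Q` with `nu Q f ∈ Fl N j` then
`nu P f ∈ Fl N j`.
Proof: there is a finite set `R ⊆ P` of representatives of `P / Q`: `P` is the disjoint union of the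
cosets `t Q`, `t ∈ R`, so `nu P f x = ∑ t ∈ R, nu Q f (x * t)`, a finite sum of translates of
`nu Q f`, each in `Fl N j` by `trInv_Fl hN j`. (Convenient: `Subgroup.groupEquivQuotientProdSubgroup`
for the subgroup `Q.subgroupOf P` of `P`, an equivalence `P ≃ (P ⧸ Q.subgroupOf P) × Q.subgroupOf P`
given by `p = out (p) * q`; convert `finsum` to `Finset.sum` with `finsum_eq_sum_of_fintype` and
`Fintype.ofFinite`; then `Fintype.sum_prod_type`, `Equiv.sum_comp` and `AddSubgroup.sum_mem`.) -/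
theorem nu_mem_of_le (hN : TrInv N) {P Q : Subgroup G} (hP : Finite P) (hQP : Q ≤ P) {j : ℕ}
    {f : G → ℝ} (h : nu Q f ∈ Fl N j) : nu P f ∈ Fl N j := by
  classical
  have hQ : Finite Q := Finite.of_injective (Subgroup.inclusion hQP)
    (Subgroup.inclusion_injective hQP)
  let Q' : Subgroup P := Q.subgroupOf P
  let e : (P ⧸ Q') × Q → P := fun z => z.1.out * ⟨(z.2 : G), hQP z.2.2⟩
  have hmem : ∀ q : Q, (⟨(q : G), hQP q.2⟩ : P) ∈ Q' := fun q => q.2
  have hmk : ∀ z : (P ⧸ Q') × Q, ((e z : P) : P ⧸ Q') = z.1 := by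
    intro z
    have h1 : ((e z : P) : P ⧸ Q') = ((z.1.out : P) : P ⧸ Q') := by
      rw [QuotientGroup.eq]
      change (z.1.out * ⟨(z.2 : G), hQP z.2.2⟩)⁻¹ * z.1.out ∈ Q'
      have h2 : (z.1.out * ⟨(z.2 : G), hQP z.2.2⟩ : P)⁻¹ * z.1.out =
          (⟨(z.2 : G), hQP z.2.2⟩ : P)⁻¹ := by
        rw [mul_inv_rev, inv_mul_cancel_right]
      rw [h2]
      exact Q'.inv_mem (hmem z.2)
    rw [h1]
    exact QuotientGroup.out_eq' z.1
  have hbij : Function.Bijective e := by
    constructor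
    · intro z z' hz
      have h1 : z.1 = z'.1 := by rw [← hmk z, ← hmk z', hz]
      refine Prod.ext h1 (Subtype.ext ?_)
      have h2 : z.1.out * (⟨(z.2 : G), hQP z.2.2⟩ : P) =
          z'.1.out * (⟨(z'.2 : G), hQP z'.2.2⟩ : P) := hz
      rw [h1] at h2
      have h3 : (⟨(z.2 : G), hQP z.2.2⟩ : P) = ⟨(z'.2 : G), hQP z'.2.2⟩ := mul_left_cancel h2
      exact congrArg (fun p : P => (p : G)) h3
    · intro p
      have h1 : ((p : P ⧸ Q').out)⁻¹ * p ∈ Q' := by
        rw [← QuotientGroup.eq]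
        exact QuotientGroup.out_eq' _
      refine ⟨((p : P ⧸ Q'), ⟨(((p : P ⧸ Q').out)⁻¹ * p : P), h1⟩), ?_⟩
      change (p : P ⧸ Q').out * (((p : P ⧸ Q').out)⁻¹ * p) = p
      rw [mul_inv_cancel_left]
  have : Fintype P := Fintype.ofFinite P
  have : Fintype Q := Fintype.ofFinite Q
  have : Fintype (P ⧸ Q') := Fintype.ofFinite _
  have key : nu P f = ∑ L : P ⧸ Q', fun x => nu Q f (x * ((L.out : P) : G)) := by
    funext x
    rw [Finset.sum_apply]
    unfold nu
    rw [finsum_eq_sum_of_fintype, ← hbij.sum_comp (fun p : P => f (x * (p : G))),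
      Fintype.sum_prod_type]
    refine Finset.sum_congr rfl fun L _ => ?_
    rw [finsum_eq_sum_of_fintype]
    refine Finset.sum_congr rfl fun q _ => ?_
    change f (x * ((L.out : P) * (q : G))) = _
    rw [mul_assoc]
  rw [key]
  exact AddSubgroup.sum_mem _ fun L _ => trInv_Fl hN j _ _ h

end

end Pool.Agent.STp
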