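import Pool.Agent.Lib.MP_1ef7cf_nt_p.PB1


/-!
# The norm lowers the order of a function
-/

namespace Pool.Agent.STp

section

variable {G : Type*} [CommGroup G] {N : AddSubgroup (G → ℝ)}

/-- If `Q ≤ P` has index `2` in the finite group `P` (`Nat.card P = 2 * Nat.card Q`), then
`nu P f = nu Q f + (nu Q f) (· * τ)` for some `τ ∈ P`.
Proof: choose `τ ∈ P`, `τ ∉ Q` (`Q ≠ P` because of the cardinalities, `Nat.card Q > 0`). The map
`Q ⊕ Q → P`, `q ↦ q`, `q ↦ q * τ` is injective (`q = q' * τ` would give `τ ∈ Q`) between finite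
sets of the same cardinality, so bijective; then `finsum_eq_of_bijective` / `Equiv.ofBijective` and
`Fintype.sum_sum_type` (convert the `finsum` with `finsum_eq_sum_of_fintype`). -/
theorem nu_index_two {P Q : Subgroup G} (hP : Finite P) (hQP : Q ≤ P)
    (hc : Nat.card P = 2 * Nat.card Q) (f : G → ℝ) :
    ∃ τ : G, nu P f = fun x => nu Q f x + nu Q f (x * τ) := by
  have hQ : Finite Q := Finite.of_injective (Subgroup.inclusion hQP)
    (Subgroup.inclusion_injective hQP)
  have hQf : (Q : Set G).Finite := Set.toFinite _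
  have hPf : (P : Set G).Finite := Set.toFinite _
  have hlt : ∃ τ ∈ P, τ ∉ Q := by
    by_contra h
    push Not at h
    have h1 : P = Q := le_antisymm h hQP
    rw [h1] at hc
    have : 0 < Nat.card Q := Nat.card_pos
    omega
  obtain ⟨τ, hτP, hτQ⟩ := hlt
  have hdisj : Disjoint (Q : Set G) ((fun q => q * τ) '' (Q : Set G)) := by
    rw [Set.disjoint_left]
    rintro a ha ⟨q, hq, rfl⟩
    exact hτQ ((Subgroup.mul_mem_cancel_left Q hq).1 ha)
  have hsub : (Q : Set G) ∪ ((fun q => q * τ) '' (Q : Set G)) ⊆ (P : Set G) := by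
    rintro a (ha | ⟨q, hq, rfl⟩)
    · exact hQP ha
    · exact P.mul_mem (hQP hq) hτP
  have heq : (Q : Set G) ∪ ((fun q => q * τ) '' (Q : Set G)) = (P : Set G) := by
    apply Set.eq_of_subset_of_ncard_le hsub _ hPf
    rw [Set.ncard_union_eq hdisj hQf (hQf.image _),
      Set.ncard_image_of_injective _ (mul_left_injective τ)]
    have h1 : (P : Set G).ncard = Nat.card P := rfl
    have h2 : (Q : Set G).ncard = Nat.card Q := rfl
    rw [h1, h2, hc]
    omega
  have hform : ∀ (R : Subgroup G) (x : G), nu R f x = ∑ᶠ p ∈ (R : Set G), f (x * p) := by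
    intro R x
    exact finsum_set_coe_eq_finsum_mem (s := (R : Set G)) (f := fun p => f (x * p))
  refine ⟨τ, ?_⟩
  funext x
  rw [hform, hform, hform, ← heq, finsum_mem_union hdisj hQf (hQf.image _),
    finsum_mem_image (mul_left_injective τ).injOn]
  congr 1
  apply finsum_mem_congr rfl
  intro q hq
  rw [mul_assoc x τ, mul_comm τ q]

end

end Pool.Agent.STp
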