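import Pool.Agent.Lib.MP_1ef7cf_nt_p.PB2


/-!
# The norm lowers the order of a function
-/

namespace Pool.Agent.STp

section

variable {G : Type*} [CommGroup G] {N : AddSubgroup (G → ℝ)}

/-- A finite subgroup `P` of order `2 ^ (d + 1)` contains a subgroup `Q` of order
`2 ^ d`. Proof: `Sylow.exists_subgroup_card_pow_prime 2` in the group `P` (with
`Fact (Nat.Prime 2)`) gives a subgroup of `P`; map it to `G` by `P.subtype`
(`Subgroup.card_subtype` or `Subgroup.card_map_of_injective`). The statement with `∣`: if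
`2 ^ d ∣ Nat.card P` then there is `Q ≤ P` with `Nat.card Q = 2 ^ d`. -/
theorem exists_sub_card {P : Subgroup G} (hP : Finite P) {d : ℕ} (hd : 2 ^ d ∣ Nat.card P) :
    ∃ Q : Subgroup G, Q ≤ P ∧ Nat.card Q = 2 ^ d := by
  have : Fact (Nat.Prime 2) := ⟨Nat.prime_two⟩
  obtain ⟨K, hK⟩ := Sylow.exists_subgroup_card_pow_prime (G := P) 2 hd
  refine ⟨K.map P.subtype, Subgroup.map_subtype_le K, ?_⟩
  rw [Subgroup.card_map_of_injective P.subtype_injective, hK]

/-- antisymmetric functions: `(1 + τ) f = (1 - τ c) f`. Proof: unfold `dl_apply`,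
`x * (τ * c) = x * τ * c`. -/
theorem add_translate_eq_dl {c : G} {f : G → ℝ} (hf : ∀ x, f (x * c) = -f x) (τ : G) :
    (fun x => f x + f (x * τ)) = dl (τ * c) f := by
  funext x
  rw [dl_apply, ← mul_assoc, hf]
  ring

/-- Proof: `nu P f (x * c) = ∑ᶠ p, f (x * c * p) = ∑ᶠ p, f (x * p * c)
= ∑ᶠ p, -f (x * p)`, `finsum_neg_distrib`. -/
theorem nu_anti {c : G} {f : G → ℝ} (hf : ∀ x, f (x * c) = -f x) (P : Subgroup G) (x : G) :
    nu P f (x * c) = -nu P f x := by
  unfold nu
  rw [← finsum_neg_distrib]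
  apply finsum_congr
  intro p
  rw [mul_right_comm, hf]

/-- `nu` for a subgroup of order `2 ^ d` lowers the order by `d`.
Proof: induction on `d` generalizing `j` and `P`. For `d = 0` the subgroup has one element (`1`), so
`nu P f = f` (`Nat.card_eq_one_iff_unique`, `finsum_unique`, the unique element is `1`).
For `d + 1`: take `Q` of order `2 ^ d` (`exists_sub_card`, since `2 ^ d ∣ 2 ^ (d + 1)`), by
induction (with `j + 1`, as `d + 1 + j = d + (j + 1)`) `nu Q f ∈ Fl N (j + 1)`. By `nu_index_two`,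
`nu_anti` and `add_translate_eq_dl`, `nu P f = dl (τ * c) (nu Q f) ∈ Fl N j` by `mem_Fl_succ`. -/
theorem nu_two_mem {c : G} {f : G → ℝ} (hf : ∀ x, f (x * c) = -f x) {d j : ℕ} {P : Subgroup G}
    (hP : Nat.card P = 2 ^ d) (h : f ∈ Fl N (d + j)) : nu P f ∈ Fl N j := by
  induction d generalizing j P with
  | zero =>
    rw [pow_zero] at hP
    have h1 : P = ⊥ := Subgroup.card_eq_one.mp hP
    have h2 : nu P f = f := by
      funext x
      subst h1
      unfold nu
      rw [finsum_unique]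
      have h3 : ((default : (⊥ : Subgroup G)) : G) = 1 :=
        Subgroup.mem_bot.mp (default : (⊥ : Subgroup G)).2
      rw [h3, mul_one]
    rw [h2]
    simpa using h
  | succ d ih =>
    have hfin : Finite P := by
      apply Nat.finite_of_card_ne_zero
      rw [hP]
      positivity
    obtain ⟨Q, hQP, hQ⟩ := exists_sub_card hfin (d := d) (by rw [hP]; exact pow_dvd_pow 2 (Nat.le_succ d))
    have h1 : nu Q f ∈ Fl N (j + 1) := by
      apply ih hQ
      rw [show d + (j + 1) = d + 1 + j by ring]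
      exact h
    obtain ⟨τ, hτ⟩ := nu_index_two hfin hQP (by rw [hP, hQ, pow_succ]; ring) f
    rw [hτ, add_translate_eq_dl (nu_anti hf Q) τ]
    exact mem_Fl_succ.mp h1 _

/-- Proof: `exists_sub_card`, `nu_two_mem`, `nu_mem_of_le`. -/
theorem nu_mem (hN : TrInv N) {c : G} {f : G → ℝ} (hf : ∀ x, f (x * c) = -f x) {d j : ℕ}
    {P : Subgroup G} (hP : Finite P) (hd : 2 ^ d ∣ Nat.card P) (h : f ∈ Fl N (d + j)) :
    nu P f ∈ Fl N j := by
  obtain ⟨Q, hQP, hQ⟩ := exists_sub_card hP hd
  exact nu_mem_of_le hN hP hQP (nu_two_mem hf hQ h)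

end

end Pool.Agent.STp
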