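import Mathlib


/-!
# The counting lemma
-/

namespace Pool.Agent.STp

section

variable {ι V : Type*} [DecidableEq ι]

open Classical in
/-- Double counting.
For `F : Finset ι → ℝ` (here for every `k`): the sum over the `(k + 1)`-subsets `r` of `D` of
`(k + 1) * F r` is the sum over `q ∈ D` of the sum over the `k`-subsets `r'` of `D \ {q}` of
`F (insert q r')`.
Proof: `(k + 1) * F r = ∑ q ∈ r, F r` (`Finset.card`, `Finset.sum_const`), so the left side is a sum
over the pairs `(r, q)` with `q ∈ r` (`Finset.sum_sigma'`), the right side is a sum over the pairs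
`(q, r')`; the bijection is `(r, q) ↦ (q, r.erase q)`, with inverse `(q, r') ↦ (insert q r', q)`
(`Finset.sum_bij'`; `Finset.mem_powersetCard`, `Finset.card_erase_of_mem`, `Finset.insert_erase`,
`Finset.erase_insert`). -/
theorem double_count (D : Finset ι) (k : ℕ) (F : Finset ι → ℝ) :
    ((k : ℝ) + 1) * ∑ r ∈ D.powersetCard (k + 1), F r =
      ∑ q ∈ D, ∑ r' ∈ (D.erase q).powersetCard k, F (insert q r') := by
  rw [Finset.mul_sum]
  have h1 : ∀ r ∈ D.powersetCard (k + 1), ((k : ℝ) + 1) * F r = ∑ _q ∈ r, F r := by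
    intro r hr
    rw [Finset.sum_const, (Finset.mem_powersetCard.mp hr).2, nsmul_eq_mul]
    push_cast
    ring
  rw [Finset.sum_congr rfl h1, Finset.sum_sigma', Finset.sum_sigma']
  refine Finset.sum_bij' (fun p _ => ⟨p.2, p.1.erase p.2⟩) (fun p _ => ⟨insert p.1 p.2, p.1⟩)
    ?_ ?_ ?_ ?_ ?_
  · rintro ⟨r, q⟩ hp
    rw [Finset.mem_sigma, Finset.mem_powersetCard] at hp
    rw [Finset.mem_sigma, Finset.mem_powersetCard]
    refine ⟨hp.1.1 hp.2, Finset.erase_subset_erase _ hp.1.1, ?_⟩
    rw [Finset.card_erase_of_mem hp.2, hp.1.2]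
    rfl
  · rintro ⟨q, r⟩ hp
    rw [Finset.mem_sigma, Finset.mem_powersetCard] at hp
    rw [Finset.mem_sigma, Finset.mem_powersetCard]
    have hq : q ∉ r := fun h => Finset.notMem_erase q D (hp.2.1 h)
    refine ⟨⟨Finset.insert_subset hp.1 (hp.2.1.trans (Finset.erase_subset _ _)), ?_⟩,
      Finset.mem_insert_self _ _⟩
    rw [Finset.card_insert_of_notMem hq, hp.2.2]
  · rintro ⟨r, q⟩ hp
    rw [Finset.mem_sigma] at hp
    simp only [Finset.insert_erase hp.2]
  · rintro ⟨q, r⟩ hp
    rw [Finset.mem_sigma, Finset.mem_powersetCard] at hp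
    have hq : q ∉ r := fun h => Finset.notMem_erase q D (hp.2.1 h)
    simp only [Finset.erase_insert hq]
  · rintro ⟨r, q⟩ hp
    rw [Finset.mem_sigma] at hp
    simp only [Finset.insert_erase hp.2]

end

end Pool.Agent.STp
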