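import Pool.Agent.Lib.MP_1ef7cf_nt_f.GA

/-!
# Differences of functions on ray class groups: definitions
-/

set_option linter.unusedSectionVars false

open NumberField IsDedekindDomain nonZeroDivisors IntermediateField

namespace Pool.Agent.STp

open Pool.Agent.ST Pool.Agent.STb Pool.Agent.STd Pool.Agent.STf

section abs

variable {G : Type*} [CommGroup G]

/-- The difference operator `f ↦ f - f (· * a)`. -/
def dl (a : G) : (G → ℝ) →+ (G → ℝ) where
  toFun f := fun x => f x - f (x * a)
  map_zero' := by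
    funext x
    simp
  map_add' f g := by
    funext x
    simp only [Pi.add_apply]
    ring

lemma dl_apply (a : G) (f : G → ℝ) (x : G) : dl a f x = f x - f (x * a) := rfl

lemma dl_comm (a b : G) (f : G → ℝ) : dl a (dl b f) = dl b (dl a f) := by
  funext x
  simp only [dl_apply]
  rw [mul_right_comm x a b]
  ring

/-- Translation invariance of a group of functions. -/
def TrInv (N : AddSubgroup (G → ℝ)) : Prop := ∀ a : G, ∀ f ∈ N, (fun x => f (x * a)) ∈ N

/-- The functions all whose `j`-fold differences are in `N`. -/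
def Fl (N : AddSubgroup (G → ℝ)) : ℕ → AddSubgroup (G → ℝ)
  | 0 => N
  | j + 1 => ⨅ a : G, (Fl N j).comap (dl a)

lemma mem_Fl_zero {N : AddSubgroup (G → ℝ)} {f : G → ℝ} : f ∈ Fl N 0 ↔ f ∈ N := Iff.rfl

lemma mem_Fl_succ {N : AddSubgroup (G → ℝ)} {j : ℕ} {f : G → ℝ} :
    f ∈ Fl N (j + 1) ↔ ∀ a, dl a f ∈ Fl N j := by
  rw [Fl, AddSubgroup.mem_iInf]
  rfl

/-- The product of the operators `dl (φ q)` over `q ∈ r`. -/
noncomputable def ap {ι : Type*} (φ : ι → G) (r : Finset ι) (f : G → ℝ) : G → ℝ :=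
  fun x => ∑ t ∈ r.powerset, (-1) ^ t.card * f (x * ∏ q ∈ t, φ q)

/-- The group generated by the translates of `f`. -/
def Sp (f : G → ℝ) : AddSubgroup (G → ℝ) :=
  AddSubgroup.closure (Set.range fun (a : G) (x : G) => f (x * a))

end abs

section rk

variable {ι V : Type*}

open Classical in
/-- The rank condition: there are many `q` such that the state `s q z` satisfies the condition of
rank one less. -/
def Rk (s : ι → V → V) (ok : V → Prop) (w : ι → ℝ) (Q : Finset ι) (β : ℝ) : ℕ → V → Prop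
  | 0, z => ok z
  | k + 1, z => β ≤ ∑ q ∈ Q.filter (fun q => Rk s ok w Q β k (s q z)), w q

end rk

variable {K : Type*} [Field K] [NumberField K] [Algebra K ℝ]

section nr

variable {σ₂ : K →+* ℝ} {m : Ideal (𝓞 K)} {H : IntermediateField K ℝ}

/-- The functions on the ray class group whose exponentials satisfy the conditions for the ratios. -/
def NR (Art : RayClassGroup σ₂ m ≃* (H ≃ₐ[K] H)) : AddSubgroup (RayClassGroup σ₂ m → ℝ) where
  carrier := {f | Ratio σ₂ H (fun σ => Real.exp (-2 * f (Art.symm σ)))}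
  add_mem' := by
    intro f g hf hg
    have h1 := ratio_mul (σ₂ := σ₂) hf hg
    have h2 : (fun σ => Real.exp (-2 * f (Art.symm σ)) * Real.exp (-2 * g (Art.symm σ))) =
        fun σ => Real.exp (-2 * (f + g) (Art.symm σ)) := by
      funext σ
      rw [← Real.exp_add, Pi.add_apply]
      congr 1
      ring
    rw [h2] at h1
    exact h1
  zero_mem' := by
    have h2 : (fun σ : H ≃ₐ[K] H => Real.exp (-2 * (0 : RayClassGroup σ₂ m → ℝ) (Art.symm σ))) =
        fun _ => 1 := by
      funext σ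
      rw [Pi.zero_apply, mul_zero, Real.exp_zero]
    change Ratio σ₂ H _
    rw [h2]
    exact ratio_one
  neg_mem' := by
    intro f hf
    have h1 := ratio_inv (σ₂ := σ₂) hf
    have h2 : (fun σ => (Real.exp (-2 * f (Art.symm σ)))⁻¹) =
        fun σ => Real.exp (-2 * (-f) (Art.symm σ)) := by
      funext σ
      rw [← Real.exp_neg, Pi.neg_apply]
      congr 1
      ring
    rw [h2] at h1
    exact h1

lemma mem_NR {Art : RayClassGroup σ₂ m ≃* (H ≃ₐ[K] H)} {f : RayClassGroup σ₂ m → ℝ} :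
    f ∈ NR Art ↔ Ratio σ₂ H (fun σ => Real.exp (-2 * f (Art.symm σ))) := Iff.rfl

/-- The assertion for the ratios in terms of `NR`. -/
lemma ratioP_iff : RatioP σ₂ m ↔ ∃ (H : IntermediateField K ℝ)
    (Art : RayClassGroup σ₂ m ≃* (H ≃ₐ[K] H)), IsRayClassField σ₂ m H Art ∧
      zd σ₂ m ∈ NR Art := Iff.rfl

end nr

/-- the existence of the ray class field -/
def HasRCF (σ₂ : K →+* ℝ) (m : Ideal (𝓞 K)) : Prop :=
  ∃ (H : IntermediateField K ℝ) (Art : RayClassGroup σ₂ m ≃* (H ≃ₐ[K] H)),
    IsRayClassField σ₂ m H Art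

section cl

omit [Algebra K ℝ]

open Classical in
/-- The class of the prime `q` (trivial if `q` divides the modulus). -/
noncomputable def fr (σ₂ : K →+* ℝ) (m : Ideal (𝓞 K)) (q : PrI K) : RayClassGroup σ₂ m :=
  if h : ¬ q.asIdeal ∣ m then cls σ₂ m (prJ m q h) else 1

lemma fr_eq (σ₂ : K →+* ℝ) {m : Ideal (𝓞 K)} {q : PrI K} (h : ¬ q.asIdeal ∣ m) :
    fr σ₂ m q = cls σ₂ m (prJ m q h) := dif_pos h

/-- The sums over the fibres of the map of the ray class groups. -/
noncomputable def pu {σ₂ : K →+* ℝ} {n' n : Ideal (𝓞 K)} (h : n' ≤ n)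
    (f : RayClassGroup σ₂ n' → ℝ) : RayClassGroup σ₂ n → ℝ :=
  fun A => ∑ᶠ A' ∈ {A' | pr σ₂ h A' = A}, f A'

/-- the product of the primes in `r` -/
noncomputable def prd (r : Finset (PrI K)) : Ideal (𝓞 K) := ∏ q ∈ r, q.asIdeal

end cl

end Pool.Agent.STp
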