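import Pool.Agent.Lib.MP_1ef7cf_nt_p.PC1
import Pool.Agent.Lib.MP_1ef7cf_nt_p.PD


/-!
# The counting lemma
-/

namespace Pool.Agent.STp

section

variable {ι V : Type*} [DecidableEq ι]

open Classical in
/-- The counting lemma. `A r z` is the state after the steps `q ∈ r`.
Proof: induction on `k` generalizing `E` and `z`.
`k = 0`: the left side is `1`, the right side is the sum over `r = ∅` (as `ok (A ∅ z) = ok z` holds)
of the empty product `1`.
`k + 1`: write `D = Q \ E`, `x = β - (#E + k + 1) η ≥ 0`, `F r = if ok (A r z) then ∏ q ∈ r, w q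
else 0` (`Finset.sum_filter`). By `double_count`,
`(k + 1) * RHS = ∑ q ∈ D, ∑ r' ∈ (D.erase q).powersetCard k, F (insert q r')`, and for
`r' ⊆ D.erase q` we have `q ∉ r'`, so `F (insert q r') = if ok (A r' (s q z)) then w q * ∏ q' ∈ r',
w q' else 0` by `hA1`. Note `D.erase q = Q \ (insert q E)`. For the `q ∈ D` with
`Rk s ok w Q β k (s q z)` the inner sum is at least `w q * (x ^ k / k!)` by the induction hypothesis
with `insert q E` (`#(insert q E) + k = #E + 1 + k`, as `q ∉ E`); the other `q` contribute `≥ 0`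
(drop them, all weights on `Q` are `≥ 0`). So `(k + 1) * RHS ≥ (∑ q ∈ D with Rk .., w q) *
(x ^ k / k!)`, and `∑ q ∈ D with Rk .., w q ≥ ∑ q ∈ Q with Rk .., w q - ∑ q ∈ Q ∩ E, w q ≥ β - #E η
≥ x` (by the definition of `Rk` and `w ≤ η`). Hence `(k + 1) * RHS ≥ x ^ (k + 1) / k!`; divide by
`k + 1` (`Nat.factorial_succ`). -/
theorem count (s : ι → V → V) (ok : V → Prop) (A : Finset ι → V → V) (hA0 : ∀ z, A ∅ z = z)
    (hA1 : ∀ q r z, q ∉ r → A (insert q r) z = A r (s q z)) {w : ι → ℝ} {Q : Finset ι} {β η : ℝ}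
    (hw0 : ∀ q ∈ Q, 0 ≤ w q) (hη : ∀ q ∈ Q, w q ≤ η) (hη0 : 0 ≤ η) :
    ∀ (k : ℕ) (E : Finset ι) (z : V), Rk s ok w Q β k z → ((E.card : ℝ) + k) * η ≤ β →
      (β - ((E.card : ℝ) + k) * η) ^ k / (k.factorial : ℝ) ≤
        ∑ r ∈ ((Q \ E).powersetCard k).filter (fun r => ok (A r z)), ∏ q ∈ r, w q := by
  intro k
  induction k with
  | zero =>
    intro E z hz hE
    rw [pow_zero, Nat.factorial_zero, Nat.cast_one, div_one, Finset.powersetCard_zero,
      Finset.filter_true_of_mem, Finset.sum_singleton, Finset.prod_empty]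
    intro r hr
    rw [Finset.mem_singleton] at hr
    subst hr
    rw [hA0]
    exact hz
  | succ k ih =>
    intro E z hz hE
    set D := Q \ E with hD
    set x : ℝ := β - ((E.card : ℝ) + (k + 1 : ℕ)) * η with hx
    have hx0 : 0 ≤ x := by rw [hx]; linarith
    set F : Finset ι → ℝ := fun r => if ok (A r z) then ∏ q ∈ r, w q else 0 with hF
    rw [Finset.sum_filter]
    have hdc := double_count D k F
    have hfk : (0 : ℝ) < (k.factorial : ℝ) := by exact_mod_cast Nat.factorial_pos _
    have hxk : 0 ≤ x ^ k / (k.factorial : ℝ) := div_nonneg (pow_nonneg hx0 _) hfk.le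
    have hFin : ∀ q ∈ D, ∀ r' ∈ (D.erase q).powersetCard k, F (insert q r') =
        w q * (if ok (A r' (s q z)) then ∏ q' ∈ r', w q' else 0) := by
      intro q _ r' hr'
      have hqr : q ∉ r' := fun h =>
        Finset.notMem_erase q D ((Finset.mem_powersetCard.mp hr').1 h)
      simp only [hF]
      rw [hA1 q r' z hqr, Finset.prod_insert hqr, mul_ite, mul_zero]
    have hin : ∀ q ∈ D, (if Rk s ok w Q β k (s q z) then w q * (x ^ k / (k.factorial : ℝ)) else 0) ≤
        ∑ r' ∈ (D.erase q).powersetCard k, F (insert q r') := by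
      intro q hq
      have hqQ : q ∈ Q := (Finset.mem_sdiff.mp hq).1
      have hqE : q ∉ E := (Finset.mem_sdiff.mp hq).2
      rw [Finset.sum_congr rfl (hFin q hq), ← Finset.mul_sum]
      have hnn : 0 ≤ ∑ r' ∈ (D.erase q).powersetCard k,
          (if ok (A r' (s q z)) then ∏ q' ∈ r', w q' else 0) := by
        apply Finset.sum_nonneg
        intro r' hr'
        split_ifs
        · apply Finset.prod_nonneg
          intro q' hq'
          have h1 := (Finset.mem_powersetCard.mp hr').1 hq'
          exact hw0 q' (Finset.mem_sdiff.mp (Finset.mem_of_mem_erase h1)).1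
        · exact le_refl _
      split_ifs with hR
      · have hcard : ((insert q E).card : ℝ) = (E.card : ℝ) + 1 := by
          rw [Finset.card_insert_of_notMem hqE]
          push_cast
          ring
        have hxe : β - (((insert q E).card : ℝ) + k) * η = x := by
          rw [hcard, hx]
          push_cast
          ring
        have h2 := ih (insert q E) (s q z) hR (by linarith)
        rw [hxe, Finset.sdiff_insert, ← hD, Finset.sum_filter] at h2
        exact mul_le_mul_of_nonneg_left h2 (hw0 q hqQ)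
      · exact mul_nonneg (hw0 q hqQ) hnn
    have hsum : x ≤ ∑ q ∈ D.filter (fun q => Rk s ok w Q β k (s q z)), w q := by
      have h3 : β ≤ ∑ q ∈ Q.filter (fun q => Rk s ok w Q β k (s q z)), w q := hz
      have h4 : ∑ q ∈ Q.filter (fun q => Rk s ok w Q β k (s q z)), w q ≤
          ∑ q ∈ D.filter (fun q => Rk s ok w Q β k (s q z)), w q + ∑ q ∈ Q ∩ E, w q := by
        have hsub : Q.filter (fun q => Rk s ok w Q β k (s q z)) ⊆
            D.filter (fun q => Rk s ok w Q β k (s q z)) ∪ (Q ∩ E) := by
          intro q hq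
          rw [Finset.mem_filter] at hq
          rw [Finset.mem_union, Finset.mem_filter, Finset.mem_inter, hD, Finset.mem_sdiff]
          by_cases hqE : q ∈ E
          · exact Or.inr ⟨hq.1, hqE⟩
          · exact Or.inl ⟨⟨hq.1, hqE⟩, hq.2⟩
        have hdisj : Disjoint (D.filter (fun q => Rk s ok w Q β k (s q z))) (Q ∩ E) := by
          rw [Finset.disjoint_left]
          intro q hq hq2
          rw [Finset.mem_filter, hD, Finset.mem_sdiff] at hq
          exact hq.1.2 (Finset.mem_inter.mp hq2).2
        rw [← Finset.sum_union hdisj]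
        apply Finset.sum_le_sum_of_subset_of_nonneg hsub
        intro q hq _
        rw [Finset.mem_union, Finset.mem_filter, Finset.mem_inter, hD, Finset.mem_sdiff] at hq
        rcases hq with hq | hq
        · exact hw0 q hq.1.1
        · exact hw0 q hq.1
      have h5 : ∑ q ∈ Q ∩ E, w q ≤ (E.card : ℝ) * η := by
        calc ∑ q ∈ Q ∩ E, w q ≤ ∑ _q ∈ Q ∩ E, η :=
              Finset.sum_le_sum (fun q hq => hη q (Finset.mem_inter.mp hq).1)
          _ = ((Q ∩ E).card : ℝ) * η := by rw [Finset.sum_const, nsmul_eq_mul]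
          _ ≤ (E.card : ℝ) * η := by
              apply mul_le_mul_of_nonneg_right _ hη0
              exact_mod_cast Finset.card_le_card Finset.inter_subset_right
      have h6 : 0 ≤ ((k + 1 : ℕ) : ℝ) * η := mul_nonneg (Nat.cast_nonneg _) hη0
      rw [hx]
      linarith
    have hall : x * (x ^ k / (k.factorial : ℝ)) ≤
        ((k : ℝ) + 1) * ∑ r ∈ D.powersetCard (k + 1), F r := by
      rw [hdc]
      calc x * (x ^ k / (k.factorial : ℝ))
          ≤ (∑ q ∈ D.filter (fun q => Rk s ok w Q β k (s q z)), w q) *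
              (x ^ k / (k.factorial : ℝ)) := mul_le_mul_of_nonneg_right hsum hxk
        _ = ∑ q ∈ D, (if Rk s ok w Q β k (s q z) then w q * (x ^ k / (k.factorial : ℝ)) else 0) := by
            rw [Finset.sum_filter, Finset.sum_mul]
            apply Finset.sum_congr rfl
            intro q _
            rw [ite_mul, zero_mul]
        _ ≤ _ := Finset.sum_le_sum hin
    have hk1 : (0 : ℝ) < (k : ℝ) + 1 := by positivity
    rw [Nat.factorial_succ, div_le_iff₀ (by positivity)]
    push_cast
    rw [← mul_div_assoc, div_le_iff₀ hfk] at hall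
    have e1 : x ^ (k + 1) = x * x ^ k := by rw [pow_succ]; ring
    rw [e1]
    linarith

end

end Pool.Agent.STp
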