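import Pool.Agent.Lib.MP_1ef7cf_nt_p.PN2


/-!
# One exception implies many exceptions
-/

set_option linter.unusedSectionVars false

open NumberField IsDedekindDomain nonZeroDivisors IntermediateField Filter Topology

namespace Pool.Agent.STp

section

open Pool.Agent.ST Pool.Agent.STb Pool.Agent.STd Pool.Agent.STf

variable {K : Type*} [Field K] [NumberField K] [Algebra K ℝ] {σ₂ : K →+* ℝ} {n m M : Ideal (𝓞 K)}

/-- There are many exceptions among the multiples of `n`: the sum of `N(m) ^ (-s)` over a finite set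
of exceptions is at least `X`. -/
def Many (σ₂ : K →+* ℝ) (n : Ideal (𝓞 K)) (s X : ℝ) : Prop :=
  ∃ T : Finset (Ideal (𝓞 K)), (∀ m ∈ T, m ≠ ⊥ ∧ n ∣ m ∧ ¬ RatioP σ₂ m) ∧
    X ≤ ∑ m ∈ T, (Ideal.absNorm m : ℝ) ^ (-s)

lemma Many.mono {s X Y : ℝ} (h : Many σ₂ n s Y) (hXY : X ≤ Y) : Many σ₂ n s X := by
  obtain ⟨T, hT, hsum⟩ := h
  exact ⟨T, hT, hXY.trans hsum⟩

/-- Proof: `T` is the image of `R` under `r ↦ M * prd r`. This map is injective on the
finite sets `r` of primes: `M` cancels (`mul_left_cancel₀`), and `q ∈ r ↔ q.asIdeal ∣ prd r` (`dvd_prd`,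
`Finset.dvd_prod_of_mem`). `absNorm (M * prd r) = absNorm M * ∏ q ∈ r, pn q` (`map_mul`, `map_prod`),
`Real.mul_rpow`, `Real.finsetProd_rpow`; `px s q = (pn q) ^ (-s)`. Nonzero by `prd_ne_bot`. -/
theorem many_of_sets (hM : M ≠ ⊥) (hnM : n ∣ M) (s : ℝ) (R : Finset (Finset (PrI K)))
    (hR : ∀ r ∈ R, ¬ RatioP σ₂ (M * prd r)) :
    Many σ₂ n s ((Ideal.absNorm M : ℝ) ^ (-s) * ∑ r ∈ R, ∏ q ∈ r, px s q) := by
  classical
  have hM0 : M ≠ 0 := by rw [Ideal.zero_eq_bot]; exact hM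
  have hinj : Function.Injective (fun r : Finset (PrI K) => M * prd r) := by
    intro r r' hrr
    have h1 : prd r = prd r' := mul_left_cancel₀ hM0 hrr
    have h2 : ∀ (r : Finset (PrI K)) (q : PrI K), q ∈ r ↔ q.asIdeal ∣ prd r := fun r q =>
      ⟨fun h => Finset.dvd_prod_of_mem (fun q : PrI K => q.asIdeal) h, dvd_prd⟩
    ext q
    rw [h2, h2, h1]
  refine ⟨R.image (fun r => M * prd r), ?_, ?_⟩
  · intro m hm
    obtain ⟨r, hr, rfl⟩ := Finset.mem_image.1 hm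
    exact ⟨mul_ne_bot' hM (prd_ne_bot r), dvd_mul_of_dvd_left hnM _, hR r hr⟩
  · rw [Finset.sum_image (fun r _ r' _ h => hinj h), Finset.mul_sum]
    refine Finset.sum_le_sum fun r _ => le_of_eq ?_
    rw [map_mul, Nat.cast_mul, Real.mul_rpow (Nat.cast_nonneg _) (Nat.cast_nonneg _)]
    congr 1
    unfold prd
    rw [map_prod, Nat.cast_prod, ← Real.finsetProd_rpow _ _ (fun q _ => Nat.cast_nonneg _)]
    rfl

end

end Pool.Agent.STp
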