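import Pool.Agent.Lib.MP_1ef7cf_nt_p.PN1


/-!
# Descent of the filtration to divisors of the modulus
-/

set_option linter.unusedSectionVars false

open NumberField IsDedekindDomain nonZeroDivisors IntermediateField

namespace Pool.Agent.STp

section

open Pool.Agent.ST Pool.Agent.STb Pool.Agent.STd Pool.Agent.STf

variable {K : Type*} [Field K] [NumberField K] [Algebra K ℝ] {σ₂ : K →+* ℝ} {n' n m : Ideal (𝓞 K)}
  {H H' : IntermediateField K ℝ} {Art : RayClassGroup σ₂ n ≃* (H ≃ₐ[K] H)}
  {Art' : RayClassGroup σ₂ n' ≃* (H' ≃ₐ[K] H')}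

/-- The sums over the fibres of a function in `NR Art'` form a function in `NR Art`.
Proof: `H ≤ H'` by `IsRCF.le`; `ratio_pf` (with `e σ = exp (-2 f (Art'.symm σ))`) gives
`Ratio σ₂ H (pf hle e)`. For `σ = Art A` the product `pf hle e (Art A)` is
`exp (-2 ∑ A' ∈ ovCls Art Art' hle A, f A')` (as in the proof of `pf_prime` in
`MP_1ef7cf_nt_f/RD.lean`: `unfold ovCls pf; rw [Finset.sum_map, Finset.mul_sum, Real.exp_sum]`), and
the sum is `pu h f A` by `pu_eq_sum` and `mem_ovCls`. -/
theorem pu_mem (h : n' ≤ n) (hn' : n' ≠ ⊥) (hr : IsRayClassField σ₂ n H Art)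
    (hr' : IsRayClassField σ₂ n' H' Art') {f : RayClassGroup σ₂ n' → ℝ} (hf : f ∈ NR Art') :
    pu h f ∈ NR Art := by
  have := hr.finite
  have := hr'.finite
  have : IsAbelianGalois K H := hr.isRCF.abelian
  have : IsAbelianGalois K H' := hr'.isRCF.abelian
  have hle : H ≤ H' := IsRCF.le h hn' Set.finite_empty Set.finite_empty hr'.isRCF hr.isRCF
  have h1 := ratio_pf hle hf
  have h2 : pf hle (fun σ => Real.exp (-2 * f (Art'.symm σ))) =
      fun σ => Real.exp (-2 * pu h f (Art.symm σ)) := by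
    funext σ
    obtain ⟨A, rfl⟩ := Art.surjective σ
    rw [MulEquiv.symm_apply_apply,
      pu_eq_sum h f A (mem_ovCls h hn' hr hr' hle A)]
    unfold ovCls pf
    rw [Finset.sum_map, Finset.mul_sum, Real.exp_sum]
    rfl
  rw [h2] at h1
  exact h1

end

end Pool.Agent.STp
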