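import Pool.Agent.Lib.MP_1ef7cf_nt_p.PN1


/-!
# Norm relations for several primes on the level of class groups
-/

set_option linter.unusedSectionVars false

open NumberField IsDedekindDomain nonZeroDivisors IntermediateField

namespace Pool.Agent.STp

section

open Pool.Agent.ST Pool.Agent.STb Pool.Agent.STd Pool.Agent.STf

variable {K : Type*} [Field K] [NumberField K] [Algebra K ℝ] {σ₂ : K →+* ℝ} {n' n m : Ideal (𝓞 K)}

/-- The norm relation for one prime.
Proof: `funext A`, `pu_eq_sum` with the finite set `Finset.univ.filter _` (choose a `Fintype`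
instance), then `zd_relation_prime h2 hσ h hnq hn hn1 _ (coe_prJ n q hq)`, `fr_eq` and `dl_apply`. -/
theorem pu_prime (h2 : Module.finrank ℚ K = 2) (hσ : σ₂ ≠ sg1 K) (h : n' ≤ n) {q : PrI K}
    (hnq : n' = n * q.asIdeal) (hn : n ≠ ⊥) (hn1 : n ≠ ⊤) (hq : ¬ q.asIdeal ∣ n)
    [Finite (RayClassGroup σ₂ n')] :
    pu h (zd σ₂ n') = dl (fr σ₂ n q)⁻¹ (zd σ₂ n) := by
  classical
  let _ : Fintype (RayClassGroup σ₂ n') := Fintype.ofFinite _
  funext A
  have hS : ∀ A', A' ∈ Finset.univ.filter (fun A' => pr σ₂ h A' = A) ↔ pr σ₂ h A' = A := by simp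
  rw [pu_eq_sum h (zd σ₂ n') A hS,
    zd_relation_prime h2 hσ h hnq hn hn1 hS (coe_prJ n q hq), dl_apply, fr_eq σ₂ hq]

/-- The norm relation for moduli with the same prime divisors.
Proof: as `pu_prime`, with `zd_relation_same`; the condition on coprime ideals follows as in the
proof of `starkTate_same` in `MP_1ef7cf_nt/Same.lean`. -/
theorem pu_same (h2 : Module.finrank ℚ K = 2) (hσ : σ₂ ≠ sg1 K) (h : n' ≤ n) (hn' : n' ≠ ⊥)
    (hn : n ≠ ⊥) (hn1 : n ≠ ⊤)
    (hdvd : ∀ v : HeightOneSpectrum (𝓞 K), v.asIdeal ∣ n' → v.asIdeal ∣ n)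
    [Finite (RayClassGroup σ₂ n')] : pu h (zd σ₂ n') = zd σ₂ n := by
  classical
  let _ : Fintype (RayClassGroup σ₂ n') := Fintype.ofFinite _
  have hprime : ∀ J : (FI K)ˣ, J ∈ primeTo n → J ∈ primeTo n' := fun J hJ v hv => hJ v (hdvd v hv)
  have hcop : ∀ I : Ideal (𝓞 K), IsCoprime I n → IsCoprime I n' := by
    intro I hI
    have hI0 : I ≠ ⊥ := ne_bot_of_coprime_ne hI hn1
    exact coprime_of_mem_primeTo (J := uI I hI0) (coe_uI I hI0)
      (hprime _ (coe_mem_primeTo (coe_uI I hI0) hI))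
  funext A
  have hS : ∀ A', A' ∈ Finset.univ.filter (fun A' => pr σ₂ h A' = A) ↔ pr σ₂ h A' = A := by simp
  rw [pu_eq_sum h (zd σ₂ n') A hS, zd_relation_same h2 hσ h hn' hn hn1 hcop hS]

end

end Pool.Agent.STp
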