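import Pool.Agent.Lib.MP_1ef7cf_nt_p.PN2
import Pool.Agent.Lib.MP_1ef7cf_nt_p.PN3


/-!
# Norm relations for several primes on the level of class groups
-/

set_option linter.unusedSectionVars false

open NumberField IsDedekindDomain nonZeroDivisors IntermediateField

namespace Pool.Agent.STp

section

open Pool.Agent.ST Pool.Agent.STb Pool.Agent.STd Pool.Agent.STf

variable {K : Type*} [Field K] [NumberField K] [Algebra K ℝ] {σ₂ : K →+* ℝ} {n' n m : Ideal (𝓞 K)}

/-- The norm relation for several primes.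
Proof: induction on `r` (classical) generalizing `M` and `N`. `r = ∅`: `N = M` (`prd ∅ = 1`), `subst`
(write `N = M`), `pr = id` (`pr_refl`), so `pu h f = f` by `pu_eq_sum` with `S = {A}`; and `ap_empty`.
Step `insert q r` with `q ∉ r`: put `M₁ = M * q.asIdeal`, `N = M₁ * prd r` (`prd_insert`, `mul_assoc`).
For `p ∈ r`: `¬ p ∣ M₁` (`dvd_mul_prime`, `p ≠ q`). `RayClassGroup σ₂ M₁` is finite because
`pr : Cl(N) → Cl(M₁)` is surjective (`pr_prd_surjective`, `Finite.of_surjective`). Then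
`pu (N → M) zd = pu (M₁ → M) (pu (N → M₁) zd)` (`pu_pu`)
`= pu (M₁ → M) (ap (fun p => (fr M₁ p)⁻¹) r (zd M₁))` (induction)
`= ap (fun p => (fr M p)⁻¹) r (pu (M₁ → M) (zd M₁))` (`pu_ap`, and `pr_fr` with `map_inv`; `ap`
depends only on the values on `r`: unfold `ap` and use `Finset.sum_congr`, `Finset.prod_congr`)
`= ap .. r (dl (fr M q)⁻¹ (zd M)) = ap .. (insert q r) (zd M)` (`pu_prime`, `ap_dl`,
`ap_insert`). -/
theorem pu_prd (h2 : Module.finrank ℚ K = 2) (hσ : σ₂ ≠ sg1 K) {M N : Ideal (𝓞 K)} (hM : M ≠ ⊥)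
    (hM1 : M ≠ ⊤) (r : Finset (PrI K)) (hr : ∀ q ∈ r, ¬ q.asIdeal ∣ M) (hN : N = M * prd r)
    (h : N ≤ M) [Finite (RayClassGroup σ₂ N)] :
    pu h (zd σ₂ N) = ap (fun q => (fr σ₂ M q)⁻¹) r (zd σ₂ M) := by
  classical
  induction r using Finset.induction_on generalizing M N with
  | empty =>
    have hNM : N = M := by
      rw [hN]
      unfold prd
      rw [Finset.prod_empty, mul_one]
    subst hNM
    funext A
    rw [ap_empty, pu_eq_sum h (zd σ₂ N) A (S := {A}) (fun A' => by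
      rw [Finset.mem_singleton, pr_refl]), Finset.sum_singleton]
  | insert q r hq ih =>
    have h1 : N = M * q.asIdeal * prd r := by rw [hN, prd_insert hq, mul_assoc]
    have h2' : N ≤ M * q.asIdeal := by rw [h1]; exact Ideal.mul_le_left
    have h3 : M * q.asIdeal ≤ M := Ideal.mul_le_left
    have hqM : ¬ q.asIdeal ∣ M := hr q (Finset.mem_insert_self q r)
    have hM₁ : M * q.asIdeal ≠ ⊥ := mul_ne_bot' hM q.ne_bot
    have hM₁1 : M * q.asIdeal ≠ ⊤ := ne_top_of_le_ne_top hM1 h3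
    have hr₁ : ∀ p ∈ r, ¬ p.asIdeal ∣ M * q.asIdeal := by
      intro p hp hd
      rcases dvd_mul_prime hd with hd | hd
      · exact hr p (Finset.mem_insert_of_mem hp) hd
      · rw [hd] at hp
        exact hq hp
    have hfin : Finite (RayClassGroup σ₂ (M * q.asIdeal)) :=
      Finite.of_surjective _ (pr_prd_surjective (σ₂ := σ₂) hM₁ r hr₁ h1 h2')
    rw [← pu_pu h2' h3, ih hM₁ hM₁1 hr₁ h1 h2', pu_ap, pu_prime h2 hσ h3 rfl hM hM1 hqM,
      ap_insert _ hq, ← ap_dl]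
    have h4 : ∀ p ∈ r, pr σ₂ h3 (fr σ₂ (M * q.asIdeal) p)⁻¹ = (fr σ₂ M p)⁻¹ := by
      intro p hp
      rw [map_inv, pr_fr h3 (hr₁ p hp)]
    funext x
    unfold ap
    refine Finset.sum_congr rfl fun t ht => ?_
    have h5 : ∏ p ∈ t, (fun p => pr σ₂ h3 (fr σ₂ (M * q.asIdeal) p)⁻¹) p =
        ∏ p ∈ t, (fun p => (fr σ₂ M p)⁻¹) p :=
      Finset.prod_congr rfl fun p hp => h4 p (Finset.mem_powerset.1 ht hp)
    rw [h5]

end

end Pool.Agent.STp
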