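import Pool.Agent.Lib.MP_1ef7cf_nt_p.PM1
import Pool.Agent.Lib.MP_1ef7cf_nt_p.PM2
import Pool.Agent.Lib.MP_1ef7cf_nt_p.PN4


/-!
# Descent of the filtration to divisors of the modulus
-/

set_option linter.unusedSectionVars false

open NumberField IsDedekindDomain nonZeroDivisors IntermediateField

namespace Pool.Agent.STp

section

open Pool.Agent.ST Pool.Agent.STb Pool.Agent.STd Pool.Agent.STf

variable {K : Type*} [Field K] [NumberField K] [Algebra K ℝ] {σ₂ : K →+* ℝ} {n' n m : Ideal (𝓞 K)}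
  {H H' : IntermediateField K ℝ} {Art : RayClassGroup σ₂ n ≃* (H ≃ₐ[K] H)}
  {Art' : RayClassGroup σ₂ n' ≃* (H' ≃ₐ[K] H')}

/-- The ratios at the modulus `M * prd r` give the ratios of the product of the
differences at the modulus `M`.
Proof: `RatioP σ₂ (M * prd r)` gives `H'`, `Art'`, `hr'` and `zd ∈ NR Art'` (`ratioP_iff`);
`Cl(M prd r)` is finite (`finite_cl hr'`); `pu_mem` (with `prd_ne_bot`, `mul_ne_bot'`) and
`pu_prd`. -/
theorem ap_zd_mem (h2 : Module.finrank ℚ K = 2) (hσ : σ₂ ≠ sg1 K) (hn : n ≠ ⊥) (hn1 : n ≠ ⊤)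
    (hr : IsRayClassField σ₂ n H Art) (r : Finset (PrI K)) (hq : ∀ q ∈ r, ¬ q.asIdeal ∣ n)
    (hR : RatioP σ₂ (n * prd r)) : ap (fun q => (fr σ₂ n q)⁻¹) r (zd σ₂ n) ∈ NR Art := by
  obtain ⟨H', Art', hr', hz⟩ := ratioP_iff.1 hR
  have : Finite (RayClassGroup σ₂ (n * prd r)) := finite_cl hr'
  have hle : n * prd r ≤ n := Ideal.mul_le_left
  have h1 := pu_mem hle (mul_ne_bot' hn (prd_ne_bot r)) hr hr' hz
  rwa [pu_prd h2 hσ hn hn1 r hq rfl hle] at h1

end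

end Pool.Agent.STp
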