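import Pool.Agent.Lib.MP_1ef7cf_nt_p.PC2
import Pool.Agent.Lib.MP_1ef7cf_nt_p.PF1
import Pool.Agent.Lib.MP_1ef7cf_nt_p.PM5


/-!
# One exception implies many exceptions
-/

set_option linter.unusedSectionVars false

open NumberField IsDedekindDomain nonZeroDivisors IntermediateField Filter Topology

namespace Pool.Agent.STp

section

open Pool.Agent.ST Pool.Agent.STb Pool.Agent.STd Pool.Agent.STf

variable {K : Type*} [Field K] [NumberField K] [Algebra K ℝ] {σ₂ : K →+* ℝ} {n m M : Ideal (𝓞 K)}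

/-- Proof: `count` (with `s q = dl (fr σ₂ M q)⁻¹`, `ok z = (z ∉ NR Art)`,
`A r z = ap (fun q => (fr σ₂ M q)⁻¹) r z`, `E = ∅`; `ap_empty`; `ap_insert` with `ap_dl`) gives the lower
bound for the sum over the `k`-subsets `r` of `Q` with `ap .. r z ∉ NR Art`; for these `r` we have
`ap .. r (zd σ₂ M) ∉ NR Art` (`ap_mem_of_Sp`, `trInv_NR`), so `¬ RatioP σ₂ (M * prd r)` (`ap_zd_mem`).
Conclude with `many_of_sets` (and monotonicity of `Many` in `X`). -/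
theorem many_of_rk (h2 : Module.finrank ℚ K = 2) (hσ : σ₂ ≠ sg1 K) (hM : M ≠ ⊥) (hM1 : M ≠ ⊤)
    (hnM : n ∣ M) {H : IntermediateField K ℝ} {Art : RayClassGroup σ₂ M ≃* (H ≃ₐ[K] H)}
    (hr : IsRayClassField σ₂ M H Art) {s : ℝ} {Q : Finset (PrI K)} {η β : ℝ} (hη : 0 ≤ η)
    (hQ : ∀ q ∈ Q, ¬ q.asIdeal ∣ M ∧ px s q ≤ η) {z : RayClassGroup σ₂ M → ℝ}
    (hz : z ∈ Sp (zd σ₂ M)) {k : ℕ}
    (hrk : Rk (fun q : PrI K => dl (fr σ₂ M q)⁻¹) (fun z => z ∉ NR Art) (px s) Q β k z)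
    (hβ : (k : ℝ) * η ≤ β) :
    Many σ₂ n s ((Ideal.absNorm M : ℝ) ^ (-s) * ((β - k * η) ^ k / (k.factorial : ℝ))) := by
  classical
  have hcount := count (fun q : PrI K => (dl (fr σ₂ M q)⁻¹ : (RayClassGroup σ₂ M → ℝ) → _))
    (fun z => z ∉ NR Art) (fun r z => ap (fun q => (fr σ₂ M q)⁻¹) r z)
    (fun z => ap_empty _ z) (fun q r z hq => by
      rw [ap_insert _ hq, ap_dl]) (w := px s) (Q := Q) (β := β) (η := η)
    (fun q _ => (px_pos s q).le) (fun q hq => (hQ q hq).2) hη k ∅ z hrk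
    (by rw [Finset.card_empty, Nat.cast_zero, zero_add]; exact hβ)
  rw [Finset.card_empty, Nat.cast_zero, zero_add] at hcount
  refine (many_of_sets (σ₂ := σ₂) hM hnM s _ ?_).mono (mul_le_mul_of_nonneg_left hcount
    (Real.rpow_nonneg (Nat.cast_nonneg _) _))
  intro r hr' hR
  simp only [Finset.mem_filter] at hr'
  obtain ⟨hr1, hok⟩ := hr'
  obtain ⟨hrQ, -⟩ := Finset.mem_powersetCard.1 hr1
  apply hok
  have h5 : ∀ q ∈ r, ¬ q.asIdeal ∣ M := fun q hq => (hQ q (Finset.mem_sdiff.1 (hrQ hq)).1).1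
  exact ap_mem_of_Sp (trInv_NR Art) _ r hz (ap_zd_mem h2 hσ hM hM1 hr r h5 hR)

end

end Pool.Agent.STp
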