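import Pool.Agent.Lib.MP_1ef7cf_nt_p.PN2


/-!
# Descent of the filtration to divisors of the modulus
-/

set_option linter.unusedSectionVars false

open NumberField IsDedekindDomain nonZeroDivisors IntermediateField

namespace Pool.Agent.STp

section

open Pool.Agent.ST Pool.Agent.STb Pool.Agent.STd Pool.Agent.STf

variable {K : Type*} [Field K] [NumberField K] [Algebra K ℝ] {σ₂ : K →+* ℝ} {n' n m : Ideal (𝓞 K)}
  {H H' : IntermediateField K ℝ} {Art : RayClassGroup σ₂ n ≃* (H ≃ₐ[K] H)}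
  {Art' : RayClassGroup σ₂ n' ≃* (H' ≃ₐ[K] H')}

/-- Existence of the ray class field of modulus `M` from those of modulus `M * prd r` and
`M * prd r'`, for disjoint `r` and `r'`.
Proof: exactly as `exists_rcf` in `MP_1ef7cf_nt/RCF3.lean`, with `n₀ = M * prd r`, `n₁ = M * prd r'`:
`exists_down` (with `pr_prd_surjective`) gives `F₀`, `F₁`, equal by `IsRCF.le`, with equal Artin maps
by `IsRCF.res_art`. A prime `v ∤ M` which divides `M * prd r` is in `r` (`dvd_prd`), so it is not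
in `r'` and does not divide `M * prd r'`; then use the Frobenius property of `r₁`; otherwise that of
`r₀`. -/
theorem exists_rcf_prd (hm : m ≠ ⊥) {r r' : Finset (PrI K)} (hd : Disjoint r r')
    (hr : ∀ q ∈ r, ¬ q.asIdeal ∣ m) (hr' : ∀ q ∈ r', ¬ q.asIdeal ∣ m)
    (h : HasRCF σ₂ (m * prd r)) (h' : HasRCF σ₂ (m * prd r')) : HasRCF σ₂ m := by
  obtain ⟨H₀, Art₀, h₀⟩ := h
  obtain ⟨H₁, Art₁, h₁⟩ := h'
  have hle₀ : m * prd r ≤ m := Ideal.mul_le_left
  have hle₁ : m * prd r' ≤ m := Ideal.mul_le_left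
  have hne₀ : m * prd r ≠ ⊥ := mul_ne_bot' hm (prd_ne_bot r)
  have hne₁ : m * prd r' ≠ ⊥ := mul_ne_bot' hm (prd_ne_bot r')
  obtain ⟨F₀, A₀, r₀, -⟩ := exists_down hle₀ (pr_prd_surjective hm r hr rfl hle₀) h₀.isRCF
  obtain ⟨F₁, A₁, r₁, -⟩ := exists_down hle₁ (pr_prd_surjective hm r' hr' rfl hle₁) h₁.isRCF
  have hfin₀ : ((∅ : Set (HeightOneSpectrum (𝓞 K))) ∪ {v | v.asIdeal ∣ m * prd r}).Finite :=
    Set.finite_empty.union (finite_dvd hne₀)
  have hfin₁ : ((∅ : Set (HeightOneSpectrum (𝓞 K))) ∪ {v | v.asIdeal ∣ m * prd r'}).Finite :=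
    Set.finite_empty.union (finite_dvd hne₁)
  have heq : F₀ = F₁ :=
    le_antisymm (IsRCF.le le_rfl hm hfin₁ hfin₀ r₁ r₀) (IsRCF.le le_rfl hm hfin₀ hfin₁ r₀ r₁)
  subst heq
  have := r₀.galois
  have hArt : ∀ A, A₁ A = A₀ A := by
    intro A
    have h3 := IsRCF.res_art (σ₂ := σ₂) le_rfl hm hfin₁ hfin₀ r₁ r₀ le_rfl A
    rw [res_self, pr_refl] at h3
    exact h3
  refine ⟨F₀, A₀, r₀.finite, r₀.galois, ?_⟩
  intro v J hJ P hP hPv
  have hvn : ¬ v.asIdeal ∣ m := by
    have h3 := coprime_of_mem_primeTo hJ J.2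
    exact coprime_prime_iff.1 h3
  by_cases hv : v ∈ r
  · have h4 := r₁.frob v J (by
      rintro (hb | hb)
      · exact hb
      · rcases v.prime.dvd_or_dvd (show v.asIdeal ∣ m * prd r' from hb) with hb | hb
        · exact hvn hb
        · exact Finset.disjoint_left.1 hd hv (dvd_prd hb)) hJ P hPv
    rw [hArt] at h4
    exact h4
  · exact r₀.frob v J (by
      rintro (hb | hb)
      · exact hb
      · rcases v.prime.dvd_or_dvd (show v.asIdeal ∣ m * prd r from hb) with hb | hb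
        · exact hvn hb
        · exact hv (dvd_prd hb)) hJ P hPv

end

end Pool.Agent.STp
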