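import Pool.Agent.Lib.MP_1ef7cf_nt_p.PC2
import Pool.Agent.Lib.MP_1ef7cf_nt_p.PF1
import Pool.Agent.Lib.MP_1ef7cf_nt_p.PM6


/-!
# One exception implies many exceptions
-/

set_option linter.unusedSectionVars false

open NumberField IsDedekindDomain nonZeroDivisors IntermediateField Filter Topology

namespace Pool.Agent.STp

section

open Pool.Agent.ST Pool.Agent.STb Pool.Agent.STd Pool.Agent.STf

variable {K : Type*} [Field K] [NumberField K] [Algebra K ℝ] {σ₂ : K →+* ℝ} {n m M : Ideal (𝓞 K)}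

open Classical in
/-- No ray class field of modulus `M`.
Proof: If there is a finite set `r₀` of primes `∤ M` with `RatioP σ₂ (M * prd r₀)` take such an `r₀`
and `c = r₀.card`; otherwise `r₀ = ∅`, `c = 0`. For a finite set `r` of primes `∤ M` disjoint from `r₀` the
assertion `RatioP σ₂ (M * prd r)` fails: otherwise `HasRCF σ₂ M` by `exists_rcf_prd` (first case; `RatioP`
gives `HasRCF`), contradiction; in the second case trivially. Now `count` with `V = Unit`,
`s q z = z`, `ok z = True`, `A r z = z`, `E = r₀`: the rank condition of rank `k` holds for all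
`k` (induction, all `q` are in the filter set, `β ≤ ∑ q ∈ Q, px s q`). So the sum over the `k`-subsets
of `Q \ r₀` is at least `(β - (c + k) η) ^ k / k!`; conclude with `many_of_sets`. -/
theorem many_of_no_rcf (hM : M ≠ ⊥) (hnM : n ∣ M) (hno : ¬ HasRCF σ₂ M) :
    ∃ c : ℕ, ∀ (s : ℝ) (Q : Finset (PrI K)) (η β : ℝ), 0 ≤ η →
      (∀ q ∈ Q, ¬ q.asIdeal ∣ M ∧ px s q ≤ η) → β ≤ ∑ q ∈ Q, px s q →
      ∀ k : ℕ, ((c : ℝ) + k) * η ≤ β →
      Many σ₂ n s ((Ideal.absNorm M : ℝ) ^ (-s) *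
        ((β - ((c : ℝ) + k) * η) ^ k / (k.factorial : ℝ))) := by
  obtain ⟨r₀, hr₀⟩ : ∃ r₀ : Finset (PrI K), ∀ r : Finset (PrI K), (∀ q ∈ r, ¬ q.asIdeal ∣ M) →
      Disjoint r r₀ → ¬ RatioP σ₂ (M * prd r) := by
    by_cases h : ∃ r₀ : Finset (PrI K), (∀ q ∈ r₀, ¬ q.asIdeal ∣ M) ∧ RatioP σ₂ (M * prd r₀)
    · obtain ⟨r₀, h1, h2⟩ := h
      refine ⟨r₀, fun r hr hd hR => hno ?_⟩
      obtain ⟨H₁, A₁, hr₁, -⟩ := hR
      obtain ⟨H₂, A₂, hr₂, -⟩ := h2
      exact exists_rcf_prd hM hd hr h1 ⟨H₁, A₁, hr₁⟩ ⟨H₂, A₂, hr₂⟩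
    · push Not at h
      exact ⟨∅, fun r hr _ => h r hr⟩
  refine ⟨r₀.card, fun s Q η β hη hQ hβ k hk => ?_⟩
  have hrk : ∀ k : ℕ, Rk (fun (_ : PrI K) (z : Unit) => z) (fun _ => True) (px s) Q β k () := by
    intro k
    induction k with
    | zero => trivial
    | succ k ih =>
      change β ≤ _
      rw [Finset.filter_true_of_mem (fun q _ => ih)]
      exact hβ
  have hcount := count (fun (_ : PrI K) (z : Unit) => z) (fun _ => True) (fun _ z => z)
    (fun _ => rfl) (fun _ _ _ _ => rfl) (w := px s) (Q := Q) (β := β) (η := η)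
    (fun q _ => (px_pos s q).le) (fun q hq => (hQ q hq).2) hη k r₀ () (hrk k) hk
  refine (many_of_sets (σ₂ := σ₂) hM hnM s _ ?_).mono (mul_le_mul_of_nonneg_left hcount
    (Real.rpow_nonneg (Nat.cast_nonneg _) _))
  intro r hr' hR
  simp only [Finset.mem_filter] at hr'
  have hr1 := hr'.1
  obtain ⟨hrQ, -⟩ := Finset.mem_powersetCard.1 hr1
  refine hr₀ r (fun q hq => (hQ q (Finset.mem_sdiff.1 (hrQ hq)).1).1) ?_ hR
  rw [Finset.disjoint_left]
  exact fun q hq => (Finset.mem_sdiff.1 (hrQ hq)).2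

end

end Pool.Agent.STp
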