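import Pool.Agent.Lib.MP_1ef7cf_nt_p.PX1


/-!
# The final estimates
-/

open Filter Topology

namespace Pool.Agent.STp

section



/-- The main estimate, in terms of `L = log (1 / (s - 1))`.
Let `θ < 1 / 8`. Choose `η > 0` small: with `κ = 8 * (1 / 2 - η / 8 - η)` (`κ → 4` as `η → 0`) we
want `(log κ + 1 - log 4) / 8 > θ`; possible as `(log 4 + 1 - log 4) / 8 = 1 / 8 > θ`
(continuity of `log` at `4`). Let `k = ⌊L / 8⌋₊`. Then `k ≤ L / 8 < k + 1`, and for large `L`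
`y := L / 2 - C - (c + k) η ≥ L / 2 - C - c η - L η / 8 ≥ (1 / 2 - η / 8 - η) L = κ L / 8 ≥ κ k ≥ 0`.
So `y ^ k / k! ≥ (κ k) ^ k / (e k (k / e) ^ k) = (κ e) ^ k / (e k)` for `k ≥ 1` (`factorial_le`), and
`A * 4 ^ (-k) * y ^ k / k! ≥ A (κ e / 4) ^ k / (e k) = A exp (k (log κ + 1 - log 4)) / (e k)`, with
`k > L / 8 - 1` the exponent is `≥ (log κ + 1 - log 4) (L / 8 - 1) = θ' L - const`, `θ' > θ`, and
`k ≤ L`; so the quotient by `exp (θ L)` tends to infinity with `L` (`exp ((θ' - θ) L) / L → ∞`,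
`Real.tendsto_exp_div_pow_atTop` or `Real.add_one_le_exp`). -/
theorem main_estimate {θ : ℝ} (hθ : θ < 1 / 8) : ∃ η > 0, ∀ (A C : ℝ) (c : ℕ), 0 < A →
    ∀ᶠ L : ℝ in atTop, ∃ k : ℕ, (k : ℝ) ≤ L / 8 ∧ ((c : ℝ) + k) * η ≤ (1 / 2) * L - C ∧
      Real.exp (θ * L) ≤
        A * ((4 : ℝ) ^ k)⁻¹ * (((1 / 2) * L - C - ((c : ℝ) + k) * η) ^ k / (k.factorial : ℝ)) := by
  set δ : ℝ := 1 / 8 - θ with hδ
  have hδ0 : 0 < δ := by linarith
  set η : ℝ := (1 - Real.exp (-(8 * δ))) * (2 / 9) with hη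
  have he0 : 0 < Real.exp (-(8 * δ)) := Real.exp_pos _
  have he1 : Real.exp (-(8 * δ)) < 1 := by
    rw [Real.exp_lt_one_iff]
    linarith
  have hη0 : 0 < η := by
    rw [hη]
    exact mul_pos (by linarith) (by norm_num)
  refine ⟨η, hη0, ?_⟩
  intro A C c hA
  set κ : ℝ := 4 - 9 * η with hκ
  have hκ2 : 2 < κ := by
    rw [hκ, hη]
    linarith
  have hκ0 : 0 < κ := by linarith
  -- the rate
  set r : ℝ := κ * Real.exp 1 / 4 with hr
  have hr1 : 1 < r := by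
    have : 2 < Real.exp 1 := by
      have := Real.exp_one_gt_d9
      linarith
    rw [hr]
    nlinarith
  have hr0 : 0 < r := by linarith
  set ρ : ℝ := Real.log r with hρ
  have hρ0 : 0 < ρ := Real.log_pos hr1
  have hρθ : 8 * θ < ρ := by
    rw [hρ, Real.lt_log_iff_exp_lt hr0]
    have h1 : Real.exp (8 * θ) = Real.exp (-(8 * δ)) * Real.exp 1 := by
      rw [← Real.exp_add]
      congr 1
      rw [hδ]
      ring
    rw [h1, hr]
    have h2 : Real.exp (-(8 * δ)) < κ / 4 := by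
      rw [hκ, hη]
      linarith
    calc Real.exp (-(8 * δ)) * Real.exp 1 < κ / 4 * Real.exp 1 :=
          mul_lt_mul_of_pos_right h2 (Real.exp_pos 1)
      _ = κ * Real.exp 1 / 4 := by ring
  set ε : ℝ := ρ / 8 - θ with hε
  have hε0 : 0 < ε := by
    rw [hε]
    linarith
  have hE : 0 < A * Real.exp (-ρ) := mul_pos hA (Real.exp_pos _)
  filter_upwards [eventually_ge_atTop (8 : ℝ), eventually_ge_atTop ((C + c * η) / η),
    eventually_ge_atTop (Real.exp 1 / (4 * (A * Real.exp (-ρ)) * ε ^ 2))] with L h8 h2 h3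
  set k : ℕ := ⌊L / 8⌋₊ with hk
  have hL0 : 0 < L := by linarith
  have hk1 : 1 ≤ k := by
    rw [hk, Nat.one_le_floor_iff]
    linarith
  have hkL : (k : ℝ) ≤ L / 8 := Nat.floor_le (by positivity)
  have hLk : L / 8 < k + 1 := Nat.lt_floor_add_one _
  have hk0 : (0 : ℝ) < k := by exact_mod_cast hk1
  have h2' : C + c * η ≤ L * η := by rwa [div_le_iff₀ hη0] at h2
  have hy : κ * (k : ℝ) ≤ (1 / 2) * L - C - ((c : ℝ) + k) * η := by
    have h4 : κ * (k : ℝ) ≤ κ * (L / 8) := mul_le_mul_of_nonneg_left hkL hκ0.le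
    have h5 : (k : ℝ) * η ≤ L / 8 * η := mul_le_mul_of_nonneg_right hkL hη0.le
    have h6 : κ * (L / 8) = (1 / 2) * L - 9 * η * L / 8 := by
      rw [hκ]
      ring
    nlinarith
  have hy0 : 0 ≤ κ * (k : ℝ) := mul_nonneg hκ0.le hk0.le
  refine ⟨k, hkL, by linarith, ?_⟩
  have hf : (0 : ℝ) < (k.factorial : ℝ) := by exact_mod_cast Nat.factorial_pos _
  have hek : 0 < Real.exp 1 * (k : ℝ) := mul_pos (Real.exp_pos 1) hk0
  have hekk : 0 < ((k : ℝ) / Real.exp 1) ^ k := pow_pos (div_pos hk0 (Real.exp_pos 1)) _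
  -- the lower bound of the right side
  have hmain : A * (r ^ k / (Real.exp 1 * k)) ≤
      A * ((4 : ℝ) ^ k)⁻¹ * (((1 / 2) * L - C - ((c : ℝ) + k) * η) ^ k / (k.factorial : ℝ)) := by
    have h7 : (κ * (k : ℝ)) ^ k / (Real.exp 1 * k * (k / Real.exp 1) ^ k) ≤
        ((1 / 2) * L - C - ((c : ℝ) + k) * η) ^ k / (k.factorial : ℝ) :=
      div_le_div₀ (pow_nonneg (hy0.trans hy) _) (pow_le_pow_left₀ hy0 hy _) hf
        (factorial_le k hk1)
    have h8 : r ^ k / (Real.exp 1 * k) =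
        ((4 : ℝ) ^ k)⁻¹ * ((κ * (k : ℝ)) ^ k / (Real.exp 1 * k * (k / Real.exp 1) ^ k)) := by
      rw [hr, div_pow, mul_pow, mul_pow, div_pow]
      have : (Real.exp 1) ^ k ≠ 0 := pow_ne_zero _ (Real.exp_pos 1).ne'
      have : (k : ℝ) ^ k ≠ 0 := pow_ne_zero _ hk0.ne'
      field_simp
    rw [h8, mul_assoc A ((4 : ℝ) ^ k)⁻¹]
    have h40 : (0 : ℝ) ≤ ((4 : ℝ) ^ k)⁻¹ := by positivity
    exact mul_le_mul_of_nonneg_left (mul_le_mul_of_nonneg_left h7 h40) hA.le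
  refine le_trans ?_ hmain
  have hrk : Real.exp (-ρ) * Real.exp (ρ * (L / 8)) ≤ r ^ k := by
    rw [← Real.exp_log hr0, ← Real.exp_nat_mul, ← Real.exp_add, ← hρ]
    apply Real.exp_le_exp.mpr
    nlinarith
  have hquad : (ε * L) ^ 2 / 2 ≤ Real.exp (ε * L) := by
    have h9 := Real.quadratic_le_exp_of_nonneg (mul_nonneg hε0.le hL0.le)
    have h10 : 0 ≤ ε * L := mul_nonneg hε0.le hL0.le
    linarith
  have h11 : Real.exp 1 ≤ L * (4 * (A * Real.exp (-ρ)) * ε ^ 2) := by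
    rwa [div_le_iff₀ (by positivity)] at h3
  have h12 : Real.exp 1 * (L / 8) ≤ A * Real.exp (-ρ) * Real.exp (ε * L) := by
    calc Real.exp 1 * (L / 8) ≤ L * (4 * (A * Real.exp (-ρ)) * ε ^ 2) * (L / 8) :=
          mul_le_mul_of_nonneg_right h11 (by positivity)
      _ = A * Real.exp (-ρ) * ((ε * L) ^ 2 / 2) := by ring
      _ ≤ A * Real.exp (-ρ) * Real.exp (ε * L) := mul_le_mul_of_nonneg_left hquad hE.le
  rw [← mul_div_assoc, le_div_iff₀ hek]
  calc Real.exp (θ * L) * (Real.exp 1 * k)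
      ≤ Real.exp (θ * L) * (Real.exp 1 * (L / 8)) := by
        gcongr
    _ ≤ Real.exp (θ * L) * (A * Real.exp (-ρ) * Real.exp (ε * L)) :=
        mul_le_mul_of_nonneg_left h12 (Real.exp_pos _).le
    _ = A * (Real.exp (-ρ) * Real.exp (ρ * (L / 8))) := by
        have : Real.exp (ρ * (L / 8)) = Real.exp (θ * L) * Real.exp (ε * L) := by
          rw [← Real.exp_add]
          congr 1
          rw [hε]
          ring
        rw [this]
        ring
    _ ≤ A * r ^ k := mul_le_mul_of_nonneg_left hrk hA.le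

end

end Pool.Agent.STp
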