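import Mathlib


/-!
# The final estimates
-/

open Filter Topology

namespace Pool.Agent.STp

section



/-- The powers of the logarithm.
Proof: for fixed `k` and large `L`: `C + (c + k + 1) η ≤ L / 4`, so the right side is at least
`A (L / 4) ^ (k + 1) / (k + 1)! = (A / (4 ^ (k + 1) (k + 1)!)) L * L ^ k ≥ L ^ k` as soon as
`(A / ..) L ≥ 1`. -/
theorem log_estimate (A C η : ℝ) (c k : ℕ) (hA : 0 < A) :
    ∀ᶠ L : ℝ in atTop, ((c : ℝ) + (k + 1 : ℕ)) * η ≤ (1 / 2) * L - C ∧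
      L ^ k ≤ A * (((1 / 2) * L - C - ((c : ℝ) + (k + 1 : ℕ)) * η) ^ (k + 1) /
        ((k + 1).factorial : ℝ)) := by
  set D : ℝ := ((c : ℝ) + (k + 1 : ℕ)) * η with hD
  set B : ℝ := 4 ^ (k + 1) * ((k + 1).factorial : ℝ) with hB
  have hf : (0 : ℝ) < ((k + 1).factorial : ℝ) := by exact_mod_cast Nat.factorial_pos _
  have hB0 : 0 < B := by positivity
  filter_upwards [eventually_ge_atTop (4 * (C + D)), eventually_ge_atTop (B / A),
    eventually_ge_atTop 0] with L h1 h2 h3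
  have h4 : L / 4 ≤ (1 / 2) * L - C - D := by linarith
  refine ⟨by linarith, ?_⟩
  have h5 : (L / 4) ^ (k + 1) ≤ ((1 / 2) * L - C - D) ^ (k + 1) :=
    pow_le_pow_left₀ (by linarith) h4 _
  have h6 : B ≤ L * A := by rwa [div_le_iff₀ hA] at h2
  have h7 : L ^ k * B ≤ L ^ k * (L * A) := mul_le_mul_of_nonneg_left h6 (pow_nonneg h3 _)
  calc L ^ k = L ^ k * B / B := by field_simp
    _ ≤ L ^ k * (L * A) / B := by gcongr
    _ = A * ((L / 4) ^ (k + 1) / ((k + 1).factorial : ℝ)) := by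
        rw [hB, div_pow, pow_succ L k]
        field_simp
    _ ≤ A * (((1 / 2) * L - C - D) ^ (k + 1) / ((k + 1).factorial : ℝ)) := by
        gcongr

end

end Pool.Agent.STp
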