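import Pool.Agent.Lib.MP_1ef7cf_nt.Propagate
import Pool.Agent.Lib.MP_1ef7cf_nt_p.PF1
import Pool.Agent.Lib.MP_1ef7cf_nt_p.PX2
import Pool.Agent.Lib.MP_1ef7cf_nt_p.PX3


/-!
# One exception implies many exceptions
-/

set_option linter.unusedSectionVars false

open NumberField IsDedekindDomain nonZeroDivisors IntermediateField Filter Topology

namespace Pool.Agent.STp

section

open Pool.Agent.ST Pool.Agent.STb Pool.Agent.STd Pool.Agent.STf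

variable {K : Type*} [Field K] [NumberField K] [Algebra K ℝ] {σ₂ : K →+* ℝ} {n m M : Ideal (𝓞 K)}

omit [Algebra K ℝ] in
lemma PF4_one_le (hM : M ≠ ⊥) : (1 : ℝ) ≤ (Ideal.absNorm M : ℝ) := by
  have h1 : Ideal.absNorm M ≠ 0 := by rw [Ne, Ideal.absNorm_eq_zero_iff]; exact hM
  exact_mod_cast Nat.one_le_iff_ne_zero.2 h1

lemma PF4_exp {s : ℝ} (hs : 1 < s) (θ : ℝ) :
    Real.exp (θ * Real.log (1 / (s - 1))) = (s - 1) ^ (-θ) := by
  rw [Real.rpow_def_of_pos (by linarith), log_one_div_sub]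
  congr 1
  ring

omit [Algebra K ℝ] in
lemma PF4_rpow (hM : M ≠ ⊥) {s : ℝ} (hs : s < 2) :
    (Ideal.absNorm M : ℝ) ^ (-2 : ℝ) ≤ (Ideal.absNorm M : ℝ) ^ (-s) :=
  Real.rpow_le_rpow_of_exponent_le (PF4_one_le hM) (by linarith)

lemma PF4_lt_two : ∀ᶠ s in 𝓝[>] (1 : ℝ), s < 2 :=
  mem_nhdsWithin_of_mem_nhds (Iio_mem_nhds (by norm_num))

/-- The final form in the first two cases (fixed modulus `M`).
Hypothesis `h`: for every `η > 0` there are `C`, `c` such that for `s` near `1` and all `k` with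
`(c + k) η ≤ L / 2 - C`, `L = log (1 / (s - 1))`, there are many exceptions. Then for each `θ < 1 / 8` the sum
is at least `(s - 1) ^ (-θ)` for `s` near `1`.
Proof: take `η` from `main_estimate`, then `C`, `c` from `h`, and `A = (absNorm M) ^ (-2) / 1 > 0`.
For `s` near `1`, `s < 2`, `L` is large (`tendsto_log_inv`) and `main_estimate` gives `k`. Then
`(absNorm M) ^ (-s) ≥ (absNorm M) ^ (-2)` (`absNorm M ≥ 1`), `(4 ^ k)⁻¹ ≤ 1` and
`exp (θ L) = (s - 1) ^ (-θ)` (`Real.rpow_def_of_pos`, `log_one_div_sub`). -/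
theorem power_of_fixed (hM : M ≠ ⊥)
    (h : ∀ η > 0, ∃ (C : ℝ) (c : ℕ), ∀ᶠ s in 𝓝[>] (1 : ℝ), ∀ k : ℕ,
      ((c : ℝ) + k) * η ≤ (1 / 2) * Real.log (1 / (s - 1)) - C →
      Many σ₂ n s ((Ideal.absNorm M : ℝ) ^ (-s) *
        (((1 / 2) * Real.log (1 / (s - 1)) - C - ((c : ℝ) + k) * η) ^ k / (k.factorial : ℝ))))
    {θ : ℝ} (hθ : θ < 1 / 8) :
    ∀ᶠ s in 𝓝[>] (1 : ℝ), Many σ₂ n s ((s - 1) ^ (-θ)) := by
  obtain ⟨η, hη, hmain⟩ := main_estimate hθ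
  obtain ⟨C, c, hC⟩ := h η hη
  have ha := PF4_one_le hM
  have ha0 : (0 : ℝ) < (Ideal.absNorm M : ℝ) := by linarith
  have hev := tendsto_log_inv.eventually
    (hmain ((Ideal.absNorm M : ℝ) ^ (-2 : ℝ)) C c (Real.rpow_pos_of_pos ha0 _))
  filter_upwards [hC, hev, self_mem_nhdsWithin, PF4_lt_two] with s h1 h2 h3 h4
  have h3' : (1 : ℝ) < s := h3
  obtain ⟨k, hk1, hk2, hk3⟩ := h2
  refine (h1 k hk2).mono ?_
  rw [← PF4_exp h3']
  refine hk3.trans ?_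
  refine mul_le_mul_of_nonneg_right ?_
    (div_nonneg (pow_nonneg (sub_nonneg.2 hk2) _) (Nat.cast_nonneg _))
  have h5 : ((4 : ℝ) ^ k)⁻¹ ≤ 1 := inv_le_one_of_one_le₀ (one_le_pow₀ (by norm_num))
  calc (Ideal.absNorm M : ℝ) ^ (-2 : ℝ) * ((4 : ℝ) ^ k)⁻¹
      ≤ (Ideal.absNorm M : ℝ) ^ (-2 : ℝ) * 1 :=
        mul_le_mul_of_nonneg_left h5 (Real.rpow_nonneg ha0.le _)
    _ = (Ideal.absNorm M : ℝ) ^ (-2 : ℝ) := mul_one _
    _ ≤ _ := PF4_rpow hM h4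

/-- The same for the powers of the logarithm, with the bound for `k + 1` only.
Proof: as `power_of_fixed`, with `log_estimate`, `η = 1`. -/
theorem log_of_fixed (hM : M ≠ ⊥) (k : ℕ)
    (h : ∃ (C : ℝ) (c : ℕ), ∀ᶠ s in 𝓝[>] (1 : ℝ),
      ((c : ℝ) + (k + 1 : ℕ)) * 1 ≤ (1 / 2) * Real.log (1 / (s - 1)) - C →
      Many σ₂ n s ((Ideal.absNorm M : ℝ) ^ (-s) *
        (((1 / 2) * Real.log (1 / (s - 1)) - C - ((c : ℝ) + (k + 1 : ℕ)) * 1) ^ (k + 1) /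
          ((k + 1).factorial : ℝ)))) :
    ∀ᶠ s in 𝓝[>] (1 : ℝ), Many σ₂ n s (Real.log (1 / (s - 1)) ^ k) := by
  obtain ⟨C, c, hC⟩ := h
  have ha := PF4_one_le hM
  have ha0 : (0 : ℝ) < (Ideal.absNorm M : ℝ) := by linarith
  have hev := tendsto_log_inv.eventually
    (log_estimate ((Ideal.absNorm M : ℝ) ^ (-2 : ℝ)) C 1 c k (Real.rpow_pos_of_pos ha0 _))
  filter_upwards [hC, hev, self_mem_nhdsWithin, PF4_lt_two] with s h1 h2 h3 h4
  obtain ⟨h5, h6⟩ := h2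
  refine (h1 h5).mono (h6.trans ?_)
  exact mul_le_mul_of_nonneg_right (PF4_rpow hM h4)
    (div_nonneg (pow_nonneg (sub_nonneg.2 h5) _) (Nat.cast_nonneg _))

end

end Pool.Agent.STp
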