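import Pool.Agent.Lib.MP_1ef7cf_nt_p.PK3


/-!
# The kernel of `Cl(m 2 ^ J) → Cl(8 m)` consists of squares; density
-/

set_option linter.unusedSectionVars false

open NumberField IsDedekindDomain nonZeroDivisors IntermediateField Filter Topology

namespace Pool.Agent.STp

section

open Pool.Agent.ST Pool.Agent.STb Pool.Agent.STd Pool.Agent.STf

variable {K : Type*} [Field K] [NumberField K] {σ₂ : K →+* ℝ} {m : Ideal (𝓞 K)}

/-- All primes. Proof: `exists_finset_approx` with `X = Set.univ` (`primeSum` is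
`∑' q, px s q`) and `primeSum_asymp`; `log (1 / (s - 1)) ≥ 0` near `1` (`log_inv_nonneg`,
`log_one_div_sub`). -/
theorem dens_triv {M : Ideal (𝓞 K)} (hM : M ≠ ⊥) {η : ℝ} (hη : 0 < η) :
    ∃ C : ℝ, ∀ᶠ s in 𝓝[>] (1 : ℝ), ∃ Q : Finset (PrI K),
      (∀ q ∈ Q, ¬ q.asIdeal ∣ M ∧ px s q ≤ η) ∧
      (1 / 2) * Real.log (1 / (s - 1)) - C ≤ ∑ q ∈ Q, px s q := by
  obtain ⟨C, hC⟩ := primeSum_asymp K
  obtain ⟨D, hD⟩ := exists_finset_approx (K := K) hM hη
  refine ⟨C + D, ?_⟩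
  have hs2 : ∀ᶠ s in 𝓝[>] (1 : ℝ), s < 2 :=
    mem_nhdsWithin_of_mem_nhds (Iio_mem_nhds (by norm_num))
  filter_upwards [hC, hs2, self_mem_nhdsWithin] with s h1 h2 h3
  obtain ⟨Q, hQ, hX⟩ := hD s h3
  refine ⟨Q, hQ, ?_⟩
  have h4 := hX Set.univ
  rw [Set.indicator_univ] at h4
  simp only [Set.mem_univ, Finset.filter_true] at h4
  have h5 : ∑' q : PrI K, px s q = primeSum K s := rfl
  rw [h5] at h4
  have h6 := log_inv_nonneg (show (1 : ℝ) < s from h3) h2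
  rw [log_one_div_sub] at h6 ⊢
  have h7 := (abs_le.1 h1).1
  linarith

end

end Pool.Agent.STp
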