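import Pool.Agent.Lib.MP_1ef7cf_nt_p.PD


/-!
# Descent of the filtration to divisors of the modulus
-/

set_option linter.unusedSectionVars false

open NumberField IsDedekindDomain nonZeroDivisors IntermediateField

namespace Pool.Agent.STp

section

open Pool.Agent.ST Pool.Agent.STb Pool.Agent.STd Pool.Agent.STf

variable {K : Type*} [Field K] [NumberField K] [Algebra K ℝ] {σ₂ : K →+* ℝ} {n' n m : Ideal (𝓞 K)}
  {H H' : IntermediateField K ℝ} {Art : RayClassGroup σ₂ n ≃* (H ≃ₐ[K] H)}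
  {Art' : RayClassGroup σ₂ n' ≃* (H' ≃ₐ[K] H')}

/-- Proof: `ratio_trans hf (Art a)` and `Art.symm (σ * Art a) = Art.symm σ * a`. -/
theorem trInv_NR (Art : RayClassGroup σ₂ n ≃* (H ≃ₐ[K] H)) : TrInv (NR Art) := by
  intro a f hf
  have h1 := ratio_trans (σ₂ := σ₂) hf (Art a)
  have h2 : (fun σ => Real.exp (-2 * f (Art.symm (σ * Art a)))) =
      fun σ => Real.exp (-2 * f (Art.symm σ * a)) := by
    funext σ
    rw [map_mul, MulEquiv.symm_apply_apply]
  rw [h2] at h1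
  exact h1

/-- Proof: `Finite.of_equiv _ Art.symm.toEquiv` with `hr.finite`. -/
theorem finite_cl (hr : IsRayClassField σ₂ n H Art) : Finite (RayClassGroup σ₂ n) := by
  have := hr.finite
  exact Finite.of_equiv _ Art.symm.toEquiv

/-- Antisymmetry. Proof: `exists_isC` and `zd_mul_c`. -/
theorem zd_anti (h2 : Module.finrank ℚ K = 2) (hσ : σ₂ ≠ sg1 K) (hm : m ≠ ⊥) (hm1 : m ≠ ⊤) :
    ∃ c : RayClassGroup σ₂ m, ∀ A, zd σ₂ m (A * c) = -zd σ₂ m A := by
  obtain ⟨c, hc⟩ := exists_isC (σ₂ := σ₂) hm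
  refine ⟨c, fun A => ?_⟩
  have h1 := zd_mul_c h2 hσ hm hm1 hc A
  linarith

end

end Pool.Agent.STp
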