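import Pool.Agent.Lib.MP_1ef7cf_nt_p.PT1


/-!
# The rank condition from the filtration
-/

namespace Pool.Agent.STp

section

variable {G : Type*} [CommGroup G] {N : AddSubgroup (G → ℝ)}

open Classical in
/-- The rank condition for a function of exact order.
Proof: induction on `k` generalizing `z`. `k = 0`: `z ∉ Fl N 0 = N`.
`k + 1`: `z ∈ Fl N (k + 2)`, `z ∉ Fl N (k + 1)`. Let `T` be the subgroup of the `a` with
`dl a z ∈ Fl N k` (`exists_subgroup`). It contains the squares by `dl_sq_mem`, and `T ≠ ⊤` as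
`z ∉ Fl N (k + 1)` (`mem_Fl_succ`). For `q` with `φ q ∉ T` we have `dl (φ q) z ∉ Fl N k`,
`dl (φ q) z ∈ Fl N (k + 1)` (`mem_Fl_succ`) and it is antisymmetric (`dl_anti`), so the rank
condition of rank `k` holds for `dl (φ q) z` by induction. So the filter set of the definition of `Rk`
contains `Q.filter (fun q => φ q ∉ T)` and the sum is `≥ β` by `hβ`
(`Finset.sum_le_sum_of_subset_of_nonneg`, the weights are `≥ 0`). -/
theorem rk_of_exact (hN : TrInv N) {c : G} {ι : Type*} (φ : ι → G) {w : ι → ℝ} {Q : Finset ι}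
    (hw : ∀ q ∈ Q, 0 ≤ w q) {β : ℝ}
    (hβ : ∀ T : Subgroup G, T ≠ ⊤ → (∀ a, a * a ∈ T) →
      β ≤ ∑ q ∈ Q.filter (fun q => φ q ∉ T), w q) :
    ∀ (k : ℕ) (z : G → ℝ), (∀ x, z (x * c) = -z x) → z ∈ Fl N (k + 1) → z ∉ Fl N k →
      Rk (fun q => dl (φ q)) (fun z => z ∉ N) w Q β k z := by
  intro k
  induction k with
  | zero =>
    intro z _ _ hz
    exact hz
  | succ k ih =>
    intro z hc hz1 hz2
    obtain ⟨T, hT⟩ := exists_subgroup hN k z
    have hsq : ∀ a, a * a ∈ T := fun a => (hT _).2 (dl_sq_mem hc hz1 a)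
    have hTne : T ≠ ⊤ := by
      intro h
      apply hz2
      rw [mem_Fl_succ]
      intro a
      rw [← hT, h]
      exact Subgroup.mem_top _
    refine (hβ T hTne hsq).trans (Finset.sum_le_sum_of_subset_of_nonneg ?_ ?_)
    · intro q hq
      rw [Finset.mem_filter] at hq ⊢
      refine ⟨hq.1, ih _ (dl_anti hc (φ q)) (mem_Fl_succ.1 hz1 (φ q)) ?_⟩
      rw [← hT]
      exact hq.2
    · intro q hq _
      exact hw q (Finset.mem_filter.1 hq).1

end

end Pool.Agent.STp
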