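import Pool.Agent.Lib.MP_1ef7cf_nt_p.PA1


/-!
# The rank condition from the filtration
-/

namespace Pool.Agent.STp

section

variable {G : Type*} [CommGroup G] {N : AddSubgroup (G → ℝ)}

/-- The elements `a` with `dl a z ∈ Fl N k` form a subgroup.
Proof: `dl 1 z = 0`; `dl (a * b) z = dl a z + (fun x => dl b z (x * a))` (`dl_apply`, `ring`),
with `trInv_Fl`; `dl a⁻¹ z = -(fun x => dl a z (x * a⁻¹))`. -/
theorem exists_subgroup (hN : TrInv N) (k : ℕ) (z : G → ℝ) :
    ∃ T : Subgroup G, ∀ a, a ∈ T ↔ dl a z ∈ Fl N k := by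
  refine ⟨{ carrier := {a | dl a z ∈ Fl N k}, one_mem' := ?_, mul_mem' := ?_, inv_mem' := ?_ },
    fun a => Iff.rfl⟩
  · intro a b ha hb
    have h1 : dl (a * b) z = dl a z + fun x => dl b z (x * a) := by
      funext x
      simp only [Pi.add_apply, dl_apply, mul_assoc]
      ring
    change dl (a * b) z ∈ Fl N k
    rw [h1]
    exact (Fl N k).add_mem ha (trInv_Fl hN k a _ hb)
  · have h1 : dl (1 : G) z = 0 := by
      funext x
      simp [dl_apply]
    change dl (1 : G) z ∈ Fl N k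
    rw [h1]
    exact (Fl N k).zero_mem
  · intro a ha
    have h1 : dl a⁻¹ z = -fun x => dl a z (x * a⁻¹) := by
      funext x
      simp only [Pi.neg_apply, dl_apply, inv_mul_cancel_right]
      ring
    change dl a⁻¹ z ∈ Fl N k
    rw [h1]
    exact (Fl N k).neg_mem (trInv_Fl hN k a⁻¹ _ ha)

/-- Squares: if `z` is antisymmetric (`z (x * c) = -z x`) and `z ∈ Fl N (k + 2)` then
`dl (a * a) z ∈ Fl N k`.
Proof: `dl (a * a) z = dl c (dl a z) - dl a (dl a z)`: indeed `dl a z` is antisymmetric, so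
`dl c (dl a z) = 2 (dl a z)`, and `2 (z x - z (x a)) - ((z x - z (x a)) - (z (x a) - z (x a a))) =
z x - z (x a a)`. Both `dl c (dl a z)` and `dl a (dl a z)` are in `Fl N k` by `mem_Fl_succ`
(twice). -/
theorem dl_sq_mem {c : G} {k : ℕ} {z : G → ℝ} (hc : ∀ x, z (x * c) = -z x)
    (hz : z ∈ Fl N (k + 2)) (a : G) : dl (a * a) z ∈ Fl N k := by
  have h1 := mem_Fl_succ.1 (mem_Fl_succ.1 hz a)
  have h2 : dl (a * a) z = dl c (dl a z) - dl a (dl a z) := by
    funext x
    have h3 : z (x * c * a) = -z (x * a) := by rw [mul_right_comm, hc]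
    simp only [Pi.sub_apply, dl_apply]
    rw [h3, hc, mul_assoc]
    ring
  rw [h2]
  exact (Fl N k).sub_mem (h1 c) (h1 a)

/-- Proof: `dl a z (x * c) = z (x * c) - z (x * c * a)`, `mul_right_comm`. -/
theorem dl_anti {c : G} {z : G → ℝ} (hc : ∀ x, z (x * c) = -z x) (a x : G) :
    dl a z (x * c) = -dl a z x := by
  simp only [dl_apply]
  rw [mul_right_comm, hc, hc]
  ring

end

end Pool.Agent.STp
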