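import Pool.Agent.Lib.MP_1ef7cf_nt_p.PA1


/-!
# The rank condition from the filtration
-/

namespace Pool.Agent.STp

section

variable {G : Type*} [CommGroup G] {N : AddSubgroup (G → ℝ)}

/-- The ascending chain `Fl N k ⊓ Sp z` becomes stationary.
Proof: `Sp z` is generated by finitely many elements (`G` is finite), so it is a finitely generated
abelian group, i.e. a Noetherian `ℤ`-module (`AddSubgroup.toIntSubmodule`,
`Submodule.fg_iff_addSubgroup_fg` or `Module.Finite.span_of_finite`, `isNoetherian_of_fg_of_noetherian`).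
The chain `k ↦ (Fl N k).comap (Sp z).subtype` of submodules of `Sp z` is monotone (`Fl_mono`), so it
is stationary (`monotone_stabilizes_iff_noetherian`). -/
theorem stationary [Finite G] (hN : TrInv N) (z : G → ℝ) :
    ∃ k₁, ∀ k, ∀ y ∈ Sp z, y ∈ Fl N k → y ∈ Fl N k₁ := by
  let S : Submodule ℤ (G → ℝ) :=
    Submodule.span ℤ (Set.range fun (a : G) (x : G) => z (x * a))
  have hS : ∀ y, y ∈ Sp z → y ∈ S := by
    intro y hy
    have h1 : Sp z ≤ S.toAddSubgroup := by
      unfold Sp
      rw [AddSubgroup.closure_le]
      intro w hw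
      exact Submodule.subset_span hw
    exact h1 hy
  have hfin : Module.Finite ℤ S :=
    Module.Finite.span_of_finite ℤ (Set.finite_range _)
  have hnoeth : IsNoetherian ℤ S := isNoetherian_of_isNoetherianRing_of_finite ℤ S
  let f : ℕ →o Submodule ℤ S :=
    { toFun := fun k => (AddSubgroup.toIntSubmodule (Fl N k)).comap S.subtype
      monotone' := by
        intro i j hij y hy
        exact Fl_mono hN hij hy }
  obtain ⟨n, hn⟩ := monotone_stabilizes_iff_noetherian.2 hnoeth f
  refine ⟨n, fun k y hy hyk => ?_⟩
  have h1 : (⟨y, hS y hy⟩ : S) ∈ f (max n k) := Fl_mono hN (le_max_right n k) hyk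
  rw [← hn (max n k) (le_max_left n k)] at h1
  exact h1

end

end Pool.Agent.STp
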