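import Pool.Agent.Lib.MP_1ef7cf_nt_p.PA2
import Pool.Agent.Lib.MP_1ef7cf_nt_p.PT1
import Pool.Agent.Lib.MP_1ef7cf_nt_p.PT3


/-!
# The rank condition from the filtration
-/

namespace Pool.Agent.STp

section

variable {G : Type*} [CommGroup G] {N : AddSubgroup (G → ℝ)}

open Classical in
/-- The rank condition for a function of infinite order.
Proof: let `k₁` be as in `stationary`. We show by induction on `k` that for all `y ∈ Sp z` with
`y ∉ Fl N k₁` the rank condition of rank `k` holds; then take `y = z` (`self_mem_Sp`).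
`k = 0`: `y ∉ N = Fl N 0` as `Fl N 0 ≤ Fl N k₁` (`Fl_mono`).
`k + 1`: let `T` be the subgroup of the `a` with `dl a y ∈ Fl N k₁` (`exists_subgroup`). If `T = ⊤`
then `y ∈ Fl N (k₁ + 1)`, so `y ∈ Fl N k₁` by the choice of `k₁`, contradiction. For `q` with
`φ q ∉ T` the function `dl (φ q) y ∈ Sp z` (`dl_mem_Sp`) is not in `Fl N k₁`, so the rank condition
of rank `k` holds for it; conclude as in `rk_of_exact`. -/
theorem rk_of_inf [Finite G] (hN : TrInv N) {ι : Type*} (φ : ι → G) {w : ι → ℝ} {Q : Finset ι}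
    (hw : ∀ q ∈ Q, 0 ≤ w q) {β : ℝ}
    (hβ : ∀ T : Subgroup G, T ≠ ⊤ → β ≤ ∑ q ∈ Q.filter (fun q => φ q ∉ T), w q)
    {z : G → ℝ} (hz : ∀ k, z ∉ Fl N k) (k : ℕ) :
    Rk (fun q => dl (φ q)) (fun z => z ∉ N) w Q β k z := by
  obtain ⟨k₁, hk₁⟩ := stationary hN z
  have key : ∀ (k : ℕ) (y : G → ℝ), y ∈ Sp z → y ∉ Fl N k₁ →
      Rk (fun q => dl (φ q)) (fun z => z ∉ N) w Q β k y := by
    intro k
    induction k with
    | zero =>
      intro y _ hy h0
      exact hy (Fl_mono hN (Nat.zero_le k₁) (mem_Fl_zero.2 h0))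
    | succ k ih =>
      intro y hys hy
      obtain ⟨T, hT⟩ := exists_subgroup hN k₁ y
      have hTop : T ≠ ⊤ := by
        intro h
        apply hy
        apply hk₁ (k₁ + 1) y hys
        rw [mem_Fl_succ]
        intro a
        rw [← hT, h]
        exact Subgroup.mem_top a
      change β ≤ ∑ q ∈ Q.filter
        (fun q => Rk (fun q => dl (φ q)) (fun z => z ∉ N) w Q β k (dl (φ q) y)), w q
      refine (hβ T hTop).trans ?_
      apply Finset.sum_le_sum_of_subset_of_nonneg
      · intro q hq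
        rw [Finset.mem_filter] at hq ⊢
        refine ⟨hq.1, ih _ (dl_mem_Sp _ hys) ?_⟩
        rw [← hT]
        exact hq.2
      · intro q hq _
        exact hw q (Finset.mem_filter.1 hq).1
  exact key k z (self_mem_Sp z) (hz k₁)

end

end Pool.Agent.STp
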