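import Pool.Agent.Lib.MP_1ef7cf_nt_p.PA2
import Pool.Agent.Lib.MP_1ef7cf_nt_p.PT1


/-!
# The rank condition from the filtration
-/

namespace Pool.Agent.STp

section

variable {G : Type*} [CommGroup G] {N : AddSubgroup (G → ℝ)}

/-- A function of exact order `d` in `Sp z`.
Proof: let `e` be the least number with `z ∈ Fl N e` (`Nat.find`); `d < e` by `Fl_mono`, say
`e = e' + 1`, so `z ∈ Fl N (e' + 1)`, `z ∉ Fl N e'` and `d ≤ e'`. We show by induction on `i` with
`d + i = e'` that the claim holds for every `y ∈ Sp z`, antisymmetric, with `y ∈ Fl N (e' + 1)`,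
`y ∉ Fl N e'`: for `i = 0` take `y`; if `e' = e'' + 1` there is `a` with `dl a y ∉ Fl N e''`
(`mem_Fl_succ`), and `dl a y ∈ Fl N (e'' + 1)`, `dl a y ∈ Sp z` (`dl_mem_Sp`), antisymmetric
(`dl_anti`). -/
theorem exists_exact (hN : TrInv N) {c : G} {z : G → ℝ} (hc : ∀ x, z (x * c) = -z x) {d d' : ℕ}
    (h1 : z ∉ Fl N d) (h2 : z ∈ Fl N d') :
    ∃ y ∈ Sp z, (∀ x, y (x * c) = -y x) ∧ y ∈ Fl N (d + 1) ∧ y ∉ Fl N d := by
  classical
  have key : ∀ i : ℕ, ∀ y ∈ Sp z, (∀ x, y (x * c) = -y x) → y ∈ Fl N (d + i + 1) →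
      y ∉ Fl N (d + i) → ∃ y ∈ Sp z, (∀ x, y (x * c) = -y x) ∧ y ∈ Fl N (d + 1) ∧ y ∉ Fl N d := by
    intro i
    induction i with
    | zero =>
      intro y hy hya hy1 hy2
      exact ⟨y, hy, hya, hy1, hy2⟩
    | succ i ih =>
      intro y hy hya hy1 hy2
      have h3 : ∃ a, dl a y ∉ Fl N (d + i) := by
        by_contra hcon
        push Not at hcon
        exact hy2 (mem_Fl_succ.2 hcon)
      obtain ⟨a, ha⟩ := h3
      exact ih (dl a y) (dl_mem_Sp a hy) (dl_anti hya a) (mem_Fl_succ.1 hy1 a) ha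
  have hex : ∃ e, z ∈ Fl N e := ⟨d', h2⟩
  have he := Nat.find_spec hex
  have hlt : d < Nat.find hex := by
    by_contra hcon
    push Not at hcon
    exact h1 (Fl_mono hN hcon he)
  obtain ⟨i, hi⟩ := Nat.exists_eq_add_of_lt hlt
  refine key i z (self_mem_Sp z) hc (by rw [← hi]; exact he) ?_
  exact Nat.find_min hex (by omega)

end

end Pool.Agent.STp
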