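import Pool.Agent.Lib.MP_1ef7cf_nt_p.PF3
import Pool.Agent.Lib.MP_1ef7cf_nt_p.PF4
import Pool.Agent.Lib.MP_1ef7cf_nt_p.PK4
import Pool.Agent.Lib.MP_1ef7cf_nt_p.PM1
import Pool.Agent.Lib.MP_1ef7cf_nt_p.PT2
import Pool.Agent.Lib.MP_1ef7cf_nt_p.PT4
import Pool.Agent.Lib.MP_1ef7cf_nt_p.PT5


/-!
# One exception implies many exceptions
-/

set_option linter.unusedSectionVars false

open NumberField IsDedekindDomain nonZeroDivisors IntermediateField Filter Topology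

namespace Pool.Agent.STp

section

open Pool.Agent.ST Pool.Agent.STb Pool.Agent.STd Pool.Agent.STf

variable {K : Type*} [Field K] [NumberField K] [Algebra K ℝ] {σ₂ : K →+* ℝ} {n m M : Ideal (𝓞 K)}

/-- No ray class field: power growth.
Proof: `power_of_fixed` with `many_of_no_rcf` and `dens_triv` (`β = L / 2 - C`). -/
theorem power_of_no_rcf (hM : M ≠ ⊥) (hnM : n ∣ M) (hno : ¬ HasRCF σ₂ M) {θ : ℝ}
    (hθ : θ < 1 / 8) : ∀ᶠ s in 𝓝[>] (1 : ℝ), Many σ₂ n s ((s - 1) ^ (-θ)) := by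
  obtain ⟨c, hc⟩ := many_of_no_rcf (n := n) hM hnM hno
  refine power_of_fixed hM (fun η hη => ?_) hθ
  obtain ⟨C, hC⟩ := dens_triv hM hη
  refine ⟨C, c, ?_⟩
  filter_upwards [hC] with s h1 k hk
  obtain ⟨Q, hQ, hsum⟩ := h1
  exact hc s Q η _ hη.le hQ hsum k hk

/-- The rank condition at a fixed modulus for a function of order `≥ k`.
Proof: `G = RayClassGroup σ₂ M` is finite (`finite_cl`). Let `z₀ = zd σ₂ M`, antisymmetric
(`zd_anti`). `hβ` for `φ q = (fr σ₂ M q)⁻¹`: `φ q ∉ T ↔ fr σ₂ M q ∉ T` (`inv_mem_iff`). If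
`z₀ ∉ Fl (NR Art) i` for all `i`: `rk_of_inf` with `z = z₀` (`self_mem_Sp`). Otherwise
`exists_exact` gives `z ∈ Sp z₀` of exact order `k` and `rk_of_exact` the rank condition. The weights
`px s q` are positive (`px_pos`). -/
theorem rank_exists (h2 : Module.finrank ℚ K = 2) (hσ : σ₂ ≠ sg1 K) (hM : M ≠ ⊥) (hM1 : M ≠ ⊤)
    {H : IntermediateField K ℝ} {Art : RayClassGroup σ₂ M ≃* (H ≃ₐ[K] H)}
    (hr : IsRayClassField σ₂ M H Art) {s : ℝ} {Q : Finset (PrI K)} {β : ℝ}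
    (hβ : open Classical in ∀ T : Subgroup (RayClassGroup σ₂ M), T ≠ ⊤ →
      β ≤ ∑ q ∈ Q.filter (fun q => fr σ₂ M q ∉ T), px s q) {k : ℕ}
    (hk : zd σ₂ M ∉ Fl (NR Art) k) :
    ∃ z ∈ Sp (zd σ₂ M),
      Rk (fun q : PrI K => dl (fr σ₂ M q)⁻¹) (fun z => z ∉ NR Art) (px s) Q β k z := by
  have : Finite (RayClassGroup σ₂ M) := finite_cl hr
  by_cases hinf : ∀ i, zd σ₂ M ∉ Fl (NR Art) i
  · refine ⟨zd σ₂ M, self_mem_Sp _, rk_of_inf (trInv_NR Art) (fun q : PrI K => (fr σ₂ M q)⁻¹)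
      (fun q _ => (px_pos s q).le) (fun T hT => ?_) hinf k⟩
    exact (hβ T hT).trans (le_of_eq (Finset.sum_congr (Finset.ext fun q => by
      simp only [Finset.mem_filter, inv_mem_iff]) fun _ _ => rfl))
  · push Not at hinf
    obtain ⟨k', hk'⟩ := hinf
    obtain ⟨c, hc⟩ := zd_anti (σ₂ := σ₂) h2 hσ hM hM1
    obtain ⟨z, hz, hza, hz1, hz2⟩ := exists_exact (trInv_NR Art) hc hk hk'
    refine ⟨z, hz, rk_of_exact (trInv_NR Art) (fun q : PrI K => (fr σ₂ M q)⁻¹)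
      (fun q _ => (px_pos s q).le) (fun T hT _ => ?_) k z hza hz1 hz2⟩
    exact (hβ T hT).trans (le_of_eq (Finset.sum_congr (Finset.ext fun q => by
      simp only [Finset.mem_filter, inv_mem_iff]) fun _ _ => rfl))

/-- The rank condition from the subgroups containing the squares only, for a function of
finite order `≥ k`.
Proof: as in `rank_exists`, only the second case (`exists_exact`, `rk_of_exact`). -/
theorem rank_exists' (h2 : Module.finrank ℚ K = 2) (hσ : σ₂ ≠ sg1 K) (hM : M ≠ ⊥) (hM1 : M ≠ ⊤)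
    {H : IntermediateField K ℝ} {Art : RayClassGroup σ₂ M ≃* (H ≃ₐ[K] H)}
    {s : ℝ} {Q : Finset (PrI K)} {β : ℝ}
    (hβ : open Classical in ∀ T : Subgroup (RayClassGroup σ₂ M), T ≠ ⊤ →
      (∀ a : RayClassGroup σ₂ M, a * a ∈ T) →
      β ≤ ∑ q ∈ Q.filter (fun q => fr σ₂ M q ∉ T), px s q) {k k' : ℕ}
    (hk : zd σ₂ M ∉ Fl (NR Art) k) (hk' : zd σ₂ M ∈ Fl (NR Art) k') :
    ∃ z ∈ Sp (zd σ₂ M),
      Rk (fun q : PrI K => dl (fr σ₂ M q)⁻¹) (fun z => z ∉ NR Art) (px s) Q β k z := by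
  obtain ⟨c, hc⟩ := zd_anti (σ₂ := σ₂) h2 hσ hM hM1
  obtain ⟨z, hz, hza, hz1, hz2⟩ := exists_exact (trInv_NR Art) hc hk hk'
  refine ⟨z, hz, rk_of_exact (trInv_NR Art) (fun q : PrI K => (fr σ₂ M q)⁻¹)
    (fun q _ => (px_pos s q).le) (fun T hT hsq => ?_) k z hza hz1 hz2⟩
  exact (hβ T hT hsq).trans (le_of_eq (Finset.sum_congr (Finset.ext fun q => by
    simp only [Finset.mem_filter, inv_mem_iff]) fun _ _ => rfl))

end

end Pool.Agent.STp
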