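import Pool.Agent.Lib.MP_1ef7cf_nt_p.PK3


/-!
# The kernel of `Cl(m 2 ^ J) → Cl(8 m)` consists of squares; density
-/

set_option linter.unusedSectionVars false

open NumberField IsDedekindDomain nonZeroDivisors IntermediateField Filter Topology

namespace Pool.Agent.STp

section

open Pool.Agent.ST Pool.Agent.STb Pool.Agent.STd Pool.Agent.STf

variable {K : Type*} [Field K] [NumberField K] [Algebra K ℝ] {σ₂ : K →+* ℝ} {m M : Ideal (𝓞 K)}

open Classical in
/-- The primes outside of a proper subgroup, uniformly in the subgroup.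
Proof: `Cl(M)` is finite (`Finite.of_equiv` from the Galois group), so it has only finitely many
subgroups `T`. For each `T ≠ ⊤` let `C_T` be the constant of `sub_upper hr hT`, `C_K` that of
`primeSum_asymp`, `D` that of `exists_finset_approx`. Let `s` be near `1` (`eventually_all` over the
finite type of subgroups) and let `Q` be the finite set of `exists_finset_approx`. For `T ≠ ⊤` let
`X = {q | ¬ q ∣ M ∧ fr σ₂ M q ∉ T}`; then `∑ q ∈ Q.filter (fr ∉ T), px s q ≥ ∑' q, X.indicator (px s) q - D`,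
and `∑' X = primeSum - ∑' {q | ∃ h, cls .. ∈ T} - ∑' {q | q ∣ M} ≥ (L - C_K) - (L / 2 + C_T) -
D'` (as in `densGe_compl`, `DensLe.of_finite`; `fr_eq`). Take `C` the maximum (or the sum of the
absolute values) of the constants. -/
theorem dens_all (hM : M ≠ ⊥) (hr : HasRCF σ₂ M) {η : ℝ} (hη : 0 < η) :
    ∃ C : ℝ, ∀ᶠ s in 𝓝[>] (1 : ℝ), ∃ Q : Finset (PrI K),
      (∀ q ∈ Q, ¬ q.asIdeal ∣ M ∧ px s q ≤ η) ∧
      ∀ T : Subgroup (RayClassGroup σ₂ M), T ≠ ⊤ →
        (1 / 2) * Real.log (1 / (s - 1)) - C ≤ ∑ q ∈ Q.filter (fun q => fr σ₂ M q ∉ T), px s q := by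
  obtain ⟨H, Art, hr⟩ := hr
  have hfin : Finite (RayClassGroup σ₂ M) := by
    have := hr.finite
    exact Finite.of_equiv _ Art.symm.toEquiv
  obtain ⟨D, hD⟩ := exists_finset_approx hM hη
  obtain ⟨CK, hCK⟩ := primeSum_asymp K
  obtain ⟨D', hD'⟩ := (DensLe.of_finite (finite_dvd hM)).tsum_le
  have hsub : ∀ T : Subgroup (RayClassGroup σ₂ M), ∃ C : ℝ, ∀ᶠ s in 𝓝[>] (1 : ℝ), T ≠ ⊤ →
      ∑' q, {q : PrI K | ∃ h : ¬ q.asIdeal ∣ M, cls σ₂ M (prJ M q h) ∈ T}.indicator (px s) q ≤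
        (1 / 2) * Real.log (1 / (s - 1)) + C := by
    intro T
    by_cases hT : T = ⊤
    · exact ⟨0, Filter.Eventually.of_forall fun s h => absurd hT h⟩
    · obtain ⟨C, hC⟩ := sub_upper hr hT
      exact ⟨C, hC.mono fun s hs _ => hs⟩
  choose CT hCT using hsub
  have hfinS : Finite (Subgroup (RayClassGroup σ₂ M)) := inferInstance
  obtain ⟨B, hB⟩ : ∃ B, ∀ T, CT T ≤ B := by
    obtain ⟨B, hB⟩ := (Set.finite_range CT).bddAbove
    exact ⟨B, fun T => hB ⟨T, rfl⟩⟩
  refine ⟨D + CK + D' + B, ?_⟩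
  have hall := Filter.eventually_all.2 hCT
  have hs2 : ∀ᶠ s in 𝓝[>] (1 : ℝ), s < 2 :=
    mem_nhdsWithin_of_mem_nhds (Iio_mem_nhds (by norm_num))
  filter_upwards [hall, hCK, self_mem_nhdsWithin, hs2] with s h1 h2 h3 h4
  have hs1 : (1 : ℝ) < s := h3
  obtain ⟨Q, hQ, hX⟩ := hD s hs1
  refine ⟨Q, hQ, fun T hT => ?_⟩
  set X : Set (PrI K) := {q | ¬ q.asIdeal ∣ M ∧ fr σ₂ M q ∉ T} with hXdef
  set G : Set (PrI K) := {q : PrI K | ∃ h : ¬ q.asIdeal ∣ M, cls σ₂ M (prJ M q h) ∈ T} with hGdef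
  set W : Set (PrI K) := {v : PrI K | v.asIdeal ∣ M} with hWdef
  have h5 := hX X
  have h6 : ∀ q, q ∈ Q ∧ q ∈ X ↔ q ∈ Q ∧ fr σ₂ M q ∉ T := fun q =>
    and_congr_right fun hq => ⟨fun h => h.2, fun h => ⟨(hQ q hq).1, h⟩⟩
  replace h5 : ∑' q, X.indicator (px s) q ≤
      ∑ q ∈ Q.filter (fun q => fr σ₂ M q ∉ T), px s q + D :=
    h5.trans (add_le_add_left (le_of_eq (Finset.sum_congr (Finset.ext fun q => by
      simp only [Finset.mem_filter]
      exact h6 q) fun _ _ => rfl)) D)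
  have h7 : primeSum K s ≤ ∑' q, X.indicator (px s) q + ∑' q, G.indicator (px s) q +
      ∑' q, W.indicator (px s) q := by
    have s1 : Summable (X.indicator (px s) : PrI K → ℝ) := (summable_px hs1).indicator _
    have s2 : Summable (G.indicator (px s) : PrI K → ℝ) := (summable_px hs1).indicator _
    have s3 : Summable (W.indicator (px s) : PrI K → ℝ) := (summable_px hs1).indicator _
    rw [← s1.tsum_add s2, ← (s1.add s2).tsum_add s3]
    apply (summable_px hs1).tsum_le_tsum _ ((s1.add s2).add s3)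
    intro q
    have p1 : 0 ≤ X.indicator (px s) q := Set.indicator_nonneg (fun x _ => (px_pos s x).le) q
    have p2 : 0 ≤ G.indicator (px s) q := Set.indicator_nonneg (fun x _ => (px_pos s x).le) q
    have p3 : 0 ≤ W.indicator (px s) q := Set.indicator_nonneg (fun x _ => (px_pos s x).le) q
    by_cases hq : q ∈ W
    · rw [Set.indicator_of_mem hq (f := px s)]; linarith
    · have hqM : ¬ q.asIdeal ∣ M := hq
      by_cases hq' : fr σ₂ M q ∈ T
      · have hq3 : q ∈ G := ⟨hqM, by rw [← fr_eq σ₂ hqM]; exact hq'⟩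
        rw [Set.indicator_of_mem hq3 (f := px s)]; linarith
      · have hq3 : q ∈ X := ⟨hqM, hq'⟩
        rw [Set.indicator_of_mem hq3 (f := px s)]; linarith
  have h8 := h1 T hT
  have h9 := hD' s hs1 h4
  rw [zero_mul, zero_add] at h9
  have h10 := hB T
  rw [abs_le] at h2
  rw [log_one_div_sub] at h8 ⊢
  linarith [h2.1]

end

end Pool.Agent.STp
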