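import Pool.Agent.Lib.MP_1ef7cf_nt_p.PF2
import Pool.Agent.Lib.MP_1ef7cf_nt_p.PF5
import Pool.Agent.Lib.MP_1ef7cf_nt_p.PK5


/-!
# One exception implies many exceptions
-/

set_option linter.unusedSectionVars false

open NumberField IsDedekindDomain nonZeroDivisors IntermediateField Filter Topology

namespace Pool.Agent.STp

section

open Pool.Agent.ST Pool.Agent.STb Pool.Agent.STd Pool.Agent.STf

variable {K : Type*} [Field K] [NumberField K] [Algebra K ℝ] {σ₂ : K →+* ℝ} {n m M : Ideal (𝓞 K)}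

/-- Infinite order at a modulus: power growth.
Proof: `power_of_fixed`: for `η > 0` take `C` from `dens_all`, `c = 0`; for `s` near `1` and `Q` from
`dens_all`, `rank_exists` with `β = L / 2 - C` and `many_of_rk`. -/
theorem power_of_inf (h2 : Module.finrank ℚ K = 2) (hσ : σ₂ ≠ sg1 K) (hM : M ≠ ⊥) (hM1 : M ≠ ⊤)
    (hnM : n ∣ M) {H : IntermediateField K ℝ} {Art : RayClassGroup σ₂ M ≃* (H ≃ₐ[K] H)}
    (hr : IsRayClassField σ₂ M H Art) (hz : ∀ k, zd σ₂ M ∉ Fl (NR Art) k) {θ : ℝ}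
    (hθ : θ < 1 / 8) : ∀ᶠ s in 𝓝[>] (1 : ℝ), Many σ₂ n s ((s - 1) ^ (-θ)) := by
  refine power_of_fixed hM (fun η hη => ?_) hθ
  obtain ⟨C, hC⟩ := dens_all hM ⟨H, Art, hr⟩ hη
  refine ⟨C, 0, ?_⟩
  filter_upwards [hC] with s h1 k hk
  rw [Nat.cast_zero, zero_add] at hk ⊢
  obtain ⟨Q, hQ, hsum⟩ := h1
  obtain ⟨z, hzs, hrk⟩ := rank_exists h2 hσ hM hM1 hr hsum (hz k)
  exact many_of_rk h2 hσ hM hM1 hnM hr hη.le hQ hzs hrk hk

/-- Order `≥ k + 1` at a modulus: the `k`-th power of the logarithm.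
Proof: `log_of_fixed` with `dens_all` (`η = 1`), `rank_exists` and `many_of_rk`, `c = 0`. -/
theorem log_of_order (h2 : Module.finrank ℚ K = 2) (hσ : σ₂ ≠ sg1 K) (hM : M ≠ ⊥) (hM1 : M ≠ ⊤)
    (hnM : n ∣ M) {H : IntermediateField K ℝ} {Art : RayClassGroup σ₂ M ≃* (H ≃ₐ[K] H)}
    (hr : IsRayClassField σ₂ M H Art) {k : ℕ} (hz : zd σ₂ M ∉ Fl (NR Art) (k + 1)) :
    ∀ᶠ s in 𝓝[>] (1 : ℝ), Many σ₂ n s (Real.log (1 / (s - 1)) ^ k) := by
  refine log_of_fixed hM k ?_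
  obtain ⟨C, hC⟩ := dens_all hM ⟨H, Art, hr⟩ one_pos
  refine ⟨C, 0, ?_⟩
  filter_upwards [hC] with s h1 hk
  rw [Nat.cast_zero, zero_add] at hk ⊢
  obtain ⟨Q, hQ, hsum⟩ := h1
  obtain ⟨z, hzs, hrk⟩ := rank_exists h2 hσ hM hM1 hr hsum hz
  exact many_of_rk h2 hσ hM hM1 hnM hr zero_le_one hQ hzs hrk hk

end

end Pool.Agent.STp
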