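import Pool.Agent.Lib.MP_1ef7cf_nt_p.PG3


/-!
# Powers of `2` in the order of the kernels
-/

set_option linter.unusedSectionVars false

open NumberField IsDedekindDomain nonZeroDivisors IntermediateField

namespace Pool.Agent.STp

section

open Pool.Agent.ST Pool.Agent.STb Pool.Agent.STd Pool.Agent.STf

variable {K : Type*} [Field K] [NumberField K] [Algebra K ℝ] {σ₂ : K →+* ℝ}
  {n'' n' n m N : Ideal (𝓞 K)}

private theorem PG4_even (h2 : Module.finrank ℚ K = 2) (hN : N ≠ ⊥)
    (h2N : N ≤ Ideal.span {(2 : 𝓞 K)}) (hn' : n' = N * Ideal.span {(2 : 𝓞 K)}) (h : n' ≤ N) :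
    Even (Nat.card (pr σ₂ h).ker) := by
  subst hn'
  obtain ⟨x, hx, hpos, hne⟩ := exists_elt_ker (σ₂ := σ₂) h2 hN h2N
  exact even_of_elt hN h2N h hx hpos hne

/-- `2 ^ J` divides the order of the kernel of `Cl(m 2 ^ (J + 1)) → Cl(m)`, for `m`
divisible by all primes above `2`.
Proof: induction on `J`. All the moduli `m * (2) ^ i` have the same prime divisors as `m` (a prime
`v ∣ (2) ^ i` contains `2`, so `v ∣ m`), so all the maps are surjective (`pr_surjective_same`).
`J = 0`: `1 ∣ _`. Step: `m * (2) ^ (J + 2) ≤ m * (2) ^ (J + 1) ≤ m`; by `card_ker_mul` the order is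
the product of the orders of the kernels; the first is even by `exists_elt_ker` and `even_of_elt` with
`N = m * (2) ^ (J + 1) ≤ (2)` (`m * (2) ^ (J + 2) = N * (2)`; the equality of moduli has to be
handled: state an auxiliary version of evenness for `n'` with `n' = N * (2)` and `subst`), the second
is divisible by `2 ^ J` by induction. -/
theorem two_pow_dvd (h2 : Module.finrank ℚ K = 2) (hm : m ≠ ⊥)
    (htwo : ∀ v : HeightOneSpectrum (𝓞 K), (2 : 𝓞 K) ∈ v.asIdeal → v.asIdeal ∣ m) (J : ℕ)
    (h : m * Ideal.span {(2 : 𝓞 K)} ^ (J + 1) ≤ m) :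
    2 ^ J ∣ Nat.card (pr σ₂ h).ker := by
  induction J with
  | zero =>
    rw [pow_zero]
    exact one_dvd _
  | succ J ih =>
    set I : Ideal (𝓞 K) := Ideal.span {(2 : 𝓞 K)} with hI
    have hI0 : I ≠ ⊥ := by
      rw [hI, Ne, Ideal.span_singleton_eq_bot]
      exact two_ne_zero
    have hN0 : m * I ^ (J + 1) ≠ ⊥ := by
      rw [← Ideal.zero_eq_bot]
      exact mul_ne_zero hm (pow_ne_zero _ hI0)
    have hNI : m * I ^ (J + 1) ≤ I := by
      refine Ideal.mul_le_right.trans ?_
      rw [pow_succ]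
      exact Ideal.mul_le_right
    have hle2 : m * I ^ (J + 1) ≤ m := Ideal.mul_le_left
    have he : m * I ^ (J + 1 + 1) = m * I ^ (J + 1) * I := by
      rw [pow_succ, mul_assoc]
    have hle1 : m * I ^ (J + 1 + 1) ≤ m * I ^ (J + 1) := by
      rw [he]
      exact Ideal.mul_le_left
    have hs : Function.Surjective (pr σ₂ hle1) := by
      refine pr_surjective_same hle1 fun v hv => ?_
      have hp : Prime v.asIdeal := v.prime
      rcases hp.dvd_or_dvd hv with h1 | h1
      · exact Dvd.dvd.mul_right h1 _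
      · have h3 : v.asIdeal ∣ I := hp.dvd_of_dvd_pow h1
        have h4 : (2 : 𝓞 K) ∈ v.asIdeal :=
          (Ideal.dvd_iff_le.1 h3) (Ideal.mem_span_singleton_self _)
        exact Dvd.dvd.mul_right (htwo v h4) _
    have hcard := card_ker_mul (σ₂ := σ₂) hle1 hle2 hs
    have hev : Even (Nat.card (pr σ₂ hle1).ker) := PG4_even h2 hN0 hNI he hle1
    have hih := ih hle2
    have hgoal : 2 ^ (J + 1) ∣ Nat.card (pr σ₂ (hle1.trans hle2)).ker := by
      rw [hcard, pow_succ']
      exact mul_dvd_mul hev.two_dvd hih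
    exact hgoal

end

end Pool.Agent.STp
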