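import Pool.Agent.Lib.MP_1ef7cf_nt_p.PK5


/-!
# The kernel of `Cl(m 2 ^ J) → Cl(8 m)` consists of squares; density
-/

set_option linter.unusedSectionVars false

open NumberField IsDedekindDomain nonZeroDivisors IntermediateField Filter Topology

namespace Pool.Agent.STp

section

open Pool.Agent.ST Pool.Agent.STb Pool.Agent.STd Pool.Agent.STf

variable {K : Type*} [Field K] [NumberField K] [Algebra K ℝ] {σ₂ : K →+* ℝ} {m M : Ideal (𝓞 K)}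

open Classical in
/-- The primes outside of a proper subgroup containing the squares, uniformly in `J`.
Proof: take `C` and `Q` from `dens_all` for `M = m (2) ^ 3`. Let `J ≥ 3` and let `T` be a proper
subgroup of `Cl(m (2) ^ J)` containing the squares, `pr : Cl(m (2) ^ J) → Cl(m (2) ^ 3)`
(`Ideal.mul_mono_right (Ideal.pow_le_pow_right hJ)`), `T' = T.map pr`. Since `T ⊇ ker pr` (`ker_sq`)
we have `a ∈ T ↔ pr a ∈ T'` (`pr a = pr t`, `t ∈ T`, implies `a t⁻¹ ∈ ker pr ⊆ T`), so `T' ≠ ⊤`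
(otherwise `T = ⊤`). For `q ∈ Q`: `¬ q ∣ m (2) ^ J` (`q ∣ m` or `q ∣ (2)` otherwise, so
`q ∣ m (2) ^ 3`), `pr (fr q) = fr q` (`pr_fr`), so the two filter sets are the same. -/
theorem dens_unif (hm : m ≠ ⊥) (hr : HasRCF σ₂ (m * Ideal.span {(2 : 𝓞 K)} ^ 3)) {η : ℝ}
    (hη : 0 < η) :
    ∃ C : ℝ, ∀ᶠ s in 𝓝[>] (1 : ℝ), ∃ Q : Finset (PrI K),
      (∀ q ∈ Q, ¬ q.asIdeal ∣ m * Ideal.span {(2 : 𝓞 K)} ^ 3 ∧ px s q ≤ η) ∧
      ∀ J : ℕ, 3 ≤ J → ∀ T : Subgroup (RayClassGroup σ₂ (m * Ideal.span {(2 : 𝓞 K)} ^ J)),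
        T ≠ ⊤ → (∀ a : RayClassGroup σ₂ (m * Ideal.span {(2 : 𝓞 K)} ^ J), a * a ∈ T) →
        (1 / 2) * Real.log (1 / (s - 1)) - C ≤
          ∑ q ∈ Q.filter (fun q => fr σ₂ (m * Ideal.span {(2 : 𝓞 K)} ^ J) q ∉ T), px s q := by
  obtain ⟨C, hC⟩ := dens_all (σ₂ := σ₂) (M := m * Ideal.span {(2 : 𝓞 K)} ^ 3)
    (mul_ne_bot' hm (pow_ne_bot' span_two_ne_bot _)) hr hη
  refine ⟨C, ?_⟩
  filter_upwards [hC] with s hs
  obtain ⟨Q, hQ, hsum⟩ := hs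
  refine ⟨Q, hQ, fun J hJ T hT hsq => ?_⟩
  have h : m * Ideal.span {(2 : 𝓞 K)} ^ J ≤ m * Ideal.span {(2 : 𝓞 K)} ^ 3 :=
    Ideal.mul_mono_right (Ideal.pow_le_pow_right hJ)
  have hiff : ∀ a, a ∈ T ↔ pr σ₂ h a ∈ T.map (pr σ₂ h) := by
    intro a
    refine ⟨fun ha => Subgroup.mem_map_of_mem _ ha, fun ha => ?_⟩
    obtain ⟨t, ht, hta⟩ := Subgroup.mem_map.1 ha
    obtain ⟨B, hB⟩ := ker_sq (σ₂ := σ₂) hm hJ h (A := a * t⁻¹) (by
      rw [map_mul, map_inv, hta, mul_inv_cancel])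
    have h5 : a * t⁻¹ ∈ T := by rw [hB]; exact hsq B
    have h6 := T.mul_mem h5 ht
    rwa [inv_mul_cancel_right] at h6
  have hT' : T.map (pr σ₂ h) ≠ ⊤ := by
    intro h5
    apply hT
    rw [eq_top_iff]
    intro a _
    rw [hiff, h5]
    exact Subgroup.mem_top _
  refine (hsum _ hT').trans (le_of_eq (Finset.sum_congr (Finset.ext fun q => ?_) fun _ _ => rfl))
  simp only [Finset.mem_filter]
  refine and_congr_right fun hq => ?_
  have hqJ : ¬ q.asIdeal ∣ m * Ideal.span {(2 : 𝓞 K)} ^ J := by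
    intro hd
    apply (hQ q hq).1
    rcases q.prime.dvd_or_dvd hd with h1 | h1
    · exact dvd_mul_of_dvd_left h1 _
    · exact dvd_mul_of_dvd_right
        ((q.prime.dvd_of_dvd_pow h1).trans (dvd_pow_self _ (by norm_num))) _
  rw [hiff, pr_fr h hqJ]

end

end Pool.Agent.STp
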