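import Pool.Agent.Lib.MP_1ef7cf_nt_p.PM4
import Pool.Agent.Lib.MP_1ef7cf_nt_p.PN3


/-!
# Increasing the order by adding a prime
-/

set_option linter.unusedSectionVars false

open NumberField IsDedekindDomain nonZeroDivisors IntermediateField Filter Topology

namespace Pool.Agent.STp

section

open Pool.Agent.ST Pool.Agent.STb Pool.Agent.STd Pool.Agent.STf

variable {K : Type*} [Field K] [NumberField K] [Algebra K ℝ] {σ₂ : K →+* ℝ} {m n : Ideal (𝓞 K)}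
  {H : IntermediateField K ℝ} {Art : RayClassGroup σ₂ m ≃* (H ≃ₐ[K] H)}

/-- Large order at the moduli `m (2) ^ (d + 1)`.
Proof: `h : m (2) ^ (d + 1) ≤ m`. The ray class field of modulus `m` exists (`rcf_same hle hdvd hr'`;
a prime dividing `m (2) ^ (d + 1)` divides `m`). If `zd ∈ Fl (NR Art') d`, `d = d + 0`, then by
`norm_level` (`zd_anti`, `two_pow_dvd`) `pu h (zd σ₂ (m (2) ^ (d + 1))) ∈ Fl (NR Art) 0 = NR Art`, and
it is `zd σ₂ m` by `pu_same` (`finite_cl hr'`). So `RatioP σ₂ m`, contradiction.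
The divisibility `2 ^ d ∣ Nat.card (pr σ₂ h).ker` is the hypothesis `hd` (it is `two_pow_dvd` in
`PG.lean`). -/
theorem order_two (h2 : Module.finrank ℚ K = 2) (hσ : σ₂ ≠ sg1 K) (hm : m ≠ ⊥) (hm1 : m ≠ ⊤)
    (htwo : ∀ v : HeightOneSpectrum (𝓞 K), (2 : 𝓞 K) ∈ v.asIdeal → v.asIdeal ∣ m)
    (hf : ¬ RatioP σ₂ m) {d J : ℕ} (h : m * Ideal.span {(2 : 𝓞 K)} ^ J ≤ m)
    (hd : 2 ^ d ∣ Nat.card (pr σ₂ h).ker) {H' : IntermediateField K ℝ}
    {Art' : RayClassGroup σ₂ (m * Ideal.span {(2 : 𝓞 K)} ^ J) ≃* (H' ≃ₐ[K] H')}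
    (hr' : IsRayClassField σ₂ (m * Ideal.span {(2 : 𝓞 K)} ^ J) H' Art') :
    zd σ₂ (m * Ideal.span {(2 : 𝓞 K)} ^ J) ∉ Fl (NR Art') d := by
  intro hz
  have hle := h
  have hdvd : ∀ v : HeightOneSpectrum (𝓞 K), v.asIdeal ∣ m * Ideal.span {(2 : 𝓞 K)} ^ J →
      v.asIdeal ∣ m := by
    intro v hv
    rcases v.prime.dvd_or_dvd hv with h1 | h1
    · exact h1
    · exact htwo v (by
        have h2 := v.prime.dvd_of_dvd_pow h1
        exact Ideal.dvd_span_singleton.1 h2)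
  have hne : m * Ideal.span {(2 : 𝓞 K)} ^ J ≠ ⊥ :=
    mul_ne_bot' hm (pow_ne_bot' span_two_ne_bot _)
  have hne1 : m * Ideal.span {(2 : 𝓞 K)} ^ J ≠ ⊤ := ne_top_of_le_ne_top hm1 hle
  obtain ⟨H, Art, hr, -⟩ := rcf_same hle hdvd hr'
  have hfin : Finite (RayClassGroup σ₂ (m * Ideal.span {(2 : 𝓞 K)} ^ J)) := finite_cl hr'
  obtain ⟨c, hc⟩ := zd_anti (σ₂ := σ₂) h2 hσ hne hne1
  have h5 := norm_level hle hne hr hr' hc (d := d) (j := 0) hd (by rw [Nat.add_zero]; exact hz)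
  rw [pu_same h2 hσ hle hne hm hm1 hdvd] at h5
  exact hf (ratioP_iff.2 ⟨H, Art, hr, h5⟩)

end

end Pool.Agent.STp
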