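import Mathlib


/-!
# The final estimates
-/

open Filter Topology

namespace Pool.Agent.STp

section



/-- Powers of `4` for `s` near `1`.
Proof: `(4 ^ k) ^ (-s) = (4 ^ k)⁻¹ * 4 ^ (-k (s - 1))` and `k (s - 1) ≤ (log (1 / (s - 1)) / 8)
(s - 1) ≤ 1 / 8 ≤ 1 / 2`, because `t log (1 / t) ≤ 1` for `t > 0` (`Real.log_le_sub_one_of_pos` applied to
`1 / t`, or `Real.add_one_le_exp`); `4 ^ (-1/2) = 1 / 2`. -/
theorem four_pow_ge {s : ℝ} (hs : 1 < s) {k : ℕ} (hk : (k : ℝ) ≤ Real.log (1 / (s - 1)) / 8) :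
    (1 / 2) * ((4 : ℝ) ^ k)⁻¹ ≤ ((4 : ℝ) ^ k) ^ (-s) := by
  have ht : 0 < s - 1 := by linarith
  have hx : (0 : ℝ) < (4 : ℝ) ^ k := by positivity
  have h1 : Real.log (1 / (s - 1)) ≤ 1 / (s - 1) - 1 :=
    Real.log_le_sub_one_of_pos (by positivity)
  have h2 : (k : ℝ) * (s - 1) ≤ 1 / 8 := by
    have h3 : (k : ℝ) ≤ 1 / (s - 1) / 8 := by linarith
    calc (k : ℝ) * (s - 1) ≤ 1 / (s - 1) / 8 * (s - 1) := mul_le_mul_of_nonneg_right h3 ht.le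
      _ = 1 / 8 := by field_simp
  have h4 : ((4 : ℝ) ^ k) ^ (-s) = ((4 : ℝ) ^ k)⁻¹ * ((4 : ℝ) ^ k) ^ (-(s - 1)) := by
    rw [← Real.rpow_neg_one ((4 : ℝ) ^ k), ← Real.rpow_add hx]
    congr 1
    ring
  have hlog : Real.log 4 = 2 * Real.log 2 := by
    rw [show (4 : ℝ) = 2 ^ 2 by norm_num, Real.log_pow]
    norm_num
  have hl2 : 0 < Real.log 2 := Real.log_pos (by norm_num)
  have h5 : (1 / 2 : ℝ) ≤ ((4 : ℝ) ^ k) ^ (-(s - 1)) := by
    rw [Real.rpow_def_of_pos hx, Real.log_pow, hlog]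
    have h6 : (1 / 2 : ℝ) = Real.exp (-Real.log 2) := by
      rw [Real.exp_neg, Real.exp_log (by norm_num)]
      norm_num
    rw [h6]
    apply Real.exp_le_exp.mpr
    nlinarith [mul_le_mul_of_nonneg_right h2 hl2.le]
  rw [h4, mul_comm]
  exact mul_le_mul_of_nonneg_left h5 (by positivity)

end

end Pool.Agent.STp
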