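import Pool.Agent.Lib.MP_1ef7cf_nt_p.PF2
import Pool.Agent.Lib.MP_1ef7cf_nt_p.PF5
import Pool.Agent.Lib.MP_1ef7cf_nt_p.PG4
import Pool.Agent.Lib.MP_1ef7cf_nt_p.PK6
import Pool.Agent.Lib.MP_1ef7cf_nt_p.PS6
import Pool.Agent.Lib.MP_1ef7cf_nt_p.PX4


/-!
# One exception implies many exceptions
-/

set_option linter.unusedSectionVars false

open NumberField IsDedekindDomain nonZeroDivisors IntermediateField Filter Topology

namespace Pool.Agent.STp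

section

open Pool.Agent.ST Pool.Agent.STb Pool.Agent.STd Pool.Agent.STf

variable {K : Type*} [Field K] [NumberField K] [Algebra K ℝ] {σ₂ : K →+* ℝ} {n m M : Ideal (𝓞 K)}

omit [Algebra K ℝ] in
lemma PF7_absNorm_two (h2 : Module.finrank ℚ K = 2) :
    Ideal.absNorm (Ideal.span {(2 : 𝓞 K)}) = 4 := by
  have hfr : Module.finrank ℤ (𝓞 K) = 2 := by rw [RingOfIntegers.rank, h2]
  rw [Ideal.absNorm_span_singleton]
  have h1 : (2 : 𝓞 K) = algebraMap ℤ (𝓞 K) 2 := by simp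
  rw [h1, Algebra.norm_algebraMap, hfr]
  norm_num

omit [Algebra K ℝ] in
lemma PF7_dvd {q : PrI K} {J : ℕ}
    (h : ¬ q.asIdeal ∣ m * Ideal.span {(2 : 𝓞 K)} ^ 3) :
    ¬ q.asIdeal ∣ m * Ideal.span {(2 : 𝓞 K)} ^ J := by
  intro hd
  rcases q.prime.dvd_or_dvd hd with h1 | h1
  · exact h (dvd_mul_of_dvd_left h1 _)
  · exact h (dvd_mul_of_dvd_right ((q.prime.dvd_of_dvd_pow h1).trans (dvd_pow_self _ (by norm_num))) _)

/-- Finite order at all the moduli `m (2) ^ J`, `J ≥ 3`: power growth.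
Proof: take `η` from `main_estimate` for `θ` and `C` from `dens_unif` (`HasRCF` for `J = 3` from `hr`),
and `A = (1 / 2) * (absNorm m) ^ (-2) * (4 ^ 4) ^ (-2) > 0`, `c = 0`. For `s` near `1` (`s < 2`, `L` large by
`tendsto_log_inv`) let `k` be from `main_estimate`, `Q` from `dens_unif`, `J = k + 4`, `M = m (2) ^ J`. The
order of `zd σ₂ M` is `≥ k`: `hk J`, `2 ^ (k + 3) ∣ Nat.card ker` (`two_pow_dvd` with `J = (k + 3) + 1`), so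
`zd ∉ Fl (NR Art) (k + 3)` (`order_two`), hence `∉ Fl (NR Art) k` (`Fl_mono`). By `rank_exists'` with
`β = L / 2 - C` there is `z` of rank `k`, and `many_of_rk` gives many exceptions with
`X = (absNorm M) ^ (-s) * ((β - k η) ^ k / k!)`. (The primes of `Q` do not divide `M`, as in
`dens_unif`.) Finally `absNorm M = absNorm m * 4 ^ 4 * 4 ^ k` (`absNorm (2) = 4`), and
`(absNorm m * 4 ^ 4) ^ (-s) ≥ (absNorm m * 4 ^ 4) ^ (-2)`, `(4 ^ k) ^ (-s) ≥ (1 / 2) (4 ^ k)⁻¹`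
(`four_pow_ge`), `exp (θ L) = (s - 1) ^ (-θ)`. -/
theorem power_of_fin (h2 : Module.finrank ℚ K = 2) (hσ : σ₂ ≠ sg1 K) (hm : m ≠ ⊥) (hm1 : m ≠ ⊤)
    (hnm : n ∣ m)
    (htwo : ∀ v : HeightOneSpectrum (𝓞 K), (2 : 𝓞 K) ∈ v.asIdeal → v.asIdeal ∣ m)
    (hf : ¬ RatioP σ₂ m)
    (hr : ∀ J : ℕ, 3 ≤ J → ∃ (H : IntermediateField K ℝ)
      (Art : RayClassGroup σ₂ (m * Ideal.span {(2 : 𝓞 K)} ^ J) ≃* (H ≃ₐ[K] H)),
      IsRayClassField σ₂ (m * Ideal.span {(2 : 𝓞 K)} ^ J) H Art ∧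
      ∃ k, zd σ₂ (m * Ideal.span {(2 : 𝓞 K)} ^ J) ∈ Fl (NR Art) k) {θ : ℝ}
    (hθ : θ < 1 / 8) : ∀ᶠ s in 𝓝[>] (1 : ℝ), Many σ₂ n s ((s - 1) ^ (-θ)) := by
  obtain ⟨η, hη, hmain⟩ := main_estimate hθ
  have h8 : HasRCF σ₂ (m * Ideal.span {(2 : 𝓞 K)} ^ 3) := by
    obtain ⟨H, Art, h, -⟩ := hr 3 le_rfl
    exact ⟨H, Art, h⟩
  obtain ⟨C, hC⟩ := dens_unif hm h8 hη
  have ha := PF4_one_le hm
  have ha0 : (0 : ℝ) < (Ideal.absNorm m : ℝ) := by linarith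
  set a : ℝ := (Ideal.absNorm m : ℝ) with hadef
  have hb1 : (1 : ℝ) ≤ a * 4 ^ 4 := by nlinarith
  have hb0 : (0 : ℝ) < a * 4 ^ 4 := by linarith
  have hev := tendsto_log_inv.eventually
    (hmain ((1 / 2) * (a * 4 ^ 4) ^ (-2 : ℝ)) C 0
      (mul_pos (by norm_num) (Real.rpow_pos_of_pos hb0 _)))
  filter_upwards [hC, hev, self_mem_nhdsWithin, PF4_lt_two] with s h1 h2' h3 h4
  have h3' : (1 : ℝ) < s := h3
  obtain ⟨Q, hQ1, hQ2⟩ := h1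
  obtain ⟨k, hk1, hk2, hk3⟩ := h2'
  rw [Nat.cast_zero, zero_add] at hk2 hk3
  obtain ⟨H, Art, hrc, k', hk'⟩ := hr (k + 4) (by omega)
  have hM : m * Ideal.span {(2 : 𝓞 K)} ^ (k + 4) ≠ ⊥ :=
    mul_ne_bot' hm (pow_ne_bot' span_two_ne_bot _)
  have hle : m * Ideal.span {(2 : 𝓞 K)} ^ (k + 4) ≤ m := Ideal.mul_le_left
  have hM1 : m * Ideal.span {(2 : 𝓞 K)} ^ (k + 4) ≠ ⊤ := ne_top_of_le_ne_top hm1 hle
  have hd : 2 ^ (k + 3) ∣ Nat.card (pr σ₂ hle).ker := two_pow_dvd h2 hm htwo (k + 3) hle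
  have hord := order_two h2 hσ hm hm1 htwo hf hle hd hrc
  have hord' : zd σ₂ (m * Ideal.span {(2 : 𝓞 K)} ^ (k + 4)) ∉ Fl (NR Art) k :=
    fun h => hord (Fl_mono (trInv_NR Art) (by omega) h)
  obtain ⟨z, hz, hrk⟩ := rank_exists' h2 hσ hM hM1 (H := H) (Art := Art) (s := s) (Q := Q)
    (β := (1 / 2) * Real.log (1 / (s - 1)) - C)
    (fun T hT hsq => hQ2 (k + 4) (by omega) T hT hsq) hord' hk'
  have hmany := many_of_rk h2 hσ hM hM1 (hnm.trans (dvd_mul_right _ _)) hrc hη.le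
    (fun q hq => ⟨PF7_dvd (hQ1 q hq).1, (hQ1 q hq).2⟩) hz hrk hk2
  refine hmany.mono ?_
  rw [← PF4_exp h3']
  refine hk3.trans (mul_le_mul_of_nonneg_right ?_
    (div_nonneg (pow_nonneg (sub_nonneg.2 hk2) _) (Nat.cast_nonneg _)))
  have hN : (Ideal.absNorm (m * Ideal.span {(2 : 𝓞 K)} ^ (k + 4)) : ℝ) = (a * 4 ^ 4) * 4 ^ k := by
    rw [map_mul, map_pow, PF7_absNorm_two h2]
    push_cast
    rw [← hadef]
    ring
  rw [hN, Real.mul_rpow hb0.le (by positivity)]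
  have h5 := four_pow_ge h3' hk1
  have h6 : (a * 4 ^ 4) ^ (-2 : ℝ) ≤ (a * 4 ^ 4) ^ (-s) :=
    Real.rpow_le_rpow_of_exponent_le hb1 (by linarith)
  calc (1 / 2) * (a * 4 ^ 4) ^ (-2 : ℝ) * ((4 : ℝ) ^ k)⁻¹
      = (a * 4 ^ 4) ^ (-2 : ℝ) * ((1 / 2) * ((4 : ℝ) ^ k)⁻¹) := by ring
    _ ≤ (a * 4 ^ 4) ^ (-s) * ((4 : ℝ) ^ k) ^ (-s) :=
        mul_le_mul h6 h5 (by positivity) (Real.rpow_nonneg hb0.le _)

end

end Pool.Agent.STp
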