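import Pool.Agent.Lib.MP_1ef7cf_nt_p.PF6
import Pool.Agent.Lib.MP_1ef7cf_nt_p.PF7


/-!
# One exception implies many exceptions
-/

set_option linter.unusedSectionVars false

open NumberField IsDedekindDomain nonZeroDivisors IntermediateField Filter Topology

namespace Pool.Agent.STp

section

open Pool.Agent.ST Pool.Agent.STb Pool.Agent.STd Pool.Agent.STf

variable {K : Type*} [Field K] [NumberField K] [Algebra K ℝ] {σ₂ : K →+* ℝ} {n m M : Ideal (𝓞 K)}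

/-- Power growth for the moduli divisible by all primes above `2`.
Proof: by `starkTate_two` (`k = 0`, `SpR = RatioP ∨ ..`) there is a multiple `m ≠ ⊥` of `n` with
`¬ RatioP σ₂ m`. `m ≠ ⊤` because `n ≠ ⊤` (`STb.ne_top_of_two htwo`). If for some `J ≥ 3` there is no ray
class field of modulus `M = m (2) ^ J`: `power_of_no_rcf`. If for some `J ≥ 3` there is one with
`zd ∉ Fl (NR Art) k` for all `k`: `power_of_inf`. Otherwise `power_of_fin`. -/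
theorem power_two (h2 : Module.finrank ℚ K = 2) (hσ : σ₂ ≠ sg1 K) (hn : n ≠ ⊥)
    (htwo : ∀ v : HeightOneSpectrum (𝓞 K), (2 : 𝓞 K) ∈ v.asIdeal → v.asIdeal ∣ n)
    (hf : ¬ StarkTate σ₂ n) {θ : ℝ} (hθ : θ < 1 / 8) :
    ∀ᶠ s in 𝓝[>] (1 : ℝ), Many σ₂ n s ((s - 1) ^ (-θ)) := by
  have hn1 : n ≠ ⊤ := Pool.Agent.STb.ne_top_of_two htwo
  obtain ⟨m, hm, hnm, hfm⟩ : ∃ m : Ideal (𝓞 K), m ≠ ⊥ ∧ n ∣ m ∧ ¬ RatioP σ₂ m := by
    by_contra hcon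
    push Not at hcon
    exact hf (starkTate_two h2 hσ htwo 0 (fun m hm hnm _ => Or.inl (hcon m hm hnm)) n hn dvd_rfl)
  have hm1 : m ≠ ⊤ := ne_top_of_le_ne_top hn1 (Ideal.dvd_iff_le.1 hnm)
  have htwom : ∀ v : HeightOneSpectrum (𝓞 K), (2 : 𝓞 K) ∈ v.asIdeal → v.asIdeal ∣ m :=
    fun v hv => (htwo v hv).trans hnm
  have hne : ∀ J : ℕ, m * Ideal.span {(2 : 𝓞 K)} ^ J ≠ ⊥ := fun J =>
    mul_ne_bot' hm (pow_ne_bot' span_two_ne_bot _)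
  by_cases h1 : ∃ J : ℕ, 3 ≤ J ∧ ¬ HasRCF σ₂ (m * Ideal.span {(2 : 𝓞 K)} ^ J)
  · obtain ⟨J, -, hJ⟩ := h1
    exact power_of_no_rcf (hne J) (hnm.trans (dvd_mul_right _ _)) hJ hθ
  push Not at h1
  by_cases h3 : ∃ J : ℕ, 3 ≤ J ∧ ∃ (H : IntermediateField K ℝ)
      (Art : RayClassGroup σ₂ (m * Ideal.span {(2 : 𝓞 K)} ^ J) ≃* (H ≃ₐ[K] H)),
      IsRayClassField σ₂ (m * Ideal.span {(2 : 𝓞 K)} ^ J) H Art ∧
      ∀ k, zd σ₂ (m * Ideal.span {(2 : 𝓞 K)} ^ J) ∉ Fl (NR Art) k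
  · obtain ⟨J, -, H, Art, hr, hz⟩ := h3
    exact power_of_inf h2 hσ (hne J) (ne_top_of_le_ne_top hm1 Ideal.mul_le_left)
      (hnm.trans (dvd_mul_right _ _)) hr hz hθ
  push Not at h3
  refine power_of_fin h2 hσ hm hm1 hnm htwom hfm (fun J hJ => ?_) hθ
  obtain ⟨H, Art, hr⟩ := h1 J hJ
  exact ⟨H, Art, hr, h3 J hJ H Art hr⟩

end

end Pool.Agent.STp
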