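import Pool.Agent.Lib.MP_1ef7cf_nt_f.GD
import Pool.Agent.Lib.MP_1ef7cf_nt_p.PD


/-!
# Increasing the order by adding a prime
-/

set_option linter.unusedSectionVars false

open NumberField IsDedekindDomain nonZeroDivisors IntermediateField Filter Topology

namespace Pool.Agent.STp

section

open Pool.Agent.ST Pool.Agent.STb Pool.Agent.STd Pool.Agent.STf

variable {K : Type*} [Field K] [NumberField K] [Algebra K ℝ] {σ₂ : K →+* ℝ} {m n : Ideal (𝓞 K)}
  {H : IntermediateField K ℝ} {Art : RayClassGroup σ₂ m ≃* (H ≃ₐ[K] H)}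

/-- A prime `q` with `4 ∣ N q - 1` and class outside of a given proper subgroup.
Proof: let `T' = T.map Art`, a proper subgroup of the Galois group. By `densGe_four hr hm` the sum of
`px s q` over the set `B` of the primes `q ∤ m` with `4 ∣ pn q - 1`, `Art (cls ..) ∉ T'` is
`≥ c log (1 / (s - 1)) - C` with `c > 0` (`fd_MN`, `Module.finrank_pos`), so `B` is not empty
(`tendsto_log_inv`; for `B = ∅` the sum is `0`: `Set.indicator_empty`, `tsum_zero`). `fr_eq`. -/
theorem exists_prime_four (hm : m ≠ ⊥) (hr : IsRayClassField σ₂ m H Art)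
    {T : Subgroup (RayClassGroup σ₂ m)} (hT : T ≠ ⊤) :
    ∃ q : PrI K, ¬ q.asIdeal ∣ m ∧ 4 ∣ pn q - 1 ∧ fr σ₂ m q ∉ T := by
  classical
  have hT' : T.map (Art : RayClassGroup σ₂ m →* (H ≃ₐ[K] H)) ≠ ⊤ := by
    intro h
    apply hT
    rw [eq_top_iff]
    intro A _
    have h1 : Art A ∈ T.map (Art : RayClassGroup σ₂ m →* (H ≃ₐ[K] H)) := by
      rw [h]; exact Subgroup.mem_top _
    obtain ⟨B, hB, hBA⟩ := Subgroup.mem_map.1 h1
    have h2 : B = A := Art.injective hBA
    rwa [← h2]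
  obtain ⟨C, hC⟩ := densGe_four hr hm hT'
  by_contra hcon
  push Not at hcon
  have hempty : {q : PrI K | ∃ hq : ¬ q.asIdeal ∣ m, 4 ∣ pn q - 1 ∧
      Art (cls σ₂ m (prJ m q hq)) ∉ T.map (Art : RayClassGroup σ₂ m →* (H ≃ₐ[K] H))} = ∅ := by
    rw [Set.eq_empty_iff_forall_notMem]
    rintro q ⟨hq, hq4, hqT⟩
    apply hqT
    have h1 := hcon q hq hq4
    rw [fr_eq σ₂ hq] at h1
    exact Subgroup.mem_map_of_mem _ h1
  rw [hempty] at hC
  have fM : FiniteDimensional K (MN (1 : K) 1) := fd_MN 1 1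
  have ha0 : (0 : ℝ) < (Module.finrank K (MN (1 : K) 1) : ℝ) := by
    exact_mod_cast (Module.finrank_pos : 0 < Module.finrank K (MN (1 : K) 1))
  have hc0 : (0 : ℝ) < 1 / (2 * (Module.finrank K (MN (1 : K) 1) : ℝ)) := by positivity
  obtain ⟨s, hs, hs'⟩ := (hC.and (tendsto_log_inv.eventually_gt_atTop
    (C / (1 / (2 * (Module.finrank K (MN (1 : K) 1) : ℝ)))))).exists
  rw [div_lt_iff₀ hc0] at hs'
  simp only [Set.indicator_empty, tsum_zero] at hs
  linarith

end

end Pool.Agent.STp
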