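import Pool.Agent.Lib.MP_1ef7cf_nt_p.PM4


/-!
# Increasing the order by adding a prime
-/

set_option linter.unusedSectionVars false

open NumberField IsDedekindDomain nonZeroDivisors IntermediateField Filter Topology

namespace Pool.Agent.STp

section

open Pool.Agent.ST Pool.Agent.STb Pool.Agent.STd Pool.Agent.STf

variable {K : Type*} [Field K] [NumberField K] [Algebra K ℝ] {σ₂ : K →+* ℝ} {m n : Ideal (𝓞 K)}
  {H : IntermediateField K ℝ} {Art : RayClassGroup σ₂ m ≃* (H ≃ₐ[K] H)}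

/-- For `q` with `4 ∣ N q - 1` the kernel of `Cl(m q) → Cl(m)` has order divisible by
`4 = 2 ^ 2`, if the units in `EU σ₂ m` are fourth powers.
Proof: `four_dvd_card` (used as in `ratioP_of_closure`, `MP_1ef7cf_nt_f/GC.lean`) and
`card_fib_eq`. -/
theorem four_dvd_ker (hm : m ≠ ⊥) (h4 : ∀ w : (𝓞 K)ˣ, EU σ₂ m w → ∃ x : (𝓞 K)ˣ, w = x ^ 4)
    (hr : IsRayClassField σ₂ m H Art) {q : PrI K} (hq : ¬ q.asIdeal ∣ m) (hq4 : 4 ∣ pn q - 1)
    {H' : IntermediateField K ℝ} {Art' : RayClassGroup σ₂ (m * q.asIdeal) ≃* (H' ≃ₐ[K] H')}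
    (hr' : IsRayClassField σ₂ (m * q.asIdeal) H' Art') (h : m * q.asIdeal ≤ m) :
    2 ^ 2 ∣ Nat.card (pr σ₂ h).ker := by
  have := hr.finite
  have := hr'.finite
  have : IsAbelianGalois K H := hr.isRCF.abelian
  have : IsAbelianGalois K H' := hr'.isRCF.abelian
  have hne : m * q.asIdeal ≠ ⊥ := mul_ne_bot' hm q.ne_bot
  have hle : H ≤ H' := IsRCF.le h hne Set.finite_empty Set.finite_empty hr'.isRCF hr.isRCF
  rw [← card_fib_eq h hne hr hr' hle]
  have h5 := four_dvd_card hm hq hr hr' hle hq4 fun w hw => by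
    obtain ⟨x, rfl⟩ := h4 w hw
    exact ⟨Ideal.Quotient.mk _ (x : 𝓞 K), by rw [← map_pow]; rfl⟩
  norm_num
  exact h5

end

end Pool.Agent.STp
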