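import Pool.Agent.Lib.MP_1ef7cf_nt_p.PN3
import Pool.Agent.Lib.MP_1ef7cf_nt_p.PS1
import Pool.Agent.Lib.MP_1ef7cf_nt_p.PS2
import Pool.Agent.Lib.MP_1ef7cf_nt_p.PT1


/-!
# Increasing the order by adding a prime
-/

set_option linter.unusedSectionVars false

open NumberField IsDedekindDomain nonZeroDivisors IntermediateField Filter Topology

namespace Pool.Agent.STp

section

open Pool.Agent.ST Pool.Agent.STb Pool.Agent.STd Pool.Agent.STf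

variable {K : Type*} [Field K] [NumberField K] [Algebra K ℝ] {σ₂ : K →+* ℝ} {m n : Ideal (𝓞 K)}
  {H : IntermediateField K ℝ} {Art : RayClassGroup σ₂ m ≃* (H ≃ₐ[K] H)}

/-- Next steps.
Proof: let `T` be the subgroup of the `a` with `dl a (zd σ₂ m) ∈ Fl (NR Art) j`
(`exists_subgroup`, module `PT1`); if `T = ⊤` we are done
(`mem_Fl_succ`). Otherwise take `q` from `exists_prime_four` for `T`. The hypothesis gives
`zd σ₂ (m q) ∈ Fl (NR Art') (j + 2)`, `j + 2 = 2 + j`; by `norm_level` with `d = 2` (`zd_anti`,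
`four_dvd_ker`) `pu h (zd (m q)) ∈ Fl (NR Art) j`, and this is `dl (fr σ₂ m q)⁻¹ (zd σ₂ m)` by
`pu_prime`. So `(fr σ₂ m q)⁻¹ ∈ T`, hence `fr σ₂ m q ∈ T`, a contradiction. -/
theorem step_succ (h2 : Module.finrank ℚ K = 2) (hσ : σ₂ ≠ sg1 K) (hm : m ≠ ⊥) (hm1 : m ≠ ⊤)
    (h4 : ∀ w : (𝓞 K)ˣ, EU σ₂ m w → ∃ x : (𝓞 K)ˣ, w = x ^ 4)
    (hr : IsRayClassField σ₂ m H Art) (j : ℕ)
    (hF : ∀ q : PrI K, ¬ q.asIdeal ∣ m → 4 ∣ pn q - 1 → ∃ (H' : IntermediateField K ℝ)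
      (Art' : RayClassGroup σ₂ (m * q.asIdeal) ≃* (H' ≃ₐ[K] H')),
      IsRayClassField σ₂ (m * q.asIdeal) H' Art' ∧ zd σ₂ (m * q.asIdeal) ∈ Fl (NR Art') (j + 2)) :
    zd σ₂ m ∈ Fl (NR Art) (j + 1) := by
  obtain ⟨T, hT⟩ := exists_subgroup (trInv_NR Art) j (zd σ₂ m)
  rw [mem_Fl_succ]
  by_contra hcon
  push Not at hcon
  obtain ⟨a, ha⟩ := hcon
  have hTne : T ≠ ⊤ := by
    intro h
    apply ha
    rw [← hT, h]
    exact Subgroup.mem_top _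
  obtain ⟨q, hq, hq4, hqT⟩ := exists_prime_four hm hr hTne
  obtain ⟨H', Art', hr', hz⟩ := hF q hq hq4
  have hle : m * q.asIdeal ≤ m := Ideal.mul_le_left
  have hne : m * q.asIdeal ≠ ⊥ := mul_ne_bot' hm q.ne_bot
  have hne1 : m * q.asIdeal ≠ ⊤ := ne_top_of_le_ne_top hm1 hle
  have hfin : Finite (RayClassGroup σ₂ (m * q.asIdeal)) := finite_cl hr'
  obtain ⟨c, hc⟩ := zd_anti (σ₂ := σ₂) h2 hσ hne hne1
  have h5 := norm_level hle hne hr hr' hc (j := j)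
    (four_dvd_ker hm h4 hr hq hq4 hr' hle) (by rw [Nat.add_comm]; exact hz)
  rw [pu_prime h2 hσ hle rfl hm hm1 hq] at h5
  apply hqT
  rw [← inv_mem_iff, hT]
  exact h5

end

end Pool.Agent.STp
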