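import Pool.Agent.Lib.MP_1ef7cf_nt_p.PS3
import Pool.Agent.Lib.MP_1ef7cf_nt_p.PS4


/-!
# Increasing the order by adding a prime
-/

set_option linter.unusedSectionVars false

open NumberField IsDedekindDomain nonZeroDivisors IntermediateField Filter Topology

namespace Pool.Agent.STp

section

open Pool.Agent.ST Pool.Agent.STb Pool.Agent.STd Pool.Agent.STf

variable {K : Type*} [Field K] [NumberField K] [Algebra K ℝ] {σ₂ : K →+* ℝ} {m n : Ideal (𝓞 K)}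
  {H : IntermediateField K ℝ} {Art : RayClassGroup σ₂ m ≃* (H ≃ₐ[K] H)}

/-- Moduli of large order.
Proof: induction on `k`. `k = 0`: `m = n`: `hf` and `hex` give a ray class field with
`zd σ₂ n ∉ NR Art = Fl (NR Art) 0` (if it were in `NR Art` then `RatioP σ₂ n`, `ratioP_iff`).
Step: let `m` be as in the statement for `k`. If for all `q ∤ m` with `4 ∣ pn q - 1` there were
`H'`, `Art'` as in the hypothesis of `step_zero` (`k = 0`) or `step_succ` (`k = j + 1`, with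
`j + 2 = k + 1`) then `zd σ₂ m ∈ Fl (NR Art) k`, contradiction. So there is `q` such that for all ray
class fields `H'`, `Art'` of modulus `m q` (there is one by `hex`) `zd ∉ Fl (NR Art') (k + 1)`. The
units for `m q` are fourth powers by `EU.mono'`. `m ≠ ⊤` by `ne_top_of_le_ne_top`,
`Ideal.dvd_iff_le`. -/
theorem exists_large (h2 : Module.finrank ℚ K = 2) (hσ : σ₂ ≠ sg1 K) (hn : n ≠ ⊥) (hn1 : n ≠ ⊤)
    (h4 : ∀ w : (𝓞 K)ˣ, EU σ₂ n w → ∃ x : (𝓞 K)ˣ, w = x ^ 4) (hf : ¬ RatioP σ₂ n)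
    (hex : ∀ m : Ideal (𝓞 K), m ≠ ⊥ → n ∣ m → HasRCF σ₂ m) (k : ℕ) :
    ∃ m : Ideal (𝓞 K), m ≠ ⊥ ∧ n ∣ m ∧ ∃ (H : IntermediateField K ℝ)
      (Art : RayClassGroup σ₂ m ≃* (H ≃ₐ[K] H)), IsRayClassField σ₂ m H Art ∧
      zd σ₂ m ∉ Fl (NR Art) k := by
  induction k with
  | zero =>
    obtain ⟨H, Art, hr⟩ := hex n hn dvd_rfl
    exact ⟨n, hn, dvd_rfl, H, Art, hr, fun h => hf (ratioP_iff.2 ⟨H, Art, hr, h⟩)⟩
  | succ k ih =>
    obtain ⟨m, hm, hnm, H, Art, hr, hz⟩ := ih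
    have hm1 : m ≠ ⊤ := ne_top_of_le_ne_top hn1 (Ideal.dvd_iff_le.1 hnm)
    have h4m : ∀ w : (𝓞 K)ˣ, EU σ₂ m w → ∃ x : (𝓞 K)ˣ, w = x ^ 4 := fun w hw =>
      h4 w (EU.mono' (Ideal.dvd_iff_le.1 hnm) hw)
    obtain ⟨q, hq, hqF⟩ : ∃ q : PrI K, ¬ q.asIdeal ∣ m ∧ ∀ (H' : IntermediateField K ℝ)
        (Art' : RayClassGroup σ₂ (m * q.asIdeal) ≃* (H' ≃ₐ[K] H')),
        IsRayClassField σ₂ (m * q.asIdeal) H' Art' →
        zd σ₂ (m * q.asIdeal) ∉ Fl (NR Art') (k + 1) := by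
      by_contra hcon
      push Not at hcon
      apply hz
      cases k with
      | zero => exact step_zero h2 hσ hm hm1 h4m hr fun q hq _ => hcon q hq
      | succ j => exact step_succ h2 hσ hm hm1 h4m hr j fun q hq _ => hcon q hq
    have hne : m * q.asIdeal ≠ ⊥ := mul_ne_bot' hm q.ne_bot
    obtain ⟨H', Art', hr'⟩ := hex (m * q.asIdeal) hne (hnm.trans (dvd_mul_right _ _))
    exact ⟨m * q.asIdeal, hne, hnm.trans (dvd_mul_right _ _), H', Art', hr', hqF H' Art' hr'⟩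

end

end Pool.Agent.STp
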