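import Pool.Agent.Lib.MP_1ef7cf_nt_p.PF6
import Pool.Agent.Lib.MP_1ef7cf_nt_p.PS5


/-!
# One exception implies many exceptions
-/

set_option linter.unusedSectionVars false

open NumberField IsDedekindDomain nonZeroDivisors IntermediateField Filter Topology

namespace Pool.Agent.STp

section

open Pool.Agent.ST Pool.Agent.STb Pool.Agent.STd Pool.Agent.STf

variable {K : Type*} [Field K] [NumberField K] [Algebra K ℝ] {σ₂ : K →+* ℝ} {n m M : Ideal (𝓞 K)}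

/-- Every power of the logarithm, for all moduli.
Proof: by `starkTate_of_four` there is a multiple `n₁ ≠ ⊥` of `n` such that the units in
`EU σ₂ n₁` are fourth powers and `¬ RatioP σ₂ n₁`. If for some multiple `M ≠ ⊥` of `n₁` there is no ray
class field: `power_of_no_rcf` with `θ = 1 / 16` and `L ^ k ≤ exp (L / 16) = (s - 1) ^ (-1 / 16)` for `s`
near `1`. Otherwise `exists_large` (with `k + 1`) and `log_of_order`. -/
theorem log_all (h2 : Module.finrank ℚ K = 2) (hσ : σ₂ ≠ sg1 K) (hn : n ≠ ⊥) (hn1 : n ≠ ⊤)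
    (hf : ¬ StarkTate σ₂ n) (k : ℕ) :
    ∀ᶠ s in 𝓝[>] (1 : ℝ), Many σ₂ n s (Real.log (1 / (s - 1)) ^ k) := by
  obtain ⟨n₁, hn₁, hdvd, h4, hf₁⟩ : ∃ n₁ : Ideal (𝓞 K), n₁ ≠ ⊥ ∧ n ∣ n₁ ∧
      (∀ w : (𝓞 K)ˣ, EU σ₂ n₁ w → ∃ x : (𝓞 K)ˣ, w = x ^ 4) ∧ ¬ RatioP σ₂ n₁ := by
    by_contra hcon
    push Not at hcon
    exact hf (starkTate_of_four h2 hσ hn1 hcon n hn dvd_rfl)
  have hn₁1 : n₁ ≠ ⊤ := ne_top_of_le_ne_top hn1 (Ideal.dvd_iff_le.1 hdvd)
  by_cases hex : ∃ M : Ideal (𝓞 K), M ≠ ⊥ ∧ n₁ ∣ M ∧ ¬ HasRCF σ₂ M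
  · obtain ⟨M, hM, hnM, hno⟩ := hex
    have hp := power_of_no_rcf (n := n) hM (hdvd.trans hnM) hno
      (show (1 / 16 : ℝ) < 1 / 8 by norm_num)
    have hlim : ∀ᶠ L : ℝ in atTop, L ^ k ≤ Real.exp (1 / 16 * L) := by
      have h5 := _root_.tendsto_exp_mul_div_rpow_atTop k (1 / 16) (by norm_num)
      filter_upwards [h5.eventually_ge_atTop 1, eventually_gt_atTop 0] with L h6 h7
      rw [Real.rpow_natCast, le_div_iff₀ (by positivity), one_mul] at h6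
      exact h6
    filter_upwards [hp, tendsto_log_inv.eventually hlim, self_mem_nhdsWithin] with s h5 h6 h7
    refine h5.mono (h6.trans ?_)
    rw [PF4_exp h7]
  push Not at hex
  obtain ⟨M, hM, hnM, H, Art, hr, hz⟩ := exists_large h2 hσ hn₁ hn₁1 h4 hf₁ hex (k + 1)
  exact log_of_order h2 hσ hM (ne_top_of_le_ne_top hn₁1 (Ideal.dvd_iff_le.1 hnM))
    (hdvd.trans hnM) hr hz

end

end Pool.Agent.STp
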