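import Pool.Agent.Lib.MP_1ef7cf_nt_f.GD
import Pool.Agent.Lib.MP_1ef7cf_nt_p.PD


/-!
# Powers of `2` in the order of the kernels
-/

set_option linter.unusedSectionVars false

open NumberField IsDedekindDomain nonZeroDivisors IntermediateField

namespace Pool.Agent.STp

section

open Pool.Agent.ST Pool.Agent.STb Pool.Agent.STd Pool.Agent.STf

variable {K : Type*} [Field K] [NumberField K] {σ₂ : K →+* ℝ} {n'' n' n m N : Ideal (𝓞 K)}

/-- Proof: for surjective `f : A → B` and `g : B → C` the map `f` restricts to a surjective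
homomorphism from `(g ∘ f).ker` to `g.ker` with kernel (isomorphic to) `f.ker`; so
`Nat.card (g ∘ f).ker = Nat.card f.ker * Nat.card g.ker` (`Subgroup.card_eq_card_quotient_mul_card_subgroup`
or `Nat.card_congr` with the first isomorphism theorem; `MonoidHom.ker_comp...`; it is enough to
treat general homomorphisms of commutative groups `f`, `g` first). Here `pr (h1.trans h2) =
(pr h2).comp (pr h1)` by `pr_pr`. -/
theorem card_ker_mul (h1 : n'' ≤ n') (h2 : n' ≤ n) (hs : Function.Surjective (pr σ₂ h1)) :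
    Nat.card (pr σ₂ (h1.trans h2)).ker = Nat.card (pr σ₂ h1).ker * Nat.card (pr σ₂ h2).ker := by
  have key : ∀ {A B C : Type _} [CommGroup A] [CommGroup B] [CommGroup C] (f : A →* B) (g : B →* C),
      Function.Surjective f → Nat.card (g.comp f).ker = Nat.card f.ker * Nat.card g.ker := by
    intro A B C _ _ _ f g hf
    let φ : (g.comp f).ker →* g.ker :=
      (f.comp (g.comp f).ker.subtype).codRestrict g.ker fun x => x.2
    have hφ : Function.Surjective φ := by
      rintro ⟨b, hb⟩
      obtain ⟨a, rfl⟩ := hf b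
      exact ⟨⟨a, hb⟩, rfl⟩
    have hker : Nat.card φ.ker = Nat.card f.ker := by
      refine Nat.card_congr ⟨fun x => ⟨x.1.1, ?_⟩, fun x => ⟨⟨x.1, ?_⟩, ?_⟩, ?_, ?_⟩
      · exact congrArg Subtype.val x.2
      · rw [MonoidHom.mem_ker, MonoidHom.comp_apply, MonoidHom.mem_ker.1 x.2, map_one]
      · exact Subtype.ext x.2
      · intro x; rfl
      · intro x; rfl
    have h3 := Subgroup.card_eq_card_quotient_mul_card_subgroup φ.ker
    rw [h3, hker, Nat.card_congr (QuotientGroup.quotientKerEquivOfSurjective φ hφ).toEquiv,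
      mul_comm]
  have h3 : pr σ₂ (h1.trans h2) = (pr σ₂ h2).comp (pr σ₂ h1) := by
    ext A
    exact (pr_pr h1 h2 A).symm
  rw [h3]
  exact key _ _ hs

/-- Surjectivity for the same prime divisors. Proof: as in `rcf_same`
(`MP_1ef7cf_nt/SharpStep.lean`). -/
theorem pr_surjective_same (h : n' ≤ n)
    (hdvd : ∀ v : HeightOneSpectrum (𝓞 K), v.asIdeal ∣ n' → v.asIdeal ∣ n) :
    Function.Surjective (pr σ₂ h) := by
  intro A
  obtain ⟨J, rfl⟩ := cls_surjective n A
  exact ⟨cls σ₂ n' ⟨J, fun v hv => J.2 v (hdvd v hv)⟩, rfl⟩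

end

end Pool.Agent.STp
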