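import Pool.Agent.Lib.MP_1ef7cf_nt_p.PG1


/-!
# Powers of `2` in the order of the kernels
-/

set_option linter.unusedSectionVars false

open NumberField IsDedekindDomain nonZeroDivisors IntermediateField

namespace Pool.Agent.STp

section

open Pool.Agent.ST Pool.Agent.STb Pool.Agent.STd Pool.Agent.STf

variable {K : Type*} [Field K] [NumberField K] {σ₂ : K →+* ℝ} {n'' n' n m N : Ideal (𝓞 K)}

/-- For `x ∈ N ⊆ (2)` with `1 + x` not congruent to a unit `u` in `EU σ₂ N` modulo `2 N`,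
and `0 < σ₂ (1 + x)`, the class of `(1 + x)` has order exactly `2` in the kernel of
`Cl(2 N) → Cl(N)`, so the order of the kernel is even.
Proof: `(1 + x)` is prime to `N` and, since `N ⊆ (2)`, to `N * (2)` (`coprime_span_of_sub_one_mem`).
Let `J` be the fractional ideal `(1 + x)` (`uP`); `A = cls (N * (2)) J`. Then `pr A = 1` as
`1 + x ≡ 1 mod N` (`oneMod_of_sub_one_mem`). `A ^ 2 = 1`: `J ^ 2 = ((1 + x) ^ 2)` and
`(1 + x) ^ 2 - 1 = 2 x + x ^ 2 ∈ 2 N` (`x ^ 2 = x * x` with `x ∈ N ⊆ (2)`). `A ≠ 1`: otherwise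
`(1 + x) = (α)` with `α ≡ 1 mod^× 2 N`, `σ₂ α > 0`; by `int_of_coe_eq` (see `exists_ray_elt` in
`MP_1ef7cf_nt/TwoLevel.lean`) `α` is an integer `y` with `y - 1 ∈ N * (2)`,
`(1 + x) = (y)`, so `y = (1 + x) u` for a unit `u`; `σ₂ u > 0` and
`u - 1 ∈ N` (`(1 + x) (u - 1) = y - 1 - x ∈ N` and `1 + x` is prime to `N`; or
`u - 1 = (y - 1) - x u`), so `EU σ₂ N u`, and also `EU σ₂ N u⁻¹`, and `1 + x - u⁻¹ =
u⁻¹ ((1 + x) u - 1) = u⁻¹ (y - 1) ∈ N * (2)`, contradicting the hypothesis. An element of order `2` in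
the kernel makes its order even (`orderOf_dvd_natCard`, `orderOf_eq_prime`). -/
theorem even_of_elt (hN : N ≠ ⊥) (h2N : N ≤ Ideal.span {(2 : 𝓞 K)})
    (h : N * Ideal.span {(2 : 𝓞 K)} ≤ N) {x : 𝓞 K} (hx : x ∈ N)
    (hpos : 0 < σ₂ ((1 + x : 𝓞 K) : K))
    (hne : ∀ u : (𝓞 K)ˣ, EU σ₂ N u → 1 + x - (u : 𝓞 K) ∉ N * Ideal.span {(2 : 𝓞 K)}) :
    Even (Nat.card (pr σ₂ h).ker) := by
  have hx1 : (1 + x) - 1 ∈ N := by
    have e0 : (1 + x) - 1 = x := by ring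
    rw [e0]
    exact hx
  have hx2 : (1 + x) - 1 ∈ Ideal.span {(2 : 𝓞 K)} := h2N hx1
  obtain ⟨y₀, hy₀⟩ : ∃ y₀, y₀ = 1 + x := ⟨_, rfl⟩
  rw [← hy₀] at hx1 hx2 hpos
  have hne' : ∀ u : (𝓞 K)ˣ, EU σ₂ N u → y₀ - (u : 𝓞 K) ∉ N * Ideal.span {(2 : 𝓞 K)} := by
    intro u hu
    rw [hy₀]
    exact hne u hu
  have hy0 : y₀ ≠ 0 := ne_zero_of_pos hpos
  have hy0' : (y₀ : K) ≠ 0 := coe_ne_zero' hy0
  have hcop : IsCoprime (Ideal.span {y₀}) (N * Ideal.span {(2 : 𝓞 K)}) :=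
    (coprime_span_of_sub_one_mem hx1).mul_right (coprime_span_of_sub_one_mem hx2)
  have hJ : ((uP (y₀ : K) hy0' : (FI K)ˣ) : FI K) = ((Ideal.span {y₀} : Ideal (𝓞 K)) : FI K) := by
    rw [coe_uP, coe_span_singleton]
  have hJm : uP (y₀ : K) hy0' ∈ primeTo (K := K) (N * Ideal.span {(2 : 𝓞 K)}) :=
    coe_mem_primeTo hJ hcop
  have hA1 : pr σ₂ h (cls σ₂ (N * Ideal.span {(2 : 𝓞 K)}) ⟨uP (y₀ : K) hy0', hJm⟩) = 1 := by
    rw [pr_cls, cls_eq_one_iff, coe_inc]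
    exact ⟨(y₀ : K), oneMod_of_sub_one_mem hx1, hpos, rfl⟩
  have hA2 : (cls σ₂ (N * Ideal.span {(2 : 𝓞 K)}) ⟨uP (y₀ : K) hy0', hJm⟩) ^ 2 = 1 := by
    rw [← map_pow, cls_eq_one_iff]
    refine ⟨((y₀ ^ 2 : 𝓞 K) : K), oneMod_of_sub_one_mem ?_, ?_, ?_⟩
    · have e1 : y₀ ^ 2 - 1 = (y₀ - 1) * 2 + (y₀ - 1) * (y₀ - 1) := by ring
      rw [e1]
      exact Ideal.add_mem _ (Ideal.mul_mem_mul hx1 (Ideal.mem_span_singleton_self 2))
        (Ideal.mul_mem_mul hx1 hx2)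
    · have e2 : ((y₀ ^ 2 : 𝓞 K) : K) = (y₀ : K) ^ 2 := map_pow _ _ _
      rw [e2, map_pow]
      positivity
    · change ((((uP (y₀ : K) hy0') ^ 2 : (FI K)ˣ)) : FI K) = _
      rw [Units.val_pow_eq_pow_val, hJ, ← coe_span_singleton, ← Ideal.span_singleton_pow,
        FractionalIdeal.coeIdeal_pow]
  have hA3 : (cls σ₂ (N * Ideal.span {(2 : 𝓞 K)}) ⟨uP (y₀ : K) hy0', hJm⟩) ≠ 1 := by
    intro h1
    rw [cls_eq_one_iff] at h1
    obtain ⟨α, hα1, hα2, hα3⟩ := h1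
    have h3 : ((Ideal.span {y₀} : Ideal (𝓞 K)) : FI K) =
        FractionalIdeal.spanSingleton (𝓞 K)⁰ α := by
      rw [← hα3]
      exact hJ.symm
    obtain ⟨y, hy1, hy2, hy3⟩ := int_of_coe_eq hα1 h3
    obtain ⟨u, hu⟩ := Ideal.span_singleton_eq_span_singleton.1 hy3
    have hEU : EU σ₂ N u := by
      constructor
      · have e3 : (u : 𝓞 K) - 1 = (y - 1) - (y₀ - 1) * (u : 𝓞 K) := by
          rw [← hu]; ring
        rw [e3]
        exact N.sub_mem (h hy2) (N.mul_mem_right _ hx1)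
      · rw [← hy1] at hα2
        have e4 : (y : K) = (y₀ : K) * ((u : 𝓞 K) : K) := by rw [← hu]; exact map_mul _ _ _
        rw [e4, map_mul] at hα2
        exact (pos_iff_pos_of_mul_pos hα2).1 hpos
    apply hne' u⁻¹ hEU.inv
    have e5 : y₀ - ((u⁻¹ : (𝓞 K)ˣ) : 𝓞 K) = ((u⁻¹ : (𝓞 K)ˣ) : 𝓞 K) * (y - 1) := by
      have e6 : ((u⁻¹ : (𝓞 K)ˣ) : 𝓞 K) * (u : 𝓞 K) = 1 := Units.inv_mul u
      rw [← hu]
      linear_combination (-y₀) * e6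
    rw [e5]
    exact Ideal.mul_mem_left _ _ hy2
  have h4 : orderOf (⟨cls σ₂ (N * Ideal.span {(2 : 𝓞 K)}) ⟨uP (y₀ : K) hy0', hJm⟩, hA1⟩ :
      (pr σ₂ h).ker) = 2 := by
    apply orderOf_eq_prime
    · exact Subtype.ext hA2
    · exact fun h5 => hA3 (congrArg Subtype.val h5)
  rw [even_iff_two_dvd, ← h4]
  exact orderOf_dvd_natCard _

end

end Pool.Agent.STp
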