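import Pool.Agent.Lib.MP_1ef7cf_nt_p.PG2


/-!
# Powers of `2` in the order of the kernels
-/

set_option linter.unusedSectionVars false

open NumberField IsDedekindDomain nonZeroDivisors IntermediateField

namespace Pool.Agent.STp

section

open Pool.Agent.ST Pool.Agent.STb Pool.Agent.STd Pool.Agent.STf

variable {K : Type*} [Field K] [NumberField K] [Algebra K ℝ] {σ₂ : K →+* ℝ}
  {n'' n' n m N : Ideal (𝓞 K)}

/-- There is an element `x` as in `even_of_elt`.
Proof: let `η` be a generator of the units `EU σ₂ N` (`exists_gen σ₂ h2 hN`). For every unit `u` in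
`EU σ₂ N`, `u = η ^ k`, we have `u ≡ 1` or `u ≡ η` modulo `N * (2)`: indeed
`η ^ 2 - 1 = (η - 1) ((η - 1) + 2) ∈ N * (2)` (`η - 1 ∈ N ⊆ (2)`), so `η ^ (2 l) ≡ 1` and
`η ^ (2 l + 1) ≡ η` (work with the images in `(𝓞 K ⧸ N * (2))ˣ`, `Units.map`, `zpow`). So it is enough
to find `x ∈ N` with `x ∉ N * (2)` and `x - (η - 1) ∉ N * (2)`. Suppose there is none. The kernel of
the surjection `𝓞 K ⧸ N * (2) → 𝓞 K ⧸ N` (`Ideal.Quotient.factor`) consists of the classes of the
`x ∈ N`, so it has at most two elements (`0` and the class of `η - 1`), and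
`Nat.card (𝓞 K ⧸ N * (2)) ≤ 2 * Nat.card (𝓞 K ⧸ N)` (fibres of a homomorphism; or
`card = card (ker) * card (range)`). But `Nat.card (𝓞 K ⧸ I) = Ideal.absNorm I`
(`Ideal.absNorm_apply`, `Submodule.cardQuot_apply`), `absNorm (N * (2)) = absNorm N * absNorm (2)`
and `absNorm (2) = |norm 2| = 4` (`Ideal.absNorm_span_singleton`, `Algebra.norm_algebraMap` as in
`exists_ray_elt`, with `Module.finrank ℤ (𝓞 K) = 2` from `RingOfIntegers.rank`), and
`absNorm N ≠ 0`: a contradiction. Finally replace `x` by `x + z` with `z ∈ N * (2)` such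
that `σ₂ (1 + x + z) > 0` (`exists_pos σ₂ _ (1 + x)`, see `exists_elt` in `MP_1ef7cf_nt/RCG.lean`). -/
theorem exists_elt_ker (h2 : Module.finrank ℚ K = 2) (hN : N ≠ ⊥)
    (h2N : N ≤ Ideal.span {(2 : 𝓞 K)}) :
    ∃ x ∈ N, 0 < σ₂ ((1 + x : 𝓞 K) : K) ∧
      ∀ u : (𝓞 K)ˣ, EU σ₂ N u → 1 + x - (u : 𝓞 K) ∉ N * Ideal.span {(2 : 𝓞 K)} := by
  obtain ⟨η, hη, -, hgen⟩ := exists_gen σ₂ h2 hN
  have hηN : (η : 𝓞 K) - 1 ∈ N := hη.1
  obtain ⟨I, hI⟩ : ∃ I : Ideal (𝓞 K), I = N * Ideal.span {(2 : 𝓞 K)} := ⟨_, rfl⟩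
  have hIN : I ≤ N := by
    rw [hI]
    exact (Ideal.mul_le_left : N * Ideal.span {(2 : 𝓞 K)} ≤ N)
  have h2I : Ideal.span {(2 : 𝓞 K)} ≠ ⊥ := by
    rw [Ne, Ideal.span_singleton_eq_bot]
    exact two_ne_zero
  have hI0 : I ≠ ⊥ := by
    rw [hI, ← Ideal.zero_eq_bot]
    exact mul_ne_zero hN h2I
  have hsq : (η : 𝓞 K) ^ 2 - 1 ∈ I := by
    have e : (η : 𝓞 K) ^ 2 - 1 = ((η : 𝓞 K) - 1) * (((η : 𝓞 K) - 1) + 2) := by ring
    rw [e, hI]
    exact Ideal.mul_mem_mul hηN (Ideal.add_mem _ (h2N hηN) (Ideal.mem_span_singleton_self 2))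
  have key : ∀ u : (𝓞 K)ˣ, EU σ₂ N u → (u : 𝓞 K) - 1 ∈ I ∨ (u : 𝓞 K) - (η : 𝓞 K) ∈ I := by
    intro u hu
    obtain ⟨k, rfl⟩ := hgen u hu
    obtain ⟨f, hf⟩ : ∃ f : (𝓞 K)ˣ →* (𝓞 K ⧸ I)ˣ,
      f = Units.map (Ideal.Quotient.mk I : 𝓞 K →+* 𝓞 K ⧸ I) := ⟨_, rfl⟩
    have hfv : ∀ w : (𝓞 K)ˣ, ((f w : (𝓞 K ⧸ I)ˣ) : 𝓞 K ⧸ I) = Ideal.Quotient.mk I (w : 𝓞 K) := by
      intro w
      rw [hf]
      rfl
    have hf2 : f (η ^ 2) = 1 := by
      rw [← Units.val_inj, hfv, Units.val_one, ← map_one (Ideal.Quotient.mk I), Ideal.Quotient.eq,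
        Units.val_pow_eq_pow_val]
      exact hsq
    have hfl : ∀ l : ℤ, f (η ^ (2 * l)) = 1 := by
      intro l
      rw [zpow_mul, map_zpow]
      have e : f (η ^ (2 : ℤ)) = 1 := by
        rw [← hf2]
        norm_cast
      rw [e, one_zpow]
    rcases Int.even_or_odd' k with ⟨l, rfl | rfl⟩
    · left
      rw [← Ideal.Quotient.eq, ← hfv, hfl, Units.val_one, map_one]
    · right
      rw [← Ideal.Quotient.eq, ← hfv, ← hfv, zpow_add, map_mul, hfl, one_mul, zpow_one]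
  have main : ∃ x ∈ N, x ∉ I ∧ x - ((η : 𝓞 K) - 1) ∉ I := by
    by_contra hcon
    push Not at hcon
    have hA : I.toAddSubgroup.relIndex N.toAddSubgroup ≤ 2 := by
      rw [AddSubgroup.relIndex, AddSubgroup.index]
      obtain ⟨w, hw⟩ : ∃ w : N.toAddSubgroup, (w : 𝓞 K) = (η : 𝓞 K) - 1 := ⟨⟨_, hηN⟩, rfl⟩
      have hsur : Function.Surjective (fun b : Bool =>
          (QuotientAddGroup.mk (cond b (0 : N.toAddSubgroup) w) :
            N.toAddSubgroup ⧸ I.toAddSubgroup.addSubgroupOf N.toAddSubgroup)) := by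
        intro q
        induction q using QuotientAddGroup.induction_on with
        | H x =>
          by_cases hx : (x : 𝓞 K) ∈ I
          · refine ⟨true, ?_⟩
            change (QuotientAddGroup.mk 0 : N.toAddSubgroup ⧸ _) = QuotientAddGroup.mk x
            rw [QuotientAddGroup.eq, AddSubgroup.mem_addSubgroupOf]
            simpa using hx
          · refine ⟨false, ?_⟩
            change (QuotientAddGroup.mk w : N.toAddSubgroup ⧸ _) = QuotientAddGroup.mk x
            rw [QuotientAddGroup.eq, AddSubgroup.mem_addSubgroupOf]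
            have h5 := hcon x x.2 hx
            have e : ((-w + x : N.toAddSubgroup) : 𝓞 K) = (x : 𝓞 K) - ((η : 𝓞 K) - 1) := by
              rw [AddSubgroup.coe_add, AddSubgroup.coe_neg, hw]
              ring
            rw [e]
            exact h5
      have h3 := Nat.card_le_card_of_surjective _ hsur
      simpa using h3
    have hB : I.toAddSubgroup.relIndex N.toAddSubgroup * N.toAddSubgroup.index =
        I.toAddSubgroup.index := by
      refine AddSubgroup.relIndex_mul_index ?_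
      intro x hx
      exact hIN hx
    have hC : I.toAddSubgroup.index = N.toAddSubgroup.index * 4 := by
      have h4 : Ideal.absNorm (Ideal.span {(2 : 𝓞 K)}) = 4 := by
        rw [Ideal.absNorm_span_singleton]
        have e : (2 : 𝓞 K) = algebraMap ℤ (𝓞 K) 2 := by simp
        rw [e, Algebra.norm_algebraMap, RingOfIntegers.rank, h2]
        norm_num
      have h5 : Ideal.absNorm I = Ideal.absNorm N * 4 := by
        rw [hI, map_mul, h4]
      exact h5
    have hD : N.toAddSubgroup.index ≠ 0 := by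
      have h6 : Ideal.absNorm N ≠ 0 := by rwa [Ne, Ideal.absNorm_eq_zero_iff]
      exact h6
    rw [hC] at hB
    have h7 : 0 < N.toAddSubgroup.index := Nat.pos_of_ne_zero hD
    nlinarith
  obtain ⟨x, hxN, hx1, hx2⟩ := main
  obtain ⟨z, hz1, hz2⟩ := exists_pos σ₂ hI0 (1 + x)
  refine ⟨z - 1, ?_, ?_, ?_⟩
  · have e : z - 1 = (z - (1 + x)) + x := by ring
    rw [e]
    exact N.add_mem (hIN hz1) hxN
  · have e : 1 + (z - 1) = z := by ring
    rw [e]
    exact hz2
  · intro u hu hcon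
    rw [← hI] at hcon
    rcases key u hu with h | h
    · apply hx1
      have e : x = (1 + (z - 1) - (u : 𝓞 K)) + ((u : 𝓞 K) - 1) - (z - (1 + x)) := by ring
      rw [e]
      exact I.sub_mem (I.add_mem hcon h) hz1
    · apply hx2
      have e : x - ((η : 𝓞 K) - 1) =
        (1 + (z - 1) - (u : 𝓞 K)) + ((u : 𝓞 K) - (η : 𝓞 K)) - (z - (1 + x)) := by ring
      rw [e]
      exact I.sub_mem (I.add_mem hcon h) hz1

end

end Pool.Agent.STp
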