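import Pool.Agent.Lib.MP_1ef7cf_nt_f.GD
import Pool.Agent.Lib.MP_1ef7cf_nt_p.PA1
import Pool.Agent.Lib.MP_1ef7cf_nt_p.PN4


/-!
# The kernel of `Cl(m 2 ^ J) → Cl(8 m)` consists of squares; density
-/

set_option linter.unusedSectionVars false

open NumberField IsDedekindDomain nonZeroDivisors IntermediateField Filter Topology

namespace Pool.Agent.STp

section

open Pool.Agent.ST Pool.Agent.STb Pool.Agent.STd Pool.Agent.STf

variable {K : Type*} [Field K] [NumberField K] {σ₂ : K →+* ℝ} {m : Ideal (𝓞 K)}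

/-- Hensel's lemma for squares.
Proof: induction on `J ≥ 3` (`Nat.le_induction`): for `J = 3` take `y = b`. Step: let
`y ^ 2 - u ∈ m (2) ^ J`, say `u - y ^ 2 = 2 ^ J μ` with `μ ∈ m` (`(2) ^ J = (2 ^ J)`:
`Ideal.span_singleton_pow`, `Ideal.mem_mul_span_singleton`). As `(y)` is prime to `(2)` (it is prime
to `m (2) ^ 3`) there is `t` with `t y - 1 ∈ (2)`. Put `y' = y + 2 ^ (J - 1) t μ`. Then `y' ^ 2 = y ^ 2
+ 2 ^ J t μ y + 2 ^ (2 J - 2) t ^ 2 μ ^ 2` and `u - y' ^ 2 = 2 ^ J μ (1 - t y) - 2 ^ (2 J - 2) t ^ 2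
μ ^ 2 ∈ m (2) ^ (J + 1)`, because `2 J - 2 ≥ J + 1`. `(y')` is prime to `m (2) ^ 3`: `y' - y ∈ m` and
`y' - y ∈ (2)`, use `coprime_of_sub_mem` for `m` and for `(2)`, and `IsCoprime.mul_right`,
`IsCoprime.pow_right`. -/
theorem exists_sqrt {u b : 𝓞 K} (hb : IsCoprime (Ideal.span {b}) (m * Ideal.span {(2 : 𝓞 K)} ^ 3))
    (hu : b ^ 2 - u ∈ m * Ideal.span {(2 : 𝓞 K)} ^ 3) {J : ℕ} (hJ : 3 ≤ J) :
    ∃ y : 𝓞 K, IsCoprime (Ideal.span {y}) (m * Ideal.span {(2 : 𝓞 K)} ^ 3) ∧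
      y ^ 2 - u ∈ m * Ideal.span {(2 : 𝓞 K)} ^ J := by
  induction J, hJ using Nat.le_induction with
  | base => exact ⟨b, hb, hu⟩
  | succ J hJ ih =>
    obtain ⟨y, hy1, hy2⟩ := ih
    have hym : IsCoprime (Ideal.span {y}) m := hy1.of_mul_right_left
    have hy2' : IsCoprime (Ideal.span {y}) (Ideal.span {(2 : 𝓞 K)}) :=
      (IsCoprime.pow_right_iff (by norm_num)).1 hy1.of_mul_right_right
    rw [Ideal.span_singleton_pow] at hy2
    obtain ⟨μ, hμ, hμe⟩ := Ideal.mem_mul_span_singleton.1 hy2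
    obtain ⟨t, ht⟩ : ∃ t : 𝓞 K, t * y - 1 ∈ Ideal.span {(2 : 𝓞 K)} := by
      obtain ⟨a, ha, b', hb', hab⟩ := Ideal.isCoprime_iff_exists.1 hy2'
      obtain ⟨t, rfl⟩ := Ideal.mem_span_singleton'.1 ha
      refine ⟨t, ?_⟩
      have e1 : t * y - 1 = -b' := by linear_combination hab
      rw [e1]
      exact neg_mem hb'
    obtain ⟨w, hw⟩ := Ideal.mem_span_singleton'.1 ht
    obtain ⟨j, rfl⟩ := Nat.exists_eq_add_of_le hJ
    refine ⟨y - 2 ^ (j + 2) * t * μ, ?_, ?_⟩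
    · have e2 : y - 2 ^ (j + 2) * t * μ - y = (-(2 ^ (j + 2) * t)) * μ := by ring
      have e3 : y - 2 ^ (j + 2) * t * μ - y = (-(2 ^ (j + 1) * t * μ)) * 2 := by ring
      refine IsCoprime.mul_right (coprime_of_sub_mem hym ?_)
        (IsCoprime.pow_right (coprime_of_sub_mem hy2' ?_))
      · rw [e2]
        exact m.mul_mem_left _ hμ
      · rw [e3]
        exact Ideal.mul_mem_left _ _ (Ideal.mem_span_singleton_self 2)
    · rw [Ideal.span_singleton_pow]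
      refine Ideal.mem_mul_span_singleton.2 ⟨μ * (-w + 2 ^ j * t ^ 2 * μ), m.mul_mem_right _ hμ, ?_⟩
      have e4 : (2 : 𝓞 K) ^ (3 + j + 1) = 2 ^ j * 16 := by ring
      have e5 : (2 : 𝓞 K) ^ (3 + j) = 2 ^ j * 8 := by ring
      have e6 : (2 : 𝓞 K) ^ (j + 2) = 2 ^ j * 4 := by ring
      rw [e5] at hμe
      rw [e4, e6]
      linear_combination hμe + (-(8 * 2 ^ j * μ)) * hw

end

end Pool.Agent.STp
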