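import Pool.Agent.Lib.MP_1ef7cf_nt_p.PK1


/-!
# The kernel of `Cl(m 2 ^ J) → Cl(8 m)` consists of squares; density
-/

set_option linter.unusedSectionVars false

open NumberField IsDedekindDomain nonZeroDivisors IntermediateField Filter Topology

namespace Pool.Agent.STp

section

open Pool.Agent.ST Pool.Agent.STb Pool.Agent.STd Pool.Agent.STf

variable {K : Type*} [Field K] [NumberField K] {σ₂ : K →+* ℝ} {m : Ideal (𝓞 K)}

/-- The kernel consists of squares.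
Proof: let `A = cls I` (`cls_surjective`), `pr A = 1`: `InRay σ₂ (m (2) ^ 3) I` (`pr_cls`,
`cls_eq_one_iff`), i.e. `I = (α)`, `α = a / b` with `b` prime to `m (2) ^ 3`, `a - b ∈ m (2) ^ 3`,
`σ₂ α > 0`. Apply `exists_sqrt` to `u = a b` and `b` (`b ^ 2 - a b = -b (a - b)`): `y` prime to
`m (2) ^ 3` and `y ^ 2 - a b ∈ m (2) ^ J`. Being prime to `m (2) ^ 3` implies being prime to
`m (2) ^ J` (prime to `m` and to `(2)`: `IsCoprime.of_mul_right_left`, `IsCoprime.of_mul_right_right`,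
`IsCoprime.pow_right_iff`). Let `B` be the class of the fractional ideal `(y / b)` (`uP`; in
`primeTo`: a quotient of the ideals `(y)`, `(b)`, `coe_mem_primeTo`, `Subgroup.div_mem`). Then
`A = B * B`: by `cls_eq_iff` (or `cls_eq_one_iff` for the quotient) because
`α / (y / b) ^ 2 = (a b) / y ^ 2` is `OneMod (m (2) ^ J)` with `σ₂ > 0` (`σ₂ ((a b) / y ^ 2) = σ₂ α *
(σ₂ b / σ₂ y) ^ 2`). -/
theorem ker_sq (hm : m ≠ ⊥) {J : ℕ} (hJ : 3 ≤ J)
    (h : m * Ideal.span {(2 : 𝓞 K)} ^ J ≤ m * Ideal.span {(2 : 𝓞 K)} ^ 3)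
    {A : RayClassGroup σ₂ (m * Ideal.span {(2 : 𝓞 K)} ^ J)} (hA : pr σ₂ h A = 1) :
    ∃ B, A = B * B := by
  obtain ⟨J0, rfl⟩ := cls_surjective _ A
  rw [pr_cls, cls_eq_one_iff, coe_inc] at hA
  have hI0 : Ideal.span {(2 : 𝓞 K)} ≠ ⊥ := by
    rw [Ne, Ideal.span_singleton_eq_bot]
    exact two_ne_zero
  have hMJ : m * Ideal.span {(2 : 𝓞 K)} ^ J ≠ ⊥ := by
    rw [← Ideal.zero_eq_bot]
    exact mul_ne_zero hm (pow_ne_zero _ hI0)
  obtain ⟨a, b, ha, hb, hab, ha0, hb0, hpos, hJ0⟩ := rep hMJ J0.2 hA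
  -- the square root
  have hsq : ∃ y : 𝓞 K, y ≠ 0 ∧ IsCoprime (Ideal.span {y}) (m * Ideal.span {(2 : 𝓞 K)} ^ J) ∧
      y ^ 2 - a * b ∈ m * Ideal.span {(2 : 𝓞 K)} ^ J := by
    have hu : b ^ 2 - a * b ∈ m * Ideal.span {(2 : 𝓞 K)} ^ 3 := by
      have e : b ^ 2 - a * b = -b * (a - b) := by ring
      rw [e]
      exact Ideal.mul_mem_left _ _ hab
    obtain ⟨y, hy, hyu⟩ := exists_sqrt (isCoprime_of_le hb h) hu hJ
    have hyJ : IsCoprime (Ideal.span {y}) (m * Ideal.span {(2 : 𝓞 K)} ^ J) := by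
      have h1 : IsCoprime (Ideal.span {y}) m := IsCoprime.of_mul_right_left hy
      have h2 : IsCoprime (Ideal.span {y}) (Ideal.span {(2 : 𝓞 K)} ^ 3) := IsCoprime.of_mul_right_right hy
      have h3 : IsCoprime (Ideal.span {y}) (Ideal.span {(2 : 𝓞 K)}) := (IsCoprime.pow_right_iff (by norm_num)).1 h2
      exact IsCoprime.mul_right h1 h3.pow_right
    by_cases hy0 : y = 0
    · subst hy0
      have htop : m * Ideal.span {(2 : 𝓞 K)} ^ J = ⊤ := by
        rw [Ideal.isCoprime_iff_sup_eq] at hyJ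
        rw [← hyJ, eq_comm, sup_eq_right, Ideal.span_singleton_le_iff_mem]
        exact Ideal.zero_mem _
      refine ⟨1, one_ne_zero, ?_, ?_⟩
      · rw [Ideal.isCoprime_iff_sup_eq, Ideal.span_singleton_one, top_sup_eq]
      · rw [htop]
        exact Submodule.mem_top
    · exact ⟨y, hy0, hyJ, hyu⟩
  obtain ⟨y, hy0, hyJ, hyu⟩ := hsq
  have ha0' : (a : K) ≠ 0 := by exact_mod_cast ha0
  have hb0' : (b : K) ≠ 0 := by exact_mod_cast hb0
  have hy0' : (y : K) ≠ 0 := by exact_mod_cast hy0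
  have hyp : uP (y : K) hy0' ∈ primeTo (m * Ideal.span {(2 : 𝓞 K)} ^ J) :=
    coe_mem_primeTo (I := Ideal.span {y}) (by rw [coe_uP, coe_span_singleton]) hyJ
  have hbp : uP (b : K) hb0' ∈ primeTo (m * Ideal.span {(2 : 𝓞 K)} ^ J) :=
    coe_mem_primeTo (I := Ideal.span {b}) (by rw [coe_uP, coe_span_singleton]) hb
  refine ⟨cls σ₂ (m * Ideal.span {(2 : 𝓞 K)} ^ J) (⟨uP (y : K) hy0', hyp⟩ * ⟨uP (b : K) hb0', hbp⟩⁻¹), ?_⟩
  rw [← map_mul, cls_eq_iff]
  refine ⟨((y ^ 2 : 𝓞 K) : K) / ((a * b : 𝓞 K) : K), ⟨y ^ 2, a * b, ?_, hyu, rfl⟩, ?_, ?_⟩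
  · rw [← Ideal.span_singleton_mul_span_singleton]
    exact IsCoprime.mul_left ha hb
  · have e : ((y ^ 2 : 𝓞 K) : K) / ((a * b : 𝓞 K) : K) =
        (y : K) ^ 2 / ((a : K) / (b : K) * (b : K) ^ 2) := by
      simp only [RingOfIntegers.coe_eq_algebraMap, map_mul, map_pow] at ha0' hb0' ⊢
      field_simp
    rw [e, map_div₀, map_mul, map_pow, map_pow]
    have h1 : σ₂ (y : K) ≠ 0 := by
      rw [Ne, map_eq_zero]
      exact hy0'
    have h2 : σ₂ (b : K) ≠ 0 := by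
      rw [Ne, map_eq_zero]
      exact hb0'
    positivity
  · rw [Units.val_mul, Units.val_inv_eq_inv_val, hJ0]
    change (FractionalIdeal.spanSingleton (𝓞 K)⁰ ((a : K) / (b : K)))⁻¹ *
      (((uP (y : K) hy0' * (uP (b : K) hb0')⁻¹) * (uP (y : K) hy0' * (uP (b : K) hb0')⁻¹) :
        (FI K)ˣ) : FI K) = _
    rw [Units.val_mul, Units.val_mul, Units.val_inv_eq_inv_val, coe_uP, coe_uP,
      FractionalIdeal.spanSingleton_inv, FractionalIdeal.spanSingleton_inv,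
      FractionalIdeal.spanSingleton_mul_spanSingleton,
      FractionalIdeal.spanSingleton_mul_spanSingleton,
      FractionalIdeal.spanSingleton_mul_spanSingleton]
    congr 1
    simp only [RingOfIntegers.coe_eq_algebraMap, map_mul, map_pow] at ha0' hb0' ⊢
    field_simp

end

end Pool.Agent.STp
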