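import Pool.Agent.Lib.MP_1ef7cf_nt_p.PK2


/-!
# The kernel of `Cl(m 2 ^ J) → Cl(8 m)` consists of squares; density
-/

set_option linter.unusedSectionVars false

open NumberField IsDedekindDomain nonZeroDivisors IntermediateField Filter Topology

namespace Pool.Agent.STp

section

open Pool.Agent.ST Pool.Agent.STb Pool.Agent.STd Pool.Agent.STf

variable {K : Type*} [Field K] [NumberField K] {σ₂ : K →+* ℝ} {m : Ideal (𝓞 K)}

/-- Finite approximation of the prime sum.
Proof: `S = {q | q ∣ M} ∪ {q | η < px 1 q}` is finite (`finite_dvd`; `px 1 q = (pn q)⁻¹ > η` means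
`pn q < 1 / η`: only finitely many primes have bounded norm: `Ideal.finite_setOf_absNorm_le` (or
`..._eq`), injectivity of `asIdeal`; the summability of `px 2` also gives it). For `s > 1` and
`q ∉ S`: `px s q ≤ px 1 q ≤ η` (`px_anti` or `Real.rpow_le_rpow_of_exponent_le` for negative
exponents). As `px s` is summable (`summable_px`) there is a finite set `Q₀` such that the sum of `px s`
outside of `Q₀` is `≤ 1` (`Summable.vanishing` / `HasSum` / `summable_iff_vanishing_norm`, or
`tendsto_tsum_compl_atTop_zero`); take `Q = Q₀.filter (∉ S)`. For an arbitrary set `X` of primes: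
`∑' q, X.indicator (px s) q ≤ ∑ q ∈ Q.filter (∈ X), px s q + (sum over X ∩ S) + 1`, and the sum over
`X ∩ S` is at most `D = S.ncard` (each `px s q ≤ 1`), independent of `s`. -/
theorem exists_finset_approx {M : Ideal (𝓞 K)} (hM : M ≠ ⊥) {η : ℝ} (hη : 0 < η) :
    ∃ D : ℝ, ∀ s : ℝ, 1 < s → ∃ Q : Finset (PrI K),
      (∀ q ∈ Q, ¬ q.asIdeal ∣ M ∧ px s q ≤ η) ∧
      open Classical in
      ∀ X : Set (PrI K), ∑' q, X.indicator (px s) q ≤ ∑ q ∈ Q.filter (fun q => q ∈ X), px s q + D := by
  classical
  have hfin1 : {q : PrI K | q.asIdeal ∣ M}.Finite := finite_dvd hM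
  have hfin2 : {q : PrI K | η < px 1 q}.Finite := by
    have h1 : ∀ᶠ q : PrI K in cofinite, px 2 q < η ^ 2 :=
      ((summable_px (F := K) one_lt_two).tendsto_cofinite_zero).eventually_lt_const (by positivity)
    rw [Filter.eventually_cofinite] at h1
    refine h1.subset fun q hq => ?_
    have h2 : η < px 1 q := hq
    have h3 := px_sq (le_refl (1 : ℝ)) q
    change ¬ px 2 q < η ^ 2
    rw [not_lt]
    refine le_trans ?_ h3
    exact pow_le_pow_left₀ hη.le h2.le 2
  have hfin : ({q : PrI K | q.asIdeal ∣ M} ∪ {q : PrI K | η < px 1 q}).Finite :=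
    hfin1.union hfin2
  refine ⟨hfin.toFinset.card + 1, fun s hs => ?_⟩
  have hsum := summable_px (F := K) hs
  obtain ⟨Q₀, hQ₀⟩ : ∃ Q₀ : Finset (PrI K), ∑' q, px s q - 1 < ∑ q ∈ Q₀, px s q := by
    have h1 : ∀ᶠ Q : Finset (PrI K) in atTop, ∑' q, px s q - 1 < ∑ q ∈ Q, px s q :=
      hsum.hasSum.eventually_const_lt (sub_one_lt _)
    exact h1.exists
  refine ⟨Q₀.filter (fun q => q ∉ hfin.toFinset), ?_, ?_⟩
  · intro q hq
    have h1 := (Finset.mem_filter.1 hq).2
    rw [Set.Finite.mem_toFinset] at h1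
    have h2 : ¬ q.asIdeal ∣ M := fun h => h1 (Or.inl h)
    have h3 : ¬ η < px 1 q := fun h => h1 (Or.inr h)
    exact ⟨h2, (px_anti hs.le q).trans (not_lt.1 h3)⟩
  · intro X
    have hg : Summable (X.indicator (px (F := K) s)) := hsum.indicator X
    have hle : ∀ q, X.indicator (px s) q ≤ px s q := fun q =>
      Set.indicator_le_self' (fun q _ => (px_pos s q).le) q
    have h1 : ∑ q ∈ Q₀, (px s q - X.indicator (px s) q) ≤
        ∑' q, (px s q - X.indicator (px s) q) :=
      (hsum.sub hg).sum_le_tsum Q₀ fun q _ => sub_nonneg.2 (hle q)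
    rw [hsum.tsum_sub hg, Finset.sum_sub_distrib] at h1
    have h2 : ∑' q, X.indicator (px s) q ≤ ∑ q ∈ Q₀, X.indicator (px s) q + 1 := by linarith
    have h3 : ∑ q ∈ Q₀, X.indicator (px s) q ≤
        ∑ q ∈ (Q₀.filter (fun q => q ∉ hfin.toFinset)).filter (fun q => q ∈ X), px s q +
          hfin.toFinset.card := by
      rw [← Finset.sum_filter_add_sum_filter_not Q₀ (fun q => q ∉ hfin.toFinset)]
      refine add_le_add (le_of_eq ?_) ?_
      · rw [Finset.sum_filter (s := Q₀.filter (fun q => q ∉ hfin.toFinset))]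
        refine Finset.sum_congr rfl fun q _ => ?_
        rw [Set.indicator_apply]
      · calc ∑ q ∈ Q₀.filter (fun q => ¬ q ∉ hfin.toFinset), X.indicator (px s) q
            ≤ ∑ q ∈ Q₀.filter (fun q => ¬ q ∉ hfin.toFinset), (1 : ℝ) :=
              Finset.sum_le_sum fun q _ => (hle q).trans
                ((px_le_half hs.le q).trans (by norm_num))
          _ = ((Q₀.filter (fun q => ¬ q ∉ hfin.toFinset)).card : ℝ) := by simp
          _ ≤ hfin.toFinset.card := by
              have h4 : Q₀.filter (fun q => ¬ q ∉ hfin.toFinset) ⊆ hfin.toFinset := by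
                intro q hq
                exact not_not.1 (Finset.mem_filter.1 hq).2
              exact_mod_cast Finset.card_le_card h4
    linarith

end

end Pool.Agent.STp
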