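import Pool.Agent.Lib.MP_1ef7cf_nt_p.PD


/-!
# Descent of the filtration to divisors of the modulus
-/

set_option linter.unusedSectionVars false

open NumberField IsDedekindDomain nonZeroDivisors IntermediateField

namespace Pool.Agent.STp

section

open Pool.Agent.ST Pool.Agent.STb Pool.Agent.STd Pool.Agent.STf

variable {K : Type*} [Field K] [NumberField K] [Algebra K ℝ] {σ₂ : K →+* ℝ} {n' n m : Ideal (𝓞 K)}
  {H H' : IntermediateField K ℝ} {Art : RayClassGroup σ₂ n ≃* (H ≃ₐ[K] H)}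
  {Art' : RayClassGroup σ₂ n' ≃* (H' ≃ₐ[K] H')}

/-- Descent of the ratio property.
Proof: `H ≤ H'` by `IsRCF.le`, and `ratio_desc hle` for the function
`σ ↦ exp (-2 f (Art.symm σ))`: for `δ` in the Galois group of `H'`, `δ = Art' A'`, we have
`Art.symm (res hle δ) = pr σ₂ h A'` by `IsRCF.res_art`, so
`exp (-2 f (Art.symm (res hle δ))) = exp (-2 f (pr σ₂ h (Art'.symm δ)))`. -/
theorem pull_mem (h : n' ≤ n) (hn' : n' ≠ ⊥) (hr : IsRayClassField σ₂ n H Art)
    (hr' : IsRayClassField σ₂ n' H' Art') {f : RayClassGroup σ₂ n → ℝ}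
    (hf : (fun A' => f (pr σ₂ h A')) ∈ NR Art') : f ∈ NR Art := by
  have := hr.finite
  have := hr'.finite
  have : IsAbelianGalois K H := hr.isRCF.abelian
  have : IsAbelianGalois K H' := hr'.isRCF.abelian
  have hle : H ≤ H' := IsRCF.le h hn' Set.finite_empty Set.finite_empty hr'.isRCF hr.isRCF
  have h2 : (fun δ => Real.exp (-2 * f (pr σ₂ h (Art'.symm δ)))) =
      fun δ => (fun σ => Real.exp (-2 * f (Art.symm σ))) (res hle δ) := by
    funext δ
    obtain ⟨A', rfl⟩ := Art'.surjective δ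
    simp only
    rw [MulEquiv.symm_apply_apply,
      IsRCF.res_art h hn' Set.finite_empty Set.finite_empty hr'.isRCF hr.isRCF,
      MulEquiv.symm_apply_apply]
  have h1 : Ratio σ₂ H' (fun δ => Real.exp (-2 * f (pr σ₂ h (Art'.symm δ)))) := hf
  rw [h2] at h1
  exact ratio_desc hle h1

/-- Proof: `res hle` is surjective (`res_surjective`), and
`res hle (Art' A') = Art (pr σ₂ h A')` (`IsRCF.res_art`), so `pr σ₂ h` is surjective. -/
theorem pr_surjective_of_rcf (h : n' ≤ n) (hn' : n' ≠ ⊥) (hr : IsRayClassField σ₂ n H Art)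
    (hr' : IsRayClassField σ₂ n' H' Art') : Function.Surjective (pr σ₂ h) := by
  have := hr.finite
  have := hr'.finite
  have : IsAbelianGalois K H := hr.isRCF.abelian
  have : IsAbelianGalois K H' := hr'.isRCF.abelian
  have hle : H ≤ H' := IsRCF.le h hn' Set.finite_empty Set.finite_empty hr'.isRCF hr.isRCF
  intro A
  obtain ⟨δ, hδ⟩ := res_surjective hle (Art A)
  obtain ⟨A', rfl⟩ := Art'.surjective δ
  rw [IsRCF.res_art h hn' Set.finite_empty Set.finite_empty hr'.isRCF hr.isRCF] at hδ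
  exact ⟨A', Art.injective hδ⟩

/-- Proof: induction on `j` generalizing `f`; `dl a' (fun A' => f (pr A')) =
fun A' => (dl (pr a') f) (pr A')` and `pr` is surjective (`pr_surjective_of_rcf`), `mem_Fl_succ`. -/
theorem pull_Fl (h : n' ≤ n) (hn' : n' ≠ ⊥) (hr : IsRayClassField σ₂ n H Art)
    (hr' : IsRayClassField σ₂ n' H' Art') {j : ℕ} {f : RayClassGroup σ₂ n → ℝ}
    (hf : (fun A' => f (pr σ₂ h A')) ∈ Fl (NR Art') j) : f ∈ Fl (NR Art) j := by
  induction j generalizing f with
  | zero => exact pull_mem h hn' hr hr' hf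
  | succ j ih =>
    rw [mem_Fl_succ] at hf ⊢
    intro a
    obtain ⟨a', rfl⟩ := pr_surjective_of_rcf h hn' hr hr' a
    apply ih
    have h1 := hf a'
    have h2 : dl a' (fun A' => f (pr σ₂ h A')) = fun A' => dl (pr σ₂ h a') f (pr σ₂ h A') := by
      funext A'
      rw [dl_apply, dl_apply, map_mul]
    rw [h2] at h1
    exact h1

end

end Pool.Agent.STp
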