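import Pool.Agent.Lib.MP_1ef7cf_nt_p.PA2


/-!
# Norm relations for several primes on the level of class groups
-/

set_option linter.unusedSectionVars false

open NumberField IsDedekindDomain nonZeroDivisors IntermediateField

namespace Pool.Agent.STp

section

open Pool.Agent.ST Pool.Agent.STb Pool.Agent.STd Pool.Agent.STf

variable {K : Type*} [Field K] [NumberField K] {σ₂ : K →+* ℝ} {n'' n' n m : Ideal (𝓞 K)}

/-- `pu` as a sum over a finite set.
Proof: unfold `pu`; `finsum_mem_eq_finite_toFinset_sum` or `finsum_mem_congr` and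
`finsum_mem_coe_finset` (`{A' | pr σ₂ h A' = A} = ↑S`). -/
theorem pu_eq_sum (h : n' ≤ n) (f : RayClassGroup σ₂ n' → ℝ) (A : RayClassGroup σ₂ n)
    {S : Finset (RayClassGroup σ₂ n')} (hS : ∀ A', A' ∈ S ↔ pr σ₂ h A' = A) :
    pu h f A = ∑ A' ∈ S, f A' := by
  unfold pu
  have h1 : {A' | pr σ₂ h A' = A} = (S : Set (RayClassGroup σ₂ n')) := by
    ext A'
    exact (hS A').symm
  rw [h1, finsum_mem_coe_finset]

/-- Transitivity.
Proof: choose `Fintype` instances (`Fintype.ofFinite`) and use `pu_eq_sum` with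
`Finset.univ.filter _` (classical decidability); `pr_pr` gives `pr h2 (pr h1 A'') = pr _ A''`, and
`Finset.sum_fiberwise_of_maps_to`. -/
theorem pu_pu (h1 : n'' ≤ n') (h2 : n' ≤ n) [Finite (RayClassGroup σ₂ n'')]
    [Finite (RayClassGroup σ₂ n')] (f : RayClassGroup σ₂ n'' → ℝ) :
    pu h2 (pu h1 f) = pu (h1.trans h2) f := by
  classical
  let _ : Fintype (RayClassGroup σ₂ n'') := Fintype.ofFinite _
  let _ : Fintype (RayClassGroup σ₂ n') := Fintype.ofFinite _
  funext A
  rw [pu_eq_sum (h1.trans h2) f A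
      (S := Finset.univ.filter fun A'' => pr σ₂ (h1.trans h2) A'' = A) (by simp),
    pu_eq_sum h2 (pu h1 f) A (S := Finset.univ.filter fun A' => pr σ₂ h2 A' = A) (by simp)]
  have h3 : ∀ A', pu h1 f A' =
      ∑ A'' ∈ Finset.univ.filter (fun A'' => pr σ₂ h1 A'' = A'), f A'' :=
    fun A' => pu_eq_sum h1 f A' (by simp)
  rw [Finset.sum_congr rfl fun A' _ => h3 A']
  rw [← Finset.sum_fiberwise_of_maps_to
    (s := Finset.univ.filter fun A'' => pr σ₂ (h1.trans h2) A'' = A)
    (t := Finset.univ.filter fun A' => pr σ₂ h2 A' = A) (g := fun A'' => pr σ₂ h1 A'')]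
  · refine Finset.sum_congr rfl fun A' hA' => Finset.sum_congr ?_ fun _ _ => rfl
    rw [Finset.mem_filter] at hA'
    ext A''
    rw [Finset.mem_filter, Finset.mem_filter, Finset.mem_filter]
    constructor
    · rintro ⟨h4, h5⟩
      exact ⟨⟨h4, by rw [← pr_pr h1 h2, h5, hA'.2]⟩, h5⟩
    · rintro ⟨⟨h4, -⟩, h5⟩
      exact ⟨h4, h5⟩
  · intro A'' hA''
    rw [Finset.mem_filter] at hA'' ⊢
    exact ⟨Finset.mem_univ _, by rw [pr_pr, hA''.2]⟩

/-- Compatibility with the differences.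
Proof: at `A`: `∑ (f A' - f (A' * a))` over the `A'` over `A`; the map `A' ↦ A' * a` is a bijection
from the fibre of `A` to the fibre of `A * pr a` (`Finset.sum_bij` or `Finset.sum_nbij'` with inverse
`A' ↦ A' * a⁻¹`). Use `pu_eq_sum` for both fibres. -/
theorem pu_dl (h : n' ≤ n) [Finite (RayClassGroup σ₂ n')] (a : RayClassGroup σ₂ n')
    (f : RayClassGroup σ₂ n' → ℝ) : pu h (dl a f) = dl (pr σ₂ h a) (pu h f) := by
  classical
  let _ : Fintype (RayClassGroup σ₂ n') := Fintype.ofFinite _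
  funext A
  rw [dl_apply,
    pu_eq_sum h (dl a f) A (S := Finset.univ.filter fun A' => pr σ₂ h A' = A) (by simp),
    pu_eq_sum h f A (S := Finset.univ.filter fun A' => pr σ₂ h A' = A) (by simp),
    pu_eq_sum h f (A * pr σ₂ h a)
      (S := Finset.univ.filter fun A' => pr σ₂ h A' = A * pr σ₂ h a) (by simp)]
  simp only [dl_apply]
  rw [Finset.sum_sub_distrib]
  congr 1
  refine Finset.sum_nbij' (fun A' => A' * a) (fun A' => A' * a⁻¹) ?_ ?_ ?_ ?_ ?_
  · intro A' hA'
    rw [Finset.mem_filter] at hA' ⊢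
    exact ⟨Finset.mem_univ _, by rw [map_mul, hA'.2]⟩
  · intro A' hA'
    rw [Finset.mem_filter] at hA' ⊢
    exact ⟨Finset.mem_univ _, by rw [map_mul, hA'.2, map_inv, mul_inv_cancel_right]⟩
  · intro A' _
    exact mul_inv_cancel_right A' a
  · intro A' _
    exact inv_mul_cancel_right A' a
  · intro A' _
    rfl

/-- Proof: induction on `r` with `ap_empty`, `ap_insert` and `pu_dl`
(`Finset.induction_on`, classical). -/
theorem pu_ap (h : n' ≤ n) [Finite (RayClassGroup σ₂ n')] {ι : Type*}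
    (φ : ι → RayClassGroup σ₂ n') (r : Finset ι) (f : RayClassGroup σ₂ n' → ℝ) :
    pu h (ap φ r f) = ap (fun q => pr σ₂ h (φ q)) r (pu h f) := by
  classical
  induction r using Finset.induction_on with
  | empty => rw [ap_empty, ap_empty]
  | insert q r hq ih => rw [ap_insert φ hq, ap_insert _ hq, pu_dl, ih]

/-- Proof: `fr_eq` for both; `pr_cls`, and `inc h (prJ n' q _) = prJ n q _` (`rfl` or
`Subtype.ext rfl`; compare the proof of `IsRCF.le` in `MP_1ef7cf_nt/RCF.lean`, where the equality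
`cls n (prJ n ..) = pr (cls n' (prJ n' ..))` is `rfl`). `¬ q ∣ n` by `not_dvd_of_le h hq`. -/
theorem pr_fr (h : n' ≤ n) {q : PrI K} (hq : ¬ q.asIdeal ∣ n') :
    pr σ₂ h (fr σ₂ n' q) = fr σ₂ n q := by
  rw [fr_eq σ₂ hq, fr_eq σ₂ (not_dvd_of_le h hq)]
  rfl

end

end Pool.Agent.STp
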