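import Pool.Agent.Lib.MP_1ef7cf_nt_p.PB3
import Pool.Agent.Lib.MP_1ef7cf_nt_p.PM1
import Pool.Agent.Lib.MP_1ef7cf_nt_p.PM3
import Pool.Agent.Lib.MP_1ef7cf_nt_p.PN1


/-!
# Descent of the filtration to divisors of the modulus
-/

set_option linter.unusedSectionVars false

open NumberField IsDedekindDomain nonZeroDivisors IntermediateField

namespace Pool.Agent.STp

section

open Pool.Agent.ST Pool.Agent.STb Pool.Agent.STd Pool.Agent.STf

variable {K : Type*} [Field K] [NumberField K] [Algebra K ℝ] {σ₂ : K →+* ℝ} {n' n m : Ideal (𝓞 K)}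
  {H H' : IntermediateField K ℝ} {Art : RayClassGroup σ₂ n ≃* (H ≃ₐ[K] H)}
  {Art' : RayClassGroup σ₂ n' ≃* (H' ≃ₐ[K] H')}

/-- The sums over the fibres as a function on the large group.
Proof: the fibre of `pr` over `pr A'` is the coset of `A'` modulo the kernel `P`; so
`pu h f (pr A') = ∑ p ∈ P, f (A' * p) = nu P f A'`. With `pu_eq_sum` for
`S = Finset.univ.filter _` and `finsum_eq_sum_of_fintype`; the bijection `P → S`, `p ↦ A' * p`. -/
theorem pu_pr (h : n' ≤ n) [Finite (RayClassGroup σ₂ n')] (f : RayClassGroup σ₂ n' → ℝ)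
    (A' : RayClassGroup σ₂ n') : pu h f (pr σ₂ h A') = nu (pr σ₂ h).ker f A' := by
  classical
  let _ : Fintype (RayClassGroup σ₂ n') := Fintype.ofFinite _
  have hS : ∀ B, B ∈ Finset.univ.filter (fun B => pr σ₂ h B = pr σ₂ h A') ↔
      pr σ₂ h B = pr σ₂ h A' := by simp
  rw [pu_eq_sum h f _ hS]
  unfold nu
  rw [finsum_eq_sum_of_fintype]
  symm
  refine Finset.sum_bij (fun p _ => A' * (p : RayClassGroup σ₂ n')) ?_ ?_ ?_ ?_
  · intro p _
    rw [hS, map_mul, MonoidHom.mem_ker.1 p.2, mul_one]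
  · intro p _ p' _ hpp
    exact Subtype.ext (mul_left_cancel hpp)
  · intro B hB
    rw [hS] at hB
    refine ⟨⟨A'⁻¹ * B, ?_⟩, Finset.mem_univ _, mul_inv_cancel_left A' B⟩
    rw [MonoidHom.mem_ker, map_mul, map_inv, hB, inv_mul_cancel]
  · intro p _
    rfl

/-- The norm lowers the order.
Proof: `Cl(n')` is finite (`finite_cl`), `nu_mem (trInv_NR Art') hf _ hd hF` gives
`nu P f ∈ Fl (NR Art') j`, `P` the kernel; by `pu_pr` this is the function
`A' ↦ pu h f (pr A')`; apply `pull_Fl`. -/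
theorem norm_level (h : n' ≤ n) (hn' : n' ≠ ⊥) (hr : IsRayClassField σ₂ n H Art)
    (hr' : IsRayClassField σ₂ n' H' Art') {c : RayClassGroup σ₂ n'} {f : RayClassGroup σ₂ n' → ℝ}
    (hf : ∀ A, f (A * c) = -f A) {d j : ℕ} (hd : 2 ^ d ∣ Nat.card (pr σ₂ h).ker)
    (hF : f ∈ Fl (NR Art') (d + j)) : pu h f ∈ Fl (NR Art) j := by
  have hfin : Finite (RayClassGroup σ₂ n') := finite_cl hr'
  have h1 := nu_mem (trInv_NR Art') hf (P := (pr σ₂ h).ker) inferInstance hd hF
  apply pull_Fl h hn' hr hr'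
  have h2 : (fun A' => pu h f (pr σ₂ h A')) = nu (pr σ₂ h).ker f :=
    funext fun A' => pu_pr h f A'
  rw [h2]
  exact h1

/-- The order of the kernel is the degree.
Proof: as in `even_fib_of_ray` (`MP_1ef7cf_nt/TwoLevel.lean`) the left side is
`Nat.card (res hle).ker`; the isomorphism `Art'` maps `(pr σ₂ h).ker` onto `(res hle).ker` because
`res hle (Art' A) = Art (pr σ₂ h A)` (`IsRCF.res_art`): `Nat.card_congr` with
`Equiv.subtypeEquiv Art'.toEquiv`. -/
theorem card_fib_eq (h : n' ≤ n) (hn' : n' ≠ ⊥) (hr : IsRayClassField σ₂ n H Art)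
    (hr' : IsRayClassField σ₂ n' H' Art') [Normal K H] [FiniteDimensional K H'] (hle : H ≤ H') :
    (fib hle (1 : H ≃ₐ[K] H)).card = Nat.card (pr σ₂ h).ker := by
  have h3 : (fib hle (1 : H ≃ₐ[K] H)).card = Nat.card (res hle).ker := by
    rw [← Nat.card_eq_finsetCard]
    refine Nat.card_congr (Equiv.subtypeEquivRight fun γ => ?_)
    rw [mem_fib, MonoidHom.mem_ker]
  rw [h3]
  symm
  refine Nat.card_congr (Equiv.subtypeEquiv Art'.toEquiv fun A => ?_)
  rw [MonoidHom.mem_ker, MonoidHom.mem_ker]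
  have h4 := IsRCF.res_art h hn' Set.finite_empty Set.finite_empty hr'.isRCF hr.isRCF hle A
  constructor
  · intro h5
    change res hle (Art' A) = 1
    rw [h4, h5, map_one]
  · intro h5
    change res hle (Art' A) = 1 at h5
    rw [h4] at h5
    apply Art.injective
    rw [h5, map_one]

end

end Pool.Agent.STp
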