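import Pool.Agent.Lib.MP_1ef7cf_nt_p.PD


/-!
# Norm relations for several primes on the level of class groups
-/

set_option linter.unusedSectionVars false

open NumberField IsDedekindDomain nonZeroDivisors IntermediateField

namespace Pool.Agent.STp

section

open Pool.Agent.ST Pool.Agent.STb Pool.Agent.STd Pool.Agent.STf

variable {K : Type*} [Field K] [NumberField K] {σ₂ : K →+* ℝ} {n'' n' n m : Ideal (𝓞 K)}

/-- Proof: `q.asIdeal ∣ M * prd r` with `q` prime divides `M` or `prd r`; in the second
case it divides `p.asIdeal` for some `p ∈ r` (`Prime.exists_mem_finset_dvd`), so `q = p`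
(`eq_of_dvd_prime`). -/
theorem dvd_prd {r : Finset (PrI K)} {q : PrI K} (h : q.asIdeal ∣ prd r) : q ∈ r := by
  unfold prd at h
  obtain ⟨p, hp, hqp⟩ := (Prime.dvd_finsetProd_iff q.prime _).1 h
  rw [eq_of_dvd_prime hqp]
  exact hp

/-- Proof: `Finset.prod_ne_zero_iff`, `q.ne_bot`, `Ideal.zero_eq_bot`. -/
theorem prd_ne_bot (r : Finset (PrI K)) : prd r ≠ ⊥ := by
  unfold prd
  rw [← Ideal.zero_eq_bot, Finset.prod_ne_zero_iff]
  intro q _
  rw [Ideal.zero_eq_bot]
  exact q.ne_bot

/-- `prd` of an insertion. Proof: `Finset.prod_insert`. -/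
theorem prd_insert [DecidableEq (PrI K)] {q : PrI K} {r : Finset (PrI K)} (hq : q ∉ r) :
    prd (insert q r) = q.asIdeal * prd r := by
  unfold prd
  rw [Finset.prod_insert hq]

/-- Surjectivity of the map of the class groups.
Proof: induction on `r` (classical, `Finset.induction_on`) generalizing `M`: `r = ∅`: `prd ∅ = 1`, the
map is the identity up to the equality `M * 1 = M` (for `h : M * prd ∅ ≤ M`: for `A = cls M J`, the
element `cls (M * prd ∅) ⟨J, _⟩` is mapped to it; membership in `primeTo` because
`v ∣ M * 1 → v ∣ M`). Step `insert q r`: `M * prd (insert q r) = M * q * prd r`;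
`pr : Cl(M q prd r) → Cl(M q)` is surjective by induction (for `p ∈ r` we have `¬ p ∣ M * q`, by
`dvd_mul_prime`), `pr : Cl(M q) → Cl(M)` is surjective by `pr_surjective`; the composition is `pr` by
`pr_pr`. (It is convenient to prove the statement for all `N` with `N = M * prd r` and `h : N ≤ M`.) -/
theorem pr_prd_surjective {M N : Ideal (𝓞 K)} (hM : M ≠ ⊥) (r : Finset (PrI K))
    (hr : ∀ q ∈ r, ¬ q.asIdeal ∣ M) (hN : N = M * prd r) (h : N ≤ M) :
    Function.Surjective (pr σ₂ h) := by
  classical
  induction r using Finset.induction_on generalizing M N with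
  | empty =>
    have hNM : N = M := by
      rw [hN]
      unfold prd
      rw [Finset.prod_empty, mul_one]
    subst hNM
    intro A
    exact ⟨A, pr_refl h A⟩
  | insert q r hq ih =>
    have h1 : N = M * q.asIdeal * prd r := by rw [hN, prd_insert hq, mul_assoc]
    have h2 : N ≤ M * q.asIdeal := by rw [h1]; exact Ideal.mul_le_left
    have h3 : M * q.asIdeal ≤ M := Ideal.mul_le_left
    have hqM : ¬ q.asIdeal ∣ M := hr q (Finset.mem_insert_self q r)
    have s1 : Function.Surjective (pr σ₂ h2) := by
      refine ih (mul_ne_bot' hM q.ne_bot) (fun p hp hd => ?_) h1 h2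
      rcases dvd_mul_prime hd with hd | hd
      · exact hr p (Finset.mem_insert_of_mem hp) hd
      · rw [hd] at hp
        exact hq hp
    have s2 : Function.Surjective (pr σ₂ h3) := pr_surjective h3 rfl hM hqM
    intro A
    obtain ⟨B, rfl⟩ := s2 A
    obtain ⟨C, rfl⟩ := s1 B
    exact ⟨C, (pr_pr h2 h3 C).symm⟩

end

end Pool.Agent.STp
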