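import Pool.Agent.Lib.MP_1ef7cf_nt_p.PS1


/-!
# Increasing the order by adding a prime
-/

set_option linter.unusedSectionVars false

open NumberField IsDedekindDomain nonZeroDivisors IntermediateField Filter Topology

namespace Pool.Agent.STp

section

open Pool.Agent.ST Pool.Agent.STb Pool.Agent.STd Pool.Agent.STf

variable {K : Type*} [Field K] [NumberField K] [Algebra K ℝ] {σ₂ : K →+* ℝ} {m n : Ideal (𝓞 K)}
  {H : IntermediateField K ℝ} {Art : RayClassGroup σ₂ m ≃* (H ≃ₐ[K] H)}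

/-- First step.
Proof: this is the proof of `ratioP_of_closure` (`MP_1ef7cf_nt_f/GC.lean`) with `diff_level` replaced by
the hypothesis: `ι = {q // ¬ q ∣ m ∧ 4 ∣ pn q - 1}`; for `i : ι` the hypothesis gives `L`, `ArtL`, `hL`
and `zd ∈ Fl (NR ArtL) 1`, i.e. (`mem_Fl_succ`, `dl_apply`) for each `A` the function
`B ↦ zd B - zd (B * A)` is in `NR ArtL`, i.e. `Ratio σ₂ L (fun σ => ez σ / ez (σ * ArtL A))`
(`Real.exp_sub`, `ArtL` is surjective); then `pf_of_four` etc. The elements `Art (cls ..)` for `i : ι`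
generate the Galois group: otherwise the closure `T` is a proper subgroup and `exists_prime_four` gives
an element of the generating set outside of `T` (transport `T` to `RayClassGroup σ₂ m` by
`T.comap Art`). -/
theorem step_zero (h2 : Module.finrank ℚ K = 2) (hσ : σ₂ ≠ sg1 K) (hm : m ≠ ⊥) (hm1 : m ≠ ⊤)
    (h4 : ∀ w : (𝓞 K)ˣ, EU σ₂ m w → ∃ x : (𝓞 K)ˣ, w = x ^ 4)
    (hr : IsRayClassField σ₂ m H Art)
    (hF : ∀ q : PrI K, ¬ q.asIdeal ∣ m → 4 ∣ pn q - 1 → ∃ (H' : IntermediateField K ℝ)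
      (Art' : RayClassGroup σ₂ (m * q.asIdeal) ≃* (H' ≃ₐ[K] H')),
      IsRayClassField σ₂ (m * q.asIdeal) H' Art' ∧ zd σ₂ (m * q.asIdeal) ∈ Fl (NR Art') 1) :
    zd σ₂ m ∈ NR Art := by
  classical
  have hfdH := hr.finite
  have habH : IsAbelianGalois K H := hr.isRCF.abelian
  let ι := {q : PrI K // ¬ q.asIdeal ∣ m ∧ 4 ∣ pn q - 1}
  have key : ∀ i : ι, ∃ u, IsSU σ₂ H u ∧ ∀ τ, act τ u = ez σ₂ m Art τ /
      ez σ₂ m Art (τ * (Art (cls σ₂ m (prJ m i.1 i.2.1)))⁻¹) := by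
    rintro ⟨q, hq, hq4⟩
    have hle' : m * q.asIdeal ≤ m := Ideal.mul_le_left
    have hne' : m * q.asIdeal ≠ ⊥ := mul_ne_bot' hm q.ne_bot
    have hne1 : m * q.asIdeal ≠ ⊤ := ne_top_of_le_ne_top hm1 hle'
    obtain ⟨L, ArtL, hL, hD₀⟩ := hF q hq hq4
    have := hL.finite
    have : IsAbelianGalois K L := hL.isRCF.abelian
    have hD : ∀ a, Ratio σ₂ L (fun σ => ez σ₂ (m * q.asIdeal) ArtL σ /
        ez σ₂ (m * q.asIdeal) ArtL (σ * a)) := by
      intro a
      obtain ⟨A, rfl⟩ := ArtL.surjective a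
      have h5 : Ratio σ₂ L (fun σ => Real.exp (-2 *
        dl A (zd σ₂ (m * q.asIdeal)) (ArtL.symm σ))) := mem_Fl_succ.1 hD₀ A
      have h6 : (fun σ => Real.exp (-2 * dl A (zd σ₂ (m * q.asIdeal)) (ArtL.symm σ))) =
          fun σ => ez σ₂ (m * q.asIdeal) ArtL σ / ez σ₂ (m * q.asIdeal) ArtL (σ * ArtL A) := by
        funext σ
        unfold ez
        rw [dl_apply, ← Real.exp_sub, map_mul, MulEquiv.symm_apply_apply]
        congr 1
        ring
      rw [h6] at h5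
      exact h5
    have hle : H ≤ L := IsRCF.le hle' hne' Set.finite_empty Set.finite_empty hL.isRCF hr.isRCF
    have hcard := four_dvd_card hm hq hr hL hle hq4 fun w hw => by
      obtain ⟨x, rfl⟩ := h4 w hw
      exact ⟨Ideal.Quotient.mk _ (x : 𝓞 K), by rw [← map_pow]; rfl⟩
    have hP := pf_of_four hle (fun σ => ez_pos σ) (ez_prod h2 hσ hne' hne1 ArtL) hD hcard
    refine ⟨_, hP.su, fun τ => ?_⟩
    rw [hP.act]
    exact pf_prime h2 hσ hm hm1 hq rfl hr hL hle τ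
  choose u hu hact using key
  have hgen' : Subgroup.closure (Set.range fun i : ι => Art (cls σ₂ m (prJ m i.1 i.2.1))) = ⊤ := by
    by_contra hcon
    set T := Subgroup.closure (Set.range fun i : ι => Art (cls σ₂ m (prJ m i.1 i.2.1))) with hT
    have hT' : T.comap (Art : RayClassGroup σ₂ m →* (H ≃ₐ[K] H)) ≠ ⊤ := by
      intro h5
      apply hcon
      rw [eq_top_iff]
      intro σ _
      obtain ⟨A, rfl⟩ := Art.surjective σ
      have h6 : A ∈ T.comap (Art : RayClassGroup σ₂ m →* (H ≃ₐ[K] H)) := by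
        rw [h5]; exact Subgroup.mem_top _
      exact h6
    obtain ⟨q, hq, hq4, hqT⟩ := exists_prime_four hm hr hT'
    apply hqT
    rw [fr_eq σ₂ hq]
    exact Subgroup.subset_closure ⟨⟨q, hq, hq4⟩, rfl⟩
  exact ratio_core σ₂ _ (fun σ => ez_pos σ)
    (fun i : ι => Art (cls σ₂ m (prJ m i.1 i.2.1))) (fun _ => H) (fun _ => le_rfl) u hu
    (fun i σ => by rw [fibProd_refl, hact]; rfl) hgen'

end

end Pool.Agent.STp
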