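import Mathlib


/-!
# The final estimates
-/

open Filter Topology

namespace Pool.Agent.STp

section



/-- `k! ≤ e k (k / e) ^ k` for `k ≥ 1`.
Proof: induction on `k` (`Nat.le_induction`). `k = 1`: `1 ≤ e * 1 * (1 / e)`. Step: the right side for
`k + 1` divided by that for `k` is `(k + 1) * (1 + 1 / k) ^ (k + 1) / e ≥ k + 1`, because
`(1 + 1 / k) ^ (k + 1) ≥ e`, i.e. `(k + 1) log (1 + 1 / k) ≥ 1`, from
`log (1 + 1 / k) = -log (1 - 1 / (k + 1)) ≥ 1 / (k + 1)` (`Real.add_one_le_exp` or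
`Real.log_le_sub_one_of_pos`). (If Mathlib has a stronger form of Stirling's formula it may be used:
any constant and any power of `k` in place of `e k` is fine if PX2 is adapted.) -/
theorem factorial_le (k : ℕ) (hk : 1 ≤ k) :
    (k.factorial : ℝ) ≤ Real.exp 1 * k * (k / Real.exp 1) ^ k := by
  have he : 0 < Real.exp 1 := Real.exp_pos 1
  induction k, hk using Nat.le_induction with
  | base =>
    simp only [Nat.factorial_one, Nat.cast_one, mul_one, pow_one]
    rw [mul_one_div, div_self he.ne']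
  | succ k hk ih =>
    have hk0 : (0 : ℝ) < k := by exact_mod_cast hk
    have hk1 : (0 : ℝ) < (k : ℝ) + 1 := by linarith
    have key : Real.exp 1 * (k : ℝ) ^ (k + 1) ≤ ((k : ℝ) + 1) ^ (k + 1) := by
      have h1 : Real.exp (1 / ((k : ℝ) + 1)) * k ≤ (k : ℝ) + 1 := by
        have h2 : 1 - 1 / ((k : ℝ) + 1) ≤ Real.exp (-(1 / ((k : ℝ) + 1))) := by
          have := Real.add_one_le_exp (-(1 / ((k : ℝ) + 1)))
          linarith
        have h3 : (k : ℝ) / (k + 1) ≤ Real.exp (-(1 / ((k : ℝ) + 1))) := by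
          have : (k : ℝ) / (k + 1) = 1 - 1 / ((k : ℝ) + 1) := by field_simp; ring
          rw [this]; exact h2
        rw [Real.exp_neg, div_le_iff₀ hk1] at h3
        have he2 : 0 < Real.exp (1 / ((k : ℝ) + 1)) := Real.exp_pos _
        calc Real.exp (1 / ((k : ℝ) + 1)) * k
            ≤ Real.exp (1 / ((k : ℝ) + 1)) * ((Real.exp (1 / ((k : ℝ) + 1)))⁻¹ * (k + 1)) :=
              mul_le_mul_of_nonneg_left h3 he2.le
          _ = (k : ℝ) + 1 := by
              rw [← mul_assoc, mul_inv_cancel₀ he2.ne', one_mul]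
      have h4 : Real.exp 1 = Real.exp (1 / ((k : ℝ) + 1)) ^ (k + 1) := by
        rw [← Real.exp_nat_mul]
        congr 1
        push_cast
        field_simp
      rw [h4, ← mul_pow]
      exact pow_le_pow_left₀ (mul_nonneg (Real.exp_pos _).le hk0.le) h1 _
    rw [Nat.factorial_succ]
    push_cast
    calc ((k : ℝ) + 1) * (k.factorial : ℝ)
        ≤ ((k : ℝ) + 1) * (Real.exp 1 * k * (k / Real.exp 1) ^ k) :=
          mul_le_mul_of_nonneg_left ih hk1.le
      _ = ((k : ℝ) + 1) * Real.exp 1 * (Real.exp 1 * (k : ℝ) ^ (k + 1)) / Real.exp 1 ^ (k + 1) := by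
          rw [div_pow]
          field_simp
          ring
      _ ≤ ((k : ℝ) + 1) * Real.exp 1 * (((k : ℝ) + 1) ^ (k + 1)) / Real.exp 1 ^ (k + 1) := by
          gcongr
      _ = Real.exp 1 * ((k : ℝ) + 1) * (((k : ℝ) + 1) / Real.exp 1) ^ (k + 1) := by
          rw [div_pow]
          ring

end

end Pool.Agent.STp
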